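import Mathlib
import Pool.Agent.H255R3.STC.Chordal

/-!
# Project RC (problem MP_8cb124_co): the square of a long cycle of length divisible by three
is chromatically unique. Definitions.
-/

set_option autoImplicit false

namespace Pool.Agent.P8H79.RC

open Finset

/-- The number of proper colourings of `G` with `q` colours. -/
noncomputable def cnt {V : Type} (G : SimpleGraph V) (q : ℕ) : ℕ :=
  Nat.card (G.Coloring (Fin q))

/-- The number of proper colourings with `q` colours of the subgraph induced on `T`. -/
noncomputable def cntOn {V : Type} (G : SimpleGraph V) (T : Finset V) (q : ℕ) : ℕ :=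
  Nat.card ((G.induce (T : Set V)).Coloring (Fin q))

open Classical in
/-- The number of cliques with `k` vertices inside `T` (`k = 2`: edges, `k = 3`: triangles). -/
noncomputable def cl {V : Type} (G : SimpleGraph V) (T : Finset V) (k : ℕ) : ℕ :=
  ((T.powersetCard k).filter (fun S : Finset V => G.IsClique (S : Set V))).card

open Classical in
/-- The number of sets of `l` vertices inducing a cycle of length `l`. -/
noncomputable def holes {V : Type} [Fintype V] (G : SimpleGraph V) (l : ℕ) : ℕ :=
  (((Finset.univ : Finset V).powersetCard l).filter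
    (fun S : Finset V => Nonempty (SimpleGraph.cycleGraph l ≃g G.induce (S : Set V)))).card

/-- The square of the cycle of length `n`. -/
def Csq (n : ℕ) : SimpleGraph (ZMod n) :=
  SimpleGraph.fromRel (fun i j : ZMod n => j - i = 1 ∨ j - i = 2)

/-- `Z T` is the reversed chromatic polynomial of the subgraph of `G` induced on `T`
(variable `1 / q`), and `w U` is the linear coefficient of the chromatic polynomial of `U`. -/
structure ZFam {V : Type} [DecidableEq V] (G : SimpleGraph V) (w : Finset V → ℚ)
    (Z : Finset V → Polynomial ℚ) : Prop where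
  one : Z ∅ = 1
  w1 : ∀ v, w {v} = 1
  hrec : ∀ (T : Finset V) (v : V), v ∈ T →
    Z T = ∑ U ∈ T.powerset.filter (fun U => v ∈ U),
      Polynomial.C (w U) * Polynomial.X ^ (U.card - 1) * Z (T \ U)
  hcnt : ∀ (T : Finset V) (q : ℕ), 1 ≤ q →
    (cntOn G T q : ℚ) = (q : ℚ) ^ T.card * (Z T).eval (1 / (q : ℚ))

/-- Distance of the positions `i` and `j` on a cycle of length `l` (`i, j < l`). -/
def cd (l i j : ℕ) : ℕ := min (max i j - min i j) (l - (max i j - min i j))

/-- `e` is an isometric cycle of `G` (no walk of `G` is shorter than the distance on it). -/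
def Isom {V : Type} (G : SimpleGraph V) (l : ℕ) (e : SimpleGraph.cycleGraph l ↪g G) : Prop :=
  ∀ (i j : Fin l) (p : G.Walk (e i) (e j)), cd l i.val j.val ≤ p.length

/-- No induced cycle of length `j` with `4 ≤ j` and `2 j < N`. -/
def NoShort {V : Type} (G : SimpleGraph V) (N : ℕ) : Prop :=
  ∀ j : ℕ, 4 ≤ j → 2 * j < N → IsEmpty (SimpleGraph.cycleGraph j ↪g G)

/-- The link of a vertex: the subgraph induced on the neighbours. -/
def link {V : Type} (G : SimpleGraph V) (v : V) : SimpleGraph (G.neighborSet v) :=
  G.induce (G.neighborSet v)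

/-- The number of triangles through the pair `a, b` (number of common neighbours). -/
noncomputable def cc {V : Type} (G : SimpleGraph V) (a b : V) : ℕ :=
  {x : V | G.Adj a x ∧ G.Adj b x}.ncard

/-- A strip: the vertices are `x i`, the vertex `x (i+1)` is joined to `x i` and to `z i`
(and these are all edges), and `z (i+1)` is `z i` or `x i`. -/
structure IsStrip {V : Type} (G : SimpleGraph V) (N : ℕ) (x z : ZMod N → V) : Prop where
  bij : Function.Bijective x
  step : ∀ i, z (i + 1) = z i ∨ z (i + 1) = x i
  adj : ∀ a b, G.Adj a b ↔ ∃ i, (a = x (i + 1) ∧ (b = x i ∨ b = z i)) ∨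
    (b = x (i + 1) ∧ (a = x i ∨ a = z i))

/-- Closed sequences of states `(z, x)` of colours: `b i = true` is a pivot step
`(z, x) -> (x, x')`, `b i = false` a step `(z, x) -> (z, x')`, always `x'` not in `{z, x}`. -/
def Seqs (N : ℕ) (b : ZMod N → Bool) (q : ℕ) : Type :=
  {s : ZMod N → Fin q × Fin q // ∀ i, (s i).1 ≠ (s i).2 ∧
    (s (i + 1)).1 = (if b i then (s i).2 else (s i).1) ∧
    (s (i + 1)).2 ≠ (s i).1 ∧ (s (i + 1)).2 ≠ (s i).2}

/-- Vectors of the transfer recursion. -/
structure V7 where
  a : ℤ
  b : ℤ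
  c : ℤ
  d : ℤ
  e : ℤ
  f : ℤ
  g : ℤ

/-- One step of the transfer recursion (`s = q - 2`): `v.a, v.b, v.c, v.d, v.e, v.f, v.g` are
the numbers of paths of states from `(0, 1)` to `(0, 1)`, `(1, 0)`, `(0, *)`, `(1, *)`,
`(*, 0)`, `(*, 1)`, `(*, *')`. -/
def stepV (s : ℤ) (β : Bool) (v : V7) : V7 :=
  if β then
    { a := s * v.e, b := s * v.f, c := v.b + (s - 1) * v.e, d := v.a + (s - 1) * v.f,
      e := v.d + (s - 1) * v.g, f := v.c + (s - 1) * v.g, g := v.c + v.d + (s - 2) * v.g }
  else
    { a := s * v.c, b := s * v.d, c := v.a + (s - 1) * v.c, d := v.b + (s - 1) * v.d,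
      e := v.f + (s - 1) * v.g, f := v.e + (s - 1) * v.g, g := v.e + v.f + (s - 2) * v.g }

/-- The vector after `k` steps. -/
def vec (s : ℤ) (b : ℕ → Bool) : ℕ → V7
  | 0 => { a := 1, b := 0, c := 0, d := 0, e := 0, f := 0, g := 0 }
  | k + 1 => stepV s (b k) (vec s b k)

/-- Additive Moebius transform of a set function. -/
noncomputable def muf {V : Type} [DecidableEq V] (f : Finset V → PowerSeries ℚ) (T : Finset V) :
    PowerSeries ℚ :=
  ∑ U ∈ T.powerset, (-1 : PowerSeries ℚ) ^ (T.card - U.card) * f U

/-- Admissible set functions rooted at `v`. -/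
structure Adm {V : Type} [DecidableEq V] (v : V) (f : Finset V → PowerSeries ℚ) : Prop where
  off : ∀ U, v ∉ U → f U = 0
  ord : ∀ T : Finset V, (PowerSeries.X : PowerSeries ℚ) ^ (T.card - 1) ∣ muf f T

end Pool.Agent.P8H79.RC
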