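import Pool.Agent.P8H79.RC.Defs

/-!
# Project RC (problem MP_8cb124_co, Read's conjecture on squares of cycles). Packages.

Target: for every `n >= 64` divisible by 3 every finite graph with as many proper `k`-colourings
as the square of the `n`-cycle, for every `k`, is isomorphic to it.

Each package is a `def S_XXX : Prop`. Deliver `theorem xxx : S_XXX` (with the other packages
named in the docstring as hypotheses where it says so), in any directory of yours.
-/

set_option autoImplicit false

namespace Pool.Agent.P8H79.RC

open Finset Polynomial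

/-! ## Structure of the graph (no polynomials) -/

/-- **COC** (linear algebra over `ZMod 2`, 120 lines). If (number of edges) - (number of
triangles) is at least the number of vertices, there is a symmetric `φ` on pairs with sum zero on
every triangle which is not a coboundary.
PROOF. `A = edges -> ZMod 2`. The map `A -> (triangles -> ZMod 2)`, sum over the three edges, has
kernel of dimension at least `m - t >= |V|`. The map `(V -> ZMod 2) -> A`, `f ↦ f a + f b`, has the
constant function `1` in its kernel, so its range has dimension at most `|V| - 1`. So the kernel is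
not contained in the range. -/
def S_COC : Prop :=
  ∀ (V : Type) [Fintype V] [Nonempty V] (G : SimpleGraph V),
    cl G Finset.univ 3 + Fintype.card V ≤ cl G Finset.univ 2 →
    ∃ φ : V → V → ZMod 2, (∀ a b, φ a b = φ b a) ∧
      (∀ a b c, G.Adj a b → G.Adj b c → G.Adj a c → φ a b + φ b c + φ a c = 0) ∧
      ¬ ∃ f : V → ZMod 2, ∀ a b, G.Adj a b → φ a b = f a + f b

/-- **SHORT** (200 lines). If `φ` is symmetric, zero on triangles and not a coboundary, there is an
induced isometric cycle of length at least 4.
PROOF. Call the `φ`-sum of a walk its parity. If all closed walks were even, then `f a` := parity of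
a walk from a base point to `a` would be well defined and `φ = δ f` on edges. So there are odd closed
walks; let `Q` be a shortest one, of length `l`, `Q = q_0 ... q_{l-1} q_0`. Lengths 0 and 2 are even,
length 3 is a triangle, even. So `l >= 4`. KEY: for `i, j` positions and a walk `p` of `G` from `q_i`
to `q_j`, both arcs of `Q` closed by `p` are closed walks and their parities add up to
`1 + 2 parity(p) = 1`, so one of them is odd, hence of length `>= l`: so `p.length >= l - arc` for one
of the two arcs, i.e. `p.length` is at least the length of the other arc, hence at least the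
cyclic distance `cd l i j`. In particular (walks of length 0, 1) the `q_i` are distinct and there are
no chords, so `Q` is an induced cycle (embedding of `cycleGraph l`), and it is isometric. -/
def S_SHORT : Prop :=
  ∀ (V : Type) [Fintype V] (G : SimpleGraph V) (φ : V → V → ZMod 2), G.Connected →
    (∀ a b, φ a b = φ b a) →
    (∀ a b c, G.Adj a b → G.Adj b c → G.Adj a c → φ a b + φ b c + φ a c = 0) →
    (¬ ∃ f : V → ZMod 2, ∀ a b, G.Adj a b → φ a b = f a + f b) →
    ∃ l : ℕ, 4 ≤ l ∧ ∃ e : SimpleGraph.cycleGraph l ↪g G, Isom G l e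

/-- **HOLE** (120 lines). A finite graph which is not acyclic contains an induced cycle (of length
`>= 3`). PROOF: a shortest cycle has no chord. -/
def S_HOLE : Prop :=
  ∀ (V : Type) [Finite V] (G : SimpleGraph V), ¬ G.IsAcyclic →
    ∃ r : ℕ, 3 ≤ r ∧ Nonempty (SimpleGraph.cycleGraph r ↪g G)

/-- **WIN** (60 lines). Positions on a cycle of length `l > 3 k` pairwise at distance at most `k` are
at most `k + 1`. PROOF: fix `a` in `S`; the offsets of the others from `a` lie in `[-k, k]`, and two
offsets differ by at most `2 k`, so (as `l - 2 k > k`) by at most `k`. So they lie in an interval of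
`k + 1` integers. -/
def S_WIN : Prop :=
  ∀ (l k : ℕ), 3 * k < l → ∀ S : Finset (Fin l),
    (∀ i ∈ S, ∀ j ∈ S, cd l i.val j.val ≤ k) → S.card ≤ k + 1

/-- **NB1** (50 lines). Without `K_4` and without induced `C_4`, two different non-adjacent vertices
have at most 2 common neighbours. PROOF: two non-adjacent common neighbours would give an
induced `C_4`; three pairwise adjacent ones with `v` a `K_4`. -/
def S_NB1 : Prop :=
  ∀ (V : Type) [Finite V] (G : SimpleGraph V), G.CliqueFree 4 →
    IsEmpty (SimpleGraph.cycleGraph 4 ↪g G) →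
    ∀ u v : V, u ≠ v → ¬ G.Adj u v → cc G u v ≤ 2

/-- **NB2** (150 lines). `c` an induced cycle of length `r` in the neighbourhood of `v`, `o` another
neighbour of `v` not on it. If there is no `K_4`, no induced cycle of length `j` with
`4 ≤ j`, `2 j < N`, and `r + 4 < N`, then `o` has at most one neighbour on the cycle.
PROOF. Otherwise choose neighbours `c_i ≠ c_j` of `o` with `a := (j - i)` (in `Z / r`, as a number
between `1` and `r - 1`) minimal. Then `a ≤ r / 2` (compare with `(i, j)` exchanged) and no
`c_k` strictly between is adjacent to `o`. If `a = 1`, then `v, o, c_i, c_j` is a `K_4`. So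
`a >= 2` and `o, c_i, ..., c_j` is an induced cycle of length `a + 2 >= 4` (note `2 a ≤ r`, if
`c_i` and `c_j` are adjacent at the other side then `r = a + 1`, impossible), so
`2 (a + 2) >= N`, but `2 a + 4 ≤ r + 4 < N`. -/
def S_NB2 : Prop :=
  ∀ (V : Type) [Finite V] (G : SimpleGraph V) (N r : ℕ), G.CliqueFree 4 → NoShort G N →
    4 ≤ r → r + 4 < N → ∀ (c : SimpleGraph.cycleGraph r ↪g G) (v o : V),
    (∀ i, G.Adj v (c i)) → G.Adj v o → (∀ i, c i ≠ o) →
    ∀ i j, G.Adj o (c i) → G.Adj o (c j) → i = j

/-- **CNTW** (300 lines; hypotheses `S_WIN`, `S_NB1`, `S_NB2` may be used as arguments: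
`theorem cntw : S_WIN → S_NB1 → S_NB2 → S_CNTW`). `N = |V| >= 64`, no `K_4`, no short holes, `e` an
isometric induced cycle of length `l >= 4`, `c` an induced cycle of length `r >= 4` inside the
neighbourhood of `v`. Then there are fewer than `2 N` edges.
PROOF. `2 l >= N`, `2 r >= N` (NoShort), so `l, r >= 32`. `A := range c ∪ {v}` (`r + 1` vertices),
`Q := range e`. Two vertices of `A` are at distance at most 2 (via `v`), so the positions `i` with
`e i ∈ A` are pairwise at `cd` at most 2 (isometry), at most 3 by WIN. Let `O` be the complement of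
`A ∪ Q`: `|O| = N - (r + 1 + l - |A ∩ Q|) ≤ N - r - l + 2 ≤ 2` and so `r ≤ N - l + 2`, `r + 4 < N`.
(a) a vertex `u` not in `A` has at most 2 neighbours in `A`: if `u` is not adjacent to `v`, they
are common neighbours of `u` and `v`: NB1; if `u ~ v`: `v` itself and at most one `c i` by NB2.
(b) The positions `i` with `e i ∉ A` having a neighbour in `A` are pairwise at distance at most 4
(walk `e i - a - v - a' - e j`), so at most 5 by WIN (`12 < l`).
(c) a vertex `o ∈ O` has at most 3 neighbours in `Q` (positions pairwise at distance 2, WIN), at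
most 2 in `A`, at most 1 in `O`.
Edges: inside `A`: at most `2 r` (`r` from `v`, `r` of the cycle `c`); inside `Q`: at most `l`; between
`Q \ A` and `A`: at most `5 * 2 = 10`; with an end in `O`: at most `2 * 6 = 12`. Total
`≤ 2 r + l + 22 ≤ 2 (N - l + 2) + l + 22 = 2 N - l + 26 < 2 N`. -/
def S_CNTW : Prop :=
  ∀ (V : Type) [Fintype V] (G : SimpleGraph V), 64 ≤ Fintype.card V → G.CliqueFree 4 →
    NoShort G (Fintype.card V) → ∀ (l r : ℕ), 4 ≤ l → 4 ≤ r →
    ∀ (e : SimpleGraph.cycleGraph l ↪g G), Isom G l e →
    ∀ (c : SimpleGraph.cycleGraph r ↪g G) (v : V), (∀ i, G.Adj v (c i)) →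
    cl G Finset.univ 2 < 2 * Fintype.card V

/-- **LINK** (150 lines). `2N` edges, `N` triangles, all degrees `>= 1`, all links forests: then
all links are trees. PROOF. Sum over `v` of the degree is `4 N`, sum over `v` of the number of
edges of the link is `3 N` (each triangle is counted at its three vertices). A forest on `d >= 1`
vertices has at most `d - 1` edges, so all `N` inequalities `e(link v) ≤ deg v - 1` are
equalities, and a forest with `d` vertices and `d - 1` edges is a tree. -/
def S_LINK : Prop :=
  ∀ (V : Type) [Fintype V] (G : SimpleGraph V), (∀ v, (link G v).IsAcyclic) →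
    (∀ v, (G.neighborSet v).Nonempty) → cl G Finset.univ 2 = 2 * Fintype.card V →
    cl G Finset.univ 3 = Fintype.card V → ∀ v, (link G v).IsTree

/-- **AVOID** (80 lines). All links are trees, as many triangles as vertices: no vertex is in all
triangles. PROOF. The triangles through `v` are the edges of the link of `v`, which are
`deg v - 1 < N` many (or zero when the link is empty: `IsTree` gives nonempty). -/
def S_AVOID : Prop :=
  ∀ (V : Type) [Fintype V] (G : SimpleGraph V), (∀ v, (link G v).IsTree) →
    cl G Finset.univ 3 = Fintype.card V →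
    ∀ v, ∃ a b c, G.Adj a b ∧ G.Adj b c ∧ G.Adj a c ∧ v ≠ a ∧ v ≠ b ∧ v ≠ c

/-- **CNT2** (250 lines). `2N` edges, `N` triangles, links trees, degrees `>= 3`: every edge is in one
or two triangles and each triangle has exactly one edge which is in only one triangle.
PROOF. `cc a b` is the degree of `b` in the link of `a`, a tree with at least 3 vertices: so
`cc a b >= 1`. (1) A triangle `a b x` does not have two edges with `cc = 1`: if `cc a b = 1 = cc a x`
then in the link of `a` the vertex `b` is adjacent to `x` only and `x` to `b` only, so the link,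
being connected, is `{b, x}`, contradicting degree `>= 3`. (2) Let `m_1` be the number of edges with
`cc = 1`. Sum over edges of `cc` is `3 N`, so sum over edges of `(cc - 1)` is `3 N - 2 N = N`, and the
`2 N - m_1` edges with `cc >= 2` contribute at least 1 each: `2 N - m_1 ≤ N`, `m_1 >= N`. By (1) the
map (edge with `cc = 1`) to (its triangle) is injective, so `m_1 ≤ N`. Hence `m_1 = N`: equality
everywhere: every triangle has exactly one edge with `cc = 1`, and `cc = 2` for all others. -/
def S_CNT2 : Prop :=
  ∀ (V : Type) [Fintype V] (G : SimpleGraph V), (∀ v, (link G v).IsTree) →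
    (∀ v, 3 ≤ (G.neighborSet v).ncard) → cl G Finset.univ 2 = 2 * Fintype.card V →
    cl G Finset.univ 3 = Fintype.card V →
    (∀ a b, G.Adj a b → cc G a b = 1 ∨ cc G a b = 2) ∧
    (∀ a b x, G.Adj a b → G.Adj b x → G.Adj a x →
      (cc G a b = 1 ∧ cc G b x = 2 ∧ cc G a x = 2) ∨
      (cc G a b = 2 ∧ cc G b x = 1 ∧ cc G a x = 2) ∨
      (cc G a b = 2 ∧ cc G b x = 2 ∧ cc G a x = 1))

/-- The triangles of `G`. -/
def Tri {V : Type} (G : SimpleGraph V) : Type := {S : Finset V // G.IsNClique 3 S}

open Classical in
/-- The graph of the triangles: two triangles are joined when they share two vertices. -/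
def triGraph {V : Type} (G : SimpleGraph V) : SimpleGraph (Tri G) where
  Adj S T := S ≠ T ∧ (S.1 ∩ T.1).card = 2
  symm := ⟨fun S T h => ⟨h.1.symm, by rw [Finset.inter_comm]; exact h.2⟩⟩
  loopless := ⟨fun _ h => h.1 rfl⟩

/-- **STA** (150 lines). The graph of triangles is 2-regular, when each edge is in one or two
triangles and each triangle has exactly one edge which is in one triangle only.
PROOF. For each of the two edges with `cc = 2` of the triangle `S` there is exactly one other
triangle through it, and those two triangles are different (a triangle containing two edges of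
`S` is `S`). -/
def S_STA : Prop :=
  ∀ (V : Type) [Fintype V] (G : SimpleGraph V),
    (∀ a b, G.Adj a b → cc G a b = 1 ∨ cc G a b = 2) →
    (∀ a b x, G.Adj a b → G.Adj b x → G.Adj a x →
      (cc G a b = 1 ∧ cc G b x = 2 ∧ cc G a x = 2) ∨
      (cc G a b = 2 ∧ cc G b x = 1 ∧ cc G a x = 2) ∨
      (cc G a b = 2 ∧ cc G b x = 2 ∧ cc G a x = 1)) →
    ∀ S : Tri G, ((triGraph G).neighborSet S).ncard = 2

/-- **STB** (150 lines). `G` connected, all links trees (only connectedness is used) and every edge in
a triangle: the graph of triangles is connected.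
PROOF. The triangles through `v` are the edges of the link of `v`; two edges of the link with a
common end are triangles sharing two vertices, and the link is connected, so all triangles
through `v` are in one component. For adjacent `v, w` there is a triangle through both. As `G` is
connected, all triangles are in one component. (There is a triangle: `G` has an edge.) -/
def S_STB : Prop :=
  ∀ (V : Type) [Fintype V] (G : SimpleGraph V), G.Connected → (∀ v, (link G v).Connected) →
    (∀ a b, G.Adj a b → 1 ≤ cc G a b) → (triGraph G).Connected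

/-- **REG** (120 lines). A finite connected 2-regular graph is a cycle. (Mathlib has
`SimpleGraph.IsCycles.exists_cycle_toSubgraph_verts_eq_connectedComponentSupp`, which may help.) -/
def S_REG : Prop :=
  ∀ (τ : Type) [Finite τ] (Γ : SimpleGraph τ) (N : ℕ), Nat.card τ = N → Γ.Connected →
    (∀ S, (Γ.neighborSet S).ncard = 2) →
    ∃ T : ZMod N → τ, Function.Bijective T ∧ ∀ i, Γ.Adj (T i) (T (i + 1))

/-- **STC** (250 lines). From the cyclic enumeration of the triangles to the strip.
PROOF. `N = |V|`. `T (i-1) ∩ T i` and `T i ∩ T (i+1)` are different pairs of vertices (if equal, this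
pair of vertices would be in the three different triangles `T (i-1), T i, T (i+1)`, but `cc ≤ 2`).
Let `x i` be the vertex of `T i` not in `T (i-1)`; then `x i ∈ T (i+1)`. Let `z i` be the other element
of `T i ∩ T (i+1)`. So `T (i+1) = {z i, x i, x (i+1)}` and `z (i+1) ∈ T (i+1)`, `z (i+1) ≠ x (i+1)`: so
`z (i+1) = z i` or `x i`. `x` is surjective: for a vertex `v` the set of `i` with `v ∈ T i` is neither
empty (every vertex has a neighbour, every edge is in a triangle) nor everything, so there is `i` with
`v ∈ T i`, `v ∉ T (i-1)`, so `v = x i`. As `|V| = N`, `x` is bijective. Every edge is in some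
`T (i+1) = {z i, x i, x (i+1)}`: if it is the pair `z i, x i`, it is contained in `T i`, which is
`{z (i-1), x (i-1), x i}`, so it is of the form `x i` and `z (i-1)` or `x (i-1)`. -/
def S_STC : Prop :=
  ∀ (V : Type) [Fintype V] (G : SimpleGraph V) (N : ℕ), 4 ≤ N → Fintype.card V = N →
    (∀ a b, G.Adj a b → cc G a b = 1 ∨ cc G a b = 2) → (∀ v, ∃ w, G.Adj v w) →
    (∀ v, ∃ a b c, G.Adj a b ∧ G.Adj b c ∧ G.Adj a c ∧ v ≠ a ∧ v ≠ b ∧ v ≠ c) →
    ∀ T : ZMod N → Tri G, Function.Bijective T →
    (∀ i, (triGraph G).Adj (T i) (T (i + 1))) →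
    ∃ x z : ZMod N → V, IsStrip G N x z

/-- **CON** (100 lines). Exactly six 3-colourings and a triangle: the graph is connected.
PROOF. The six colourings are `σ ∘ c`, `σ ∈ Perm (Fin 3)` (different because of the triangle). If `G`
is not connected, take a component `C` not containing the triangle, and change the colours in
`C` by a transposition moving a colour used in `C`: a colouring equal to `c` on the triangle and
different from `c`, a seventh one. -/
def S_CON : Prop :=
  ∀ (V : Type) [Finite V] (G : SimpleGraph V), cnt G 3 = 6 →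
    (∃ a b c, G.Adj a b ∧ G.Adj b c ∧ G.Adj a c) → G.Connected

/-- **DEG1** (80 lines). Exactly six 3-colourings and a triangle: every vertex has two different
neighbours. PROOF. If `w` has at most one neighbour, it is not in the triangle, and one can change
the colour of `w` to a third colour: a seventh colouring (as in CON). -/
def S_DEG1 : Prop :=
  ∀ (V : Type) [Finite V] (G : SimpleGraph V), cnt G 3 = 6 →
    (∃ a b c, G.Adj a b ∧ G.Adj b c ∧ G.Adj a c) → ∀ w, ∃ a b, a ≠ b ∧ G.Adj w a ∧ G.Adj w b

/-- **DEG2** (150 lines). If `w` has exactly the two neighbours `a, b`, which are adjacent, and there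
is a triangle not containing `w`, then `q (q-1) (q-2)^2` divides the number of `q`-colourings.
PROOF. The number of `q`-colourings of `G` is `(q-2)` times that of `G - w`, and the latter is
`q (q-1) (q-2)` times the number of colourings with prescribed (different) colours on the
triangle, since the symmetric group acts transitively on triples of different colours. -/
def S_DEG2 : Prop :=
  ∀ (V : Type) [Finite V] (G : SimpleGraph V) (w a b : V), G.Adj a b →
    (∀ v, G.Adj w v ↔ v = a ∨ v = b) →
    (∃ x y z, G.Adj x y ∧ G.Adj y z ∧ G.Adj x z ∧ w ≠ x ∧ w ≠ y ∧ w ≠ z) →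
    ∀ q : ℕ, 3 ≤ q → (q * (q - 1) * (q - 2) ^ 2) ∣ cnt G q

/-- **CCS** (180 lines). The colourings of a strip are the closed sequences of states.
PROOF. To a colouring `c` associate `s i = (c (z i), c (x i))`. (`z i ≠ x i`, even adjacent, because
`z i ∈ {z (i-1), x (i-1)}` and `x i` is adjacent to both.) Conversely to `s` associate the colouring
`c (x i) := (s i).2`; one has to show `c (z i) = (s i).1`: there is `j` with `z (j+1) = x j` (otherwise
`z` is constant, equal to some `x i = z i`, impossible) and one goes round from `j + 1`: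
`(s (j+1)).1 = (s j).2 = c (x j) = c (z (j+1))`, and the equality propagates from `i` to `i + 1` by
the recursions, which are the same. -/
def S_CCS : Prop :=
  ∀ (V : Type) [Finite V] [DecidableEq V] (G : SimpleGraph V) (N : ℕ), 2 ≤ N →
    ∀ x z : ZMod N → V, IsStrip G N x z →
    (∃ i, z (i + 1) = x i) ∧
    ∀ q : ℕ, cnt G q = Nat.card (Seqs N (fun i => decide (z (i + 1) = x i)) q)

/-- **TRA** (250 lines). The number of closed sequences of states by the transfer recursion.
PROOF. Cutting the cycle at `k0`, the closed sequences are the closed paths of states of length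
`N`: (number) = sum over states `(z, x)`, `z ≠ x`, of the number of paths from `(z, x)` to itself. By
symmetry (permuting colours) it is `q (q-1)` times the number of paths from `(0,1)` to `(0,1)`. The
number of paths of length `k` from `(0,1)` to a state only depends on the type of the state
(`(0,1)`, `(1,0)`, `(0,*)`, `(1,*)`, `(*,0)`, `(*,1)`, `(*,*')` with `*, *'` different and not in
`{0,1}`) and the seven numbers satisfy the recursion `stepV` with `s = q - 2`: e.g. for a pivot step,
`v'(z', x')` is the sum over `z ∉ {z', x'}` of `v(z, z')`; for a non-pivot step it is the sum over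
`x ∉ {z', x'}` of `v(z', x)`. -/
def S_TRA : Prop :=
  ∀ (N q : ℕ), 2 ≤ N → 4 ≤ q → ∀ (b : ZMod N → Bool) (k0 : ZMod N),
    (Nat.card (Seqs N b q) : ℤ) =
      (q : ℤ) * (q - 1) * (vec ((q : ℤ) - 2) (fun k => b (k0 + (k : ZMod N))) N).a

/-- **TRB** (100 lines). The recursion modulo `s`. PROOF. After `k >= 1` steps, the first of which is
a pivot step, with `p >= 1` pivot steps among them, `a` and `b` are divisible by `s` and modulo `s`
`(c, d, e, f, g) = (-1)^k ((p-1)/2, (p-2)/2, p/2, (p-1)/2, p-1)` (floors; `(p-2)/2 = -1` for `p = 1`;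
use integer division of integers). Induction: a non-pivot step sends, modulo `s`,
`(c,d,e,f,g)` to `(-c, -d, f-g, e-g, e+f-2g)`, and `g = e + f`; a pivot step sends it to
`(-e, -f, d-g, c-g, c+d-2g)`. The first step sends `a = 1` to `d = 1`. Last step: `a = s * e` or
`s * c` with `e, c` of step `N - 1`. -/
def S_TRB : Prop :=
  ∀ (s : ℤ) (b : ℕ → Bool) (N : ℕ), 2 ≤ N → b 0 = true →
    ∃ M : ℤ, (vec s b N).a = s * M ∧
      s ∣ M - (-1) ^ (N - 1) * (((((Finset.range N).filter (fun k => b k = true)).card : ℤ) - 1) / 2)

/-- **MON** (80 lines). A 3-colourable strip has an even number of non-pivot steps.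
PROOF. Colours in `ZMod 3`: `ε_i := c (x i) - c (z i) ∈ {1, -1}`, and `c (x (i+1))` is the third colour
`-(c (x i) + c (z i))`. A pivot step preserves `ε`, a non-pivot step changes its sign. -/
def S_MON : Prop :=
  ∀ (V : Type) [Finite V] [DecidableEq V] (G : SimpleGraph V) (N : ℕ), 2 ≤ N →
    ∀ x z : ZMod N → V, IsStrip G N x z → 0 < cnt G 3 →
    Even {i : ZMod N | z (i + 1) ≠ x i}.ncard

/-! ## The square of the cycle -/

/-- **SQA** (150 lines). -/
def S_SQA : Prop :=
  ∀ (n : ℕ) [NeZero n], 10 ≤ n → (Csq n).CliqueFree 4 ∧ cl (Csq n) Finset.univ 2 = 2 * n ∧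
    cl (Csq n) Finset.univ 3 = n

/-- **SQB** (150 lines). No induced cycle of length `j`, `4 ≤ j`, `2 j < n`. PROOF. Lift the cycle to
integers with steps in `{±1, ±2}`; the total is a multiple of `n` of absolute value at most
`2 j < n`, so 0. Take a position where the lift is maximal, `M`: its two neighbours on the cycle are
`M - 1` and `M - 2` (different vertices; two vertices with lifts equal are equal), which are adjacent
(or equal), but for `j >= 4` they are not adjacent. -/
def S_SQB : Prop :=
  ∀ (n : ℕ), 10 ≤ n → NoShort (Csq n) n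

/-- **SQC** (80 lines). Six 3-colourings. PROOF: the colours of `0, 1` (six possibilities) determine
all others, the colouring has period 3, and `3 ∣ n`. -/
def S_SQC : Prop :=
  ∀ (n : ℕ), 10 ≤ n → 3 ∣ n → cnt (Csq n) 3 = 6

/-- **SQD** (60 lines). `Csq n` is the strip with pivot steps only, and conversely. -/
def S_SQD : Prop :=
  (∀ n : ℕ, 10 ≤ n → IsStrip (Csq n) n (fun i => i) (fun i => i - 1)) ∧
  ∀ (V : Type) (G : SimpleGraph V) (n : ℕ), 10 ≤ n → ∀ x z : ZMod n → V, IsStrip G n x z →
    (∀ i, z (i + 1) = x i) → Nonempty (G ≃g Csq n)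

/-! ## Chromatic polynomials -/

/-- **POL** (250 lines). The reversed chromatic polynomials of the induced subgraphs.
PROOF. `P(T, q) := cntOn G T q`. (1) `P(T, a + b) = sum over U ⊆ T of P(U, a) P(T \ U, b)` (the set `U`
of the vertices with one of the first `a` colours). With `b = q, a = 1` and strong induction on `|T|`,
`P(T, ·)` is a polynomial `P T ∈ ℚ[X]` of degree at most `|T|` (its difference is). The identity (1)
then holds for polynomials in `b`, and in `a`. (2) `w U :=` coefficient of `X` in `P U` (`w {v} = 1`);
differentiating (1) in `a` at `0`, with `P(U, 0) = 0` for `U ≠ ∅`: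
`P(T)' = sum over U ⊆ T of w(U) P(T \ U)` (`w ∅ = 0`). (3) For `v ∈ T`:
`P(T) = X * sum over U, v ∈ U ⊆ T, of w(U) P(T \ U)`: induction on `|T|`, both sides vanish at `0`, and
the derivative of the right side is, by (2) for `T \ U` and the induction hypothesis for
`T \ W`: `sum over U ∋ v of w(U) P(T \ U) + sum over W ∌ v, W ≠ ∅, of w(W) P(T \ W) = P(T)'`.
(4) `Z T := Polynomial.reflect |T| (P T)` (`reflect_mul`, `eval₂_reflect_mul_pow` or similar). -/
def S_POL : Prop :=
  ∀ (V : Type) [Fintype V] [DecidableEq V] (G : SimpleGraph V),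
    ∃ (w : Finset V → ℚ) (Z : Finset V → Polynomial ℚ), ZFam G w Z

/-- **KA** (200 lines; pure algebra in `ℚ⟦X⟧`). Admissible functions rooted at `v` (`muf f T`
divisible by `X^(|T|-1)`, `f U = 0` for `v ∉ U`) are closed under products and, when the values
have constant coefficient 1, under inverses, and then the multiplicative Moebius transform is
`1` modulo `X^(|T|-1)`.
PROOF. `f T = sum over U ⊆ T of muf f U`; `muf f U = 0` if `v ∉ U`. Product: `muf (f g) S` is the sum over
`U ∪ U' = S` of `muf f U * muf g U'`, where `v` is in both, so `|S| - 1 ≤ (|U|-1) + (|U'|-1)`.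
Multiplicative: define `Λ(T)` for `v ∈ T` by `f T = prod over v ∈ U ⊆ T of Λ(U)`, so
`Λ(T) = prod (f U)^{±1}`. Claim `Λ(T) = 1` mod `X^(|T|-1)`, by induction on `|T|`: the function
`f~ : T' ↦ prod over v ∈ U ⊆ T', U ≠ T, |U| ≤ |T|..., of Λ(U)` (for `T' ⊆ T`) is a product of functions
`T' ↦ 1_{v ∈ T'} + 1_{U ⊆ T'} (Λ(U) - 1)`, which are admissible, hence admissible by the product
rule; `f = f~` on proper subsets of `T`, so `f T - f~ T = muf f T - muf f~ T` is divisible by
`X^(|T|-1)`, and `f T = f~ T * Λ(T)`. Inverse: `1 / f T' = prod of Λ(U)^{-1}` is in the same way a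
product of admissible functions (mod high powers of `X`, or exactly). -/
def S_KA : Prop :=
  ∀ (V : Type) [Fintype V] [DecidableEq V] (v : V),
    (∀ f g : Finset V → PowerSeries ℚ, Adm v f → Adm v g → Adm v (fun U => f U * g U)) ∧
    (∀ f : Finset V → PowerSeries ℚ, Adm v f →
      (∀ U, v ∈ U → PowerSeries.constantCoeff (f U) = 1) →
      Adm v (fun U => if v ∈ U then (f U)⁻¹ else 0) ∧
      ∀ T : Finset V, v ∈ T → (PowerSeries.X : PowerSeries ℚ) ^ (T.card - 1) ∣
        (∏ U ∈ T.powerset.filter (fun U => v ∈ U ∧ Even (T.card - U.card)), f U) -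
        (∏ U ∈ T.powerset.filter (fun U => v ∈ U ∧ ¬ Even (T.card - U.card)), f U))

/-- **KB** (250 lines; `theorem kb : S_KA → S_KB`). The cluster property of the polymer recursion.
PROOF. All `Z T` have constant coefficient 1. For `v ∈ T` let `R_v(T) = Z(T) / Z(T \ v)` (and `0` for
`v ∉ T`). Claim: `Adm v R_v` for all `v`; prove `X^(|T|-1) ∣ muf R_v T` by induction on `|T|`
(for all `v`). Divide the recursion by `Z(T \ v)`: with `U = {v, u_1, ..., u_k}`,
`Z(T \ U) / Z(T \ v) = prod over i of 1 / R_{u_i}(T \ {v, u_1, ..., u_{i-1}})`, so for `U ⊆ T`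
`R_v(T) = sum over U of w(U) X^(|U|-1) prod_i 1 / R_{u_i}(T \ {v, u_1, ..., u_{i-1}})`.
The function `T' ↦ 1 / R_{u_i}(T' \ D_i)`, `D_i = {v, u_1..u_{i-1}}`, is by the induction hypothesis
and KA (inverse) a sum over `W ∋ u_i`, `W ⊆ T'`, `W ∩ D_i = ∅`, of terms divisible by `X^(|W|-1)`.
So the Moebius transform at `T` of the term of `U` is a sum, over families `(W_i)` with
`U ∪ W_1 ∪ ... ∪ W_k = T`, of terms divisible by `X^(|U| - 1 + sum (|W_i| - 1)) = X^(sum |W_i|)`, and
`sum |W_i| >= |T \ {v}|`. (The sets concerned have fewer elements than `T`, as `v` is removed.)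
Finally, for `v ∈ T`, `prod over U ⊆ T of Z(U)^{±}` is `prod over v ∈ U ⊆ T of R_v(U)^{±}` (pair `U` with
`U \ v`), so the multiplicative statement of KA gives the claim. -/
def S_KB : Prop :=
  ∀ (V : Type) [Fintype V] [DecidableEq V] (w : Finset V → ℚ) (Z : Finset V → PowerSeries ℚ),
    Z ∅ = 1 → (∀ v, w {v} = 1) →
    (∀ (T : Finset V) (v : V), v ∈ T →
      Z T = ∑ U ∈ T.powerset.filter (fun U => v ∈ U),
        PowerSeries.C (w U) * PowerSeries.X ^ (U.card - 1) * Z (T \ U)) →
    ∀ T : Finset V, (PowerSeries.X : PowerSeries ℚ) ^ (T.card - 1) ∣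
      (∏ U ∈ T.powerset.filter (fun U => Even (T.card - U.card)), Z U) -
      (∏ U ∈ T.powerset.filter (fun U => ¬ Even (T.card - U.card)), Z U)

/-- **CHO** (200 lines). The chromatic polynomial of a chordal graph without `K_4`.
PROOF. Induction on `|T|`. There is `v ∈ T` whose neighbours in `T` form a clique
(`Pool.Agent.N442.CL.exists_simp` for the induced subgraph, or `exists_simplicial` in
`Pool.Agent.H255R3.STC.Chordal`), of size `d ∈ {0, 1, 2}` as there is no `K_4`; then
`cntOn T q = (q - d) cntOn (T \ v) q`, so `Z T = (1 - d X) Z (T \ v)` (they agree at all `1 / q`,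
`q >= 1`), the number of edges drops by `d` and the number of triangles by `1` if `d = 2`, else `0`. -/
def S_CHO : Prop :=
  ∀ (V : Type) [Fintype V] [DecidableEq V] (G : SimpleGraph V) (w : Finset V → ℚ)
    (Z : Finset V → Polynomial ℚ), ZFam G w Z → G.CliqueFree 4 → ∀ T : Finset V,
    Pool.Agent.H255R3.STC.IsChordal (G.induce (T : Set V)) →
    Z T * (1 - X) ^ (2 * cl G T 3) = (1 - X) ^ (cl G T 2) * (1 - C 2 * X) ^ (cl G T 3)

/-- **CYC** (100 lines). Colourings of a cycle. PROOF: closed walks in `K_q`, or
`a_{l+1} = q (q-1)^l - a_l` for the cycle (path colourings with ends different or equal). -/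
def S_CYC : Prop :=
  ∀ l q : ℕ, 3 ≤ l → 1 ≤ q →
    (cnt (SimpleGraph.cycleGraph l) q : ℤ) = ((q : ℤ) - 1) ^ l + (-1) ^ l * ((q : ℤ) - 1)

/-- **HX** (250 lines; `theorem hx : S_KB → S_CHO → S_CYC → S_HX`). The expansion of the chromatic
polynomial of a graph without `K_4` and without holes of length less than `l`.
PROOF. In `ℚ⟦X⟧` let `Λ(T) = (prod over U ⊆ T, |T \ U| even, of Z(U)) / (prod over odd)`, so that
`Z(T) = prod over U ⊆ T of Λ(U)` (multiplicative Moebius inversion), and `Λ(T) = 1` mod `X^(|T|-1)` by
KB. For `|T| < l` the induced subgraph is chordal, so by CHO `Z(T) = prod over U ⊆ T of L(U)` with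
`L(U) = 1 - X` for an edge, `(1 - 2X) / (1 - X)^2` for a triangle, `1` otherwise; so
`Λ(T) = L(T)` for `|T| < l` by induction. For `|T| = l`: if `G[T]` is chordal, `Λ(T) = 1` in the
same way; otherwise it contains an induced cycle of length at least `4`, hence exactly `l`, so it
is the cycle, and `(1 - X)^l Λ(T) = Z(T) = (1-X)^l + (-1)^l (X^(l-1) - X^l)` by CYC, so
`Λ(T) = 1 + (-1)^l X^(l-1)` mod `X^l`. For `|T| > l`, `Λ(T) = 1` mod `X^l`. Multiply. -/
def S_HX : Prop :=
  ∀ (V : Type) [Fintype V] [DecidableEq V] (G : SimpleGraph V) (w : Finset V → ℚ)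
    (Z : Finset V → Polynomial ℚ), ZFam G w Z → G.CliqueFree 4 → ∀ l : ℕ, 4 ≤ l →
    (∀ j, 4 ≤ j → j < l → IsEmpty (SimpleGraph.cycleGraph j ↪g G)) →
    (X : Polynomial ℚ) ^ l ∣
      Z Finset.univ * (1 - X) ^ (2 * cl G Finset.univ 3) -
      (1 - X) ^ (cl G Finset.univ 2) * (1 - C 2 * X) ^ (cl G Finset.univ 3) *
        (1 + (-1) ^ l * X ^ (l - 1)) ^ (holes G l)

/-- **CMP** (200 lines; `theorem cmp : S_POL → S_HX → S_CMP`). Two graphs without `K_4` on the same
number of vertices with the same chromatic polynomials have the same number of edges and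
triangles, and if one has no short holes, neither has the other.
PROOF. The polynomials `Z univ` of both are equal (they agree at `1 / q`, all `q >= 1`). Edges and
triangles: HX with `l = 4` modulo `X^3` (coefficient of `X`: `-(number of edges)`, then the
coefficient of `X^2`). Holes: strong induction on the length `l`, from HX for `l` the two
numbers `holes l` are equal (coefficient of `X^(l-1)`, after cancelling units); `holes G l = 0` iff
there is no embedding of `cycleGraph l`. -/
def S_CMP : Prop :=
  ∀ (V W : Type) [Fintype V] [Fintype W] (G : SimpleGraph V) (H : SimpleGraph W),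
    G.CliqueFree 4 → H.CliqueFree 4 → Fintype.card V = Fintype.card W →
    (∀ q, cnt G q = cnt H q) →
    cl G Finset.univ 2 = cl H Finset.univ 2 ∧ cl G Finset.univ 3 = cl H Finset.univ 3 ∧
    ∀ N, NoShort H N → NoShort G N

/-- **CARD** (80 lines). The numbers of colourings determine the number of vertices. PROOF:
`q (q-1) ... (q - |V| + 1) ≤ cnt G q ≤ q^|V|`; take `q` large. -/
def S_CARD : Prop :=
  ∀ (V W : Type) [Fintype V] [Fintype W] (G : SimpleGraph V) (H : SimpleGraph W),
    (∀ q, cnt G q = cnt H q) → Fintype.card V = Fintype.card W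

end Pool.Agent.P8H79.RC
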