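import Pool.Agent.P8H79.RC.Stm2

set_option autoImplicit false

namespace Pool.Agent.P8H79.RC

open Finset

lemma dvd_all_zero (A : ℤ) (t : ℕ) (h : ∀ q : ℕ, 4 + t ≤ q → ((q : ℤ) - t) ∣ A) : A = 0 := by
  have h1 := h (A.natAbs + 5 + t) (by omega)
  have h2 : (((A.natAbs + 5 + t : ℕ) : ℤ) - t) = (A.natAbs : ℤ) + 5 := by push_cast; ring
  rw [h2] at h1
  refine Int.eq_zero_of_abs_lt_dvd h1 ?_
  rw [Int.abs_eq_natAbs]; omega

lemma vec_congr (s : ℤ) (b b' : ℕ → Bool) (N : ℕ) (h : ∀ k < N, b k = b' k) :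
    vec s b N = vec s b' N := by
  induction N with
  | zero => rfl
  | succ N ih =>
    simp only [vec]
    rw [ih (fun k hk => h k (by omega)), h N (by omega)]

/-- numbers of pivots counted from a starting place -/
lemma card_rot (n : ℕ) [NeZero n] (P : ZMod n → Prop) [DecidablePred P] (i0 : ZMod n) :
    ((Finset.range n).filter (fun k : ℕ => P (i0 + (k : ZMod n)))).card
      = (Finset.univ.filter P).card := by
  classical
  refine Finset.card_bij (fun (k : ℕ) _ => i0 + (k : ZMod n)) ?_ ?_ ?_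
  · intro k hk
    simpa using (Finset.mem_filter.mp hk).2
  · intro a ha b hb hab
    have h1 : ((a : ZMod n)) = (b : ZMod n) := by simpa using hab
    have ha' : a < n := Finset.mem_range.mp (Finset.mem_filter.mp ha).1
    have hb' : b < n := Finset.mem_range.mp (Finset.mem_filter.mp hb).1
    have := (ZMod.natCast_eq_natCast_iff' a b n).mp h1
    rwa [Nat.mod_eq_of_lt ha', Nat.mod_eq_of_lt hb'] at this
  · intro i hi
    refine ⟨(i - i0).val, ?_, ?_⟩
    · have h2 : (((i - i0).val : ℕ) : ZMod n) = i - i0 := ZMod.natCast_zmod_val _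
      refine Finset.mem_filter.mpr ⟨Finset.mem_range.mpr (ZMod.val_lt _), ?_⟩
      rw [h2]
      have h3 : i0 + (i - i0) = i := by ring
      rw [h3]
      simpa using hi
    · have h2 : (((i - i0).val : ℕ) : ZMod n) = i - i0 := ZMod.natCast_zmod_val _
      rw [h2]; ring

open Classical in
/-- number of pivots of a strip -/
noncomputable def piv {V : Type} (n : ℕ) [NeZero n] (x z : ZMod n → V) : ℕ :=
  (Finset.univ.filter (fun i : ZMod n => z (i + 1) = x i)).card

/-- the count of a strip -/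
lemma strip_cnt (hCCS : S_CCS) (hTRA : S_TRA) (hTRB : S_TRB) {V : Type} [Finite V]
    (G : SimpleGraph V) (n : ℕ) [NeZero n] (hn : 2 ≤ n) (x z : ZMod n → V)
    (h : IsStrip G n x z) (q : ℕ) (hq : 4 ≤ q) :
    ∃ M : ℤ, (cnt G q : ℤ) = (q : ℤ) * (q - 1) * (((q : ℤ) - 2) * M) ∧
      ((q : ℤ) - 2) ∣ M - (-1) ^ (n - 1) * (((piv n x z : ℤ) - 1) / 2) := by
  classical
  obtain ⟨⟨i0, hi0⟩, h2⟩ := hCCS V G n hn x z h
  have h3 := hTRA n q hn hq (fun i => decide (z (i + 1) = x i)) i0
  rw [← h2 q] at h3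
  obtain ⟨M, hM1, hM2⟩ := hTRB ((q : ℤ) - 2)
    (fun k => decide (z (i0 + (k : ZMod n) + 1) = x (i0 + (k : ZMod n)))) n hn (by simp [hi0])
  refine ⟨M, by rw [h3, hM1], ?_⟩
  have h4 : ((Finset.range n).filter
      (fun k : ℕ => decide (z (i0 + (k : ZMod n) + 1) = x (i0 + (k : ZMod n))) = true)).card
      = piv n x z := by
    unfold piv
    rw [← card_rot n (fun i => z (i + 1) = x i) i0]
    congr 1
    ext k
    simp
  rw [h4] at hM2
  exact hM2

/-- the count of the square of the cycle -/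
lemma sq_cnt (hCCS : S_CCS) (hTRA : S_TRA) (hSQD : S_SQD) (n : ℕ) (hn : 10 ≤ n)
    (q : ℕ) (hq : 4 ≤ q) :
    (cnt (Csq n) q : ℤ) = (q : ℤ) * (q - 1) * (vec ((q : ℤ) - 2) (fun _ => true) n).a := by
  classical
  have : NeZero n := ⟨by omega⟩
  obtain ⟨-, h2⟩ := hCCS (ZMod n) (Csq n) n (by omega) _ _ (hSQD.1 n hn)
  rw [h2 q, hTRA n q (by omega) hq _ 0]
  congr 2
  apply vec_congr
  intro k _
  simp

lemma piv_sq (n : ℕ) [NeZero n] : piv n (fun i : ZMod n => i) (fun i => i - 1) = n := by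
  unfold piv
  have h : (Finset.univ.filter (fun i : ZMod n => (fun i : ZMod n => i - 1) (i + 1) =
      (fun i : ZMod n => i) i)) = Finset.univ := by
    ext i; simp
  calc _ = (Finset.univ.filter (fun i : ZMod n => (fun i : ZMod n => i - 1) (i + 1) =
      (fun i : ZMod n => i) i)).card := by congr!
    _ = n := by rw [h, Finset.card_univ, ZMod.card]

end Pool.Agent.P8H79.RC
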