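import Pool.Agent.P8H79.RC.Asm1

set_option autoImplicit false

namespace Pool.Agent.P8H79.RC

open Finset

/-- a triangle from the count of triangles -/
lemma tri_of_cl {V : Type} [Fintype V] (G : SimpleGraph V) (h : 0 < cl G Finset.univ 3) :
    ∃ a b c, G.Adj a b ∧ G.Adj b c ∧ G.Adj a c := by
  classical
  unfold cl at h
  obtain ⟨S, hS⟩ := Finset.card_pos.mp h
  rw [Finset.mem_filter, Finset.mem_powersetCard] at hS
  obtain ⟨a, b, c, hab, hac, hbc, rfl⟩ := Finset.card_eq_three.mp hS.1.2
  have hcl := hS.2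
  refine ⟨a, b, c, ?_, ?_, ?_⟩
  · exact hcl (by simp) (by simp) hab
  · exact hcl (by simp) (by simp) hbc
  · exact hcl (by simp) (by simp) hac

lemma card_tri {V : Type} [Fintype V] (G : SimpleGraph V) :
    Nat.card (Tri G) = cl G Finset.univ 3 := by
  classical
  unfold cl Tri
  rw [Nat.card_eq_fintype_card, Fintype.card_subtype]
  congr 1
  ext S
  simp [SimpleGraph.isNClique_iff, Finset.mem_powersetCard, and_comm]

/-- links are acyclic -/
lemma link_acyclic (hHOLE : S_HOLE) (hCNTW : S_CNTW) {V : Type} [Fintype V]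
    (G : SimpleGraph V) (hV : 64 ≤ Fintype.card V) (hK : G.CliqueFree 4)
    (hns : NoShort G (Fintype.card V)) (hm : cl G Finset.univ 2 = 2 * Fintype.card V)
    (l : ℕ) (hl : 4 ≤ l) (e : SimpleGraph.cycleGraph l ↪g G) (he : Isom G l e) (v : V) :
    (link G v).IsAcyclic := by
  classical
  by_contra hc
  obtain ⟨r, hr, ⟨c⟩⟩ := hHOLE _ (link G v) hc
  have hadj : ∀ i, G.Adj v (c i).1 := fun i => (c i).2
  have hcadj : ∀ i j, (SimpleGraph.cycleGraph r).Adj i j ↔ G.Adj (c i).1 (c j).1 := by
    intro i j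
    exact (c.map_adj_iff (v := i) (w := j)).symm
  have hinj : ∀ i j, (c i).1 = (c j).1 → i = j := fun i j h => c.injective (Subtype.ext h)
  rcases Nat.lt_or_ge r 4 with h4 | h4
  · have h3 : r = 3 := by omega
    subst h3
    have ht : SimpleGraph.cycleGraph 3 = ⊤ := SimpleGraph.cycleGraph_three_eq_top
    have hA : ∀ i j, i ≠ j → G.Adj (c i).1 (c j).1 := by
      intro i j hij
      rw [← hcadj, ht]; exact hij
    refine hK {v, (c 0).1, (c 1).1, (c 2).1} ?_
    have h3c : G.IsNClique 3 {(c 0).1, (c 1).1, (c 2).1} := by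
      rw [SimpleGraph.is3Clique_triple_iff]
      exact ⟨hA 0 1 (by decide), hA 0 2 (by decide), hA 1 2 (by decide)⟩
    refine h3c.insert ?_
    intro b hb
    simp only [Finset.mem_insert, Finset.mem_singleton] at hb
    rcases hb with rfl | rfl | rfl
    · exact hadj 0
    · exact hadj 1
    · exact hadj 2
  · let c' : SimpleGraph.cycleGraph r ↪g G :=
      { toFun := fun i => (c i).1
        inj' := fun i j h => hinj i j h
        map_rel_iff' := by
          intro i j
          exact (hcadj i j).symm }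
    have := hCNTW V G hV hK hns l r hl h4 e he c' v hadj
    omega

end Pool.Agent.P8H79.RC
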