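import Pool.Agent.P8H79.RC.Asm2

set_option autoImplicit false

namespace Pool.Agent.P8H79.RC

open Finset

/-- The square of the cycle is not divisible by `q ^ 2` for all `q`. -/
lemma conn_of (hCONG : S_CONG) (hVCG : S_VCG) (hNZA : S_NZA) {V : Type} [Finite V] [Nonempty V]
    (G : SimpleGraph V) (n : ℕ) (hn : 10 ≤ n)
    (hc : ∀ q : ℕ, 4 ≤ q →
      (cnt G q : ℤ) = (q : ℤ) * (q - 1) * (vec ((q : ℤ) - 2) (fun _ => true) n).a) :
    G.Connected := by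
  by_contra h
  refine hNZA n hn (dvd_all_zero _ 0 ?_)
  intro q hq
  have hq' : 4 ≤ q := by omega
  have h1 : ((q : ℤ) ^ 2) ∣ (cnt G q : ℤ) := by exact_mod_cast hCONG V G h q (by omega)
  rw [hc q hq'] at h1
  have hq0 : (q : ℤ) ≠ 0 := by
    have : 0 < q := by omega
    exact_mod_cast this.ne'
  have h2 : (q : ℤ) ∣ ((q : ℤ) - 1) * (vec ((q : ℤ) - 2) (fun _ => true) n).a := by
    have h3 : (q : ℤ) * q ∣ (q : ℤ) *
        (((q : ℤ) - 1) * (vec ((q : ℤ) - 2) (fun _ => true) n).a) := by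
      have e1 : (q : ℤ) * q = (q : ℤ) ^ 2 := by ring
      rw [e1, ← mul_assoc]; exact h1
    exact (mul_dvd_mul_iff_left hq0).mp h3
  have hcop : IsCoprime (q : ℤ) ((q : ℤ) - 1) := ⟨1, -1, by ring⟩
  have h4 := hcop.dvd_of_dvd_mul_left h2
  have h5 := hVCG ((q : ℤ) - 2) (-2) (fun _ => true) n
  have h6 : ((q : ℤ) - 2 - (-2)) = q := by ring
  rw [h6] at h5
  have h7 := (dvd_sub_right h4).mp h5
  simpa using h7

/-- No vertex has exactly one neighbour. -/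
lemma deg_one_of (hDEGG : S_DEGG) (hVCG : S_VCG) (hNZB : S_NZB) {V : Type} [Finite V]
    (G : SimpleGraph V) (n : ℕ) (hn : 10 ≤ n)
    (hc : ∀ q : ℕ, 4 ≤ q →
      (cnt G q : ℤ) = (q : ℤ) * (q - 1) * (vec ((q : ℤ) - 2) (fun _ => true) n).a)
    (w a : V) (hw : ∀ v, G.Adj w v ↔ v = a) (he : ∃ x y, G.Adj x y ∧ w ≠ x ∧ w ≠ y) : False := by
  refine (hNZB n hn).1 (dvd_all_zero _ 1 ?_)
  intro q hq
  have hq' : 4 ≤ q := by omega
  have h1 : ((q : ℤ) * ((q : ℤ) - 1) ^ 2) ∣ (cnt G q : ℤ) := by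
    have h0 := hDEGG V G w a hw he q (by omega)
    have h00 : ((q * (q - 1) ^ 2 : ℕ) : ℤ) ∣ (cnt G q : ℤ) := by exact_mod_cast h0
    have e : ((q * (q - 1) ^ 2 : ℕ) : ℤ) = (q : ℤ) * ((q : ℤ) - 1) ^ 2 := by
      push_cast [Nat.cast_sub (show 1 ≤ q by omega)]; ring
    rwa [e] at h00
  rw [hc q hq'] at h1
  have hq0 : (q : ℤ) * ((q : ℤ) - 1) ≠ 0 := by
    have h8 : (4 : ℤ) ≤ q := by exact_mod_cast hq'
    have : (q : ℤ) - 1 ≠ 0 := by omega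
    have : (q : ℤ) ≠ 0 := by omega
    positivity
  have h2 : ((q : ℤ) - 1) ∣ (vec ((q : ℤ) - 2) (fun _ => true) n).a := by
    have h3 : ((q : ℤ) * ((q : ℤ) - 1)) * ((q : ℤ) - 1) ∣ ((q : ℤ) * ((q : ℤ) - 1)) *
        (vec ((q : ℤ) - 2) (fun _ => true) n).a := by
      have e1 : ((q : ℤ) * ((q : ℤ) - 1)) * ((q : ℤ) - 1) = (q : ℤ) * ((q : ℤ) - 1) ^ 2 := by ring
      rw [e1]; exact h1
    exact (mul_dvd_mul_iff_left hq0).mp h3
  have h5 := hVCG ((q : ℤ) - 2) (-1) (fun _ => true) n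
  have h6 : ((q : ℤ) - 2 - (-1)) = q - 1 := by ring
  rw [h6] at h5
  have h7 := (dvd_sub_right h2).mp h5
  simpa using h7

/-- The strip formula for two graphs gives the comparison of the numbers of pivots. -/
lemma cmp_floor (n : ℕ) (A B : ℤ) {V W : Type} (G : SimpleGraph V) (H : SimpleGraph W)
    (hGH : ∀ q, cnt G q = cnt H q)
    (hG : ∀ q : ℕ, 4 ≤ q → ∃ M : ℤ, (cnt G q : ℤ) = (q : ℤ) * (q - 1) * (((q : ℤ) - 2) * M) ∧
      ((q : ℤ) - 2) ∣ M - (-1) ^ (n - 1) * A)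
    (hH : ∀ q : ℕ, 4 ≤ q → ∃ M : ℤ, (cnt H q : ℤ) = (q : ℤ) * (q - 1) * (((q : ℤ) - 2) * M) ∧
      ((q : ℤ) - 2) ∣ M - (-1) ^ (n - 1) * B) : A = B := by
  have key : A - B = 0 := by
    refine dvd_all_zero _ 2 ?_
    intro q hq
    obtain ⟨M, h1, h2⟩ := hG q (by omega)
    obtain ⟨M', h1', h2'⟩ := hH q (by omega)
    have h8 : (6 : ℤ) ≤ q := by exact_mod_cast hq
    have h3 : M = M' := by
      rw [hGH q, h1'] at h1
      have hq1 : (q : ℤ) * ((q : ℤ) - 1) ≠ 0 := by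
        have : (q : ℤ) - 1 ≠ 0 := by omega
        have : (q : ℤ) ≠ 0 := by omega
        positivity
      have hq2 : (q : ℤ) - 2 ≠ 0 := by omega
      exact (mul_left_cancel₀ hq2 (mul_left_cancel₀ hq1 h1)).symm
    subst h3
    have h4 := dvd_sub h2' h2
    have h5 : (M - (-1) ^ (n - 1) * B) - (M - (-1) ^ (n - 1) * A)
        = (-1) ^ (n - 1) * (A - B) := by ring
    rw [h5] at h4
    have hu : IsUnit ((-1 : ℤ) ^ (n - 1)) := IsUnit.pow _ (by norm_num)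
    exact_mod_cast (hu.dvd_mul_left).mp h4
  omega

end Pool.Agent.P8H79.RC
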