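import Pool.Agent.P8H79.RC.Asm3

set_option autoImplicit false

namespace Pool.Agent.P8H79.RC

open Finset

/-- The structure theorem: a connected graph without `K_4`, with `2 n` edges, `n` triangles, no
short holes, no vertices of degree one or two is a strip. -/
lemma strip_of (hCOC : S_COC) (hSHORT : S_SHORT) (hHOLE : S_HOLE) (hCNTW : S_CNTW)
    (hLINK : S_LINK) (hAVOID : S_AVOID) (hCNT2 : S_CNT2) (hSTA : S_STA) (hSTB : S_STB)
    (hREG : S_REG) (hSTC : S_STC) {V : Type} [Fintype V] (G : SimpleGraph V) (n : ℕ)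
    (hn : 64 ≤ n) (hV : Fintype.card V = n) (hK : G.CliqueFree 4)
    (hm : cl G Finset.univ 2 = 2 * n) (ht : cl G Finset.univ 3 = n) (hns : NoShort G n)
    (hconn : G.Connected)
    (hd1 : ∀ w a : V, (∀ v, G.Adj w v ↔ v = a) → (∃ x y, G.Adj x y ∧ w ≠ x ∧ w ≠ y) → False)
    (hd2 : ∀ w a b : V, G.Adj a b → (∀ v, G.Adj w v ↔ v = a ∨ v = b) →
      (∃ x y z, G.Adj x y ∧ G.Adj y z ∧ G.Adj x z ∧ w ≠ x ∧ w ≠ y ∧ w ≠ z) → False) :
    ∃ x z : ZMod n → V, IsStrip G n x z := by
  classical
  subst hV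
  have hne : Nonempty V := Fintype.card_pos_iff.mp (by omega)
  have hnt : Nontrivial V := Fintype.one_lt_card_iff_nontrivial.mp (by omega)
  obtain ⟨φ, hφ1, hφ2, hφ3⟩ := hCOC V G (by omega)
  obtain ⟨l, hl, e, he⟩ := hSHORT V G φ hconn hφ1 hφ2 hφ3
  have hac : ∀ v, (link G v).IsAcyclic :=
    fun v => link_acyclic hHOLE hCNTW G hn hK hns hm l hl e he v
  have hnb : ∀ v, (G.neighborSet v).Nonempty := by
    intro v
    have := hconn.preconnected.degree_pos_of_nontrivial v
    rw [SimpleGraph.degree_pos_iff_exists_adj] at this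
    obtain ⟨w, hw⟩ := this
    exact ⟨w, hw⟩
  have htree := hLINK V G hac hnb hm ht
  have hav := hAVOID V G htree ht
  have hdeg : ∀ v, 3 ≤ (G.neighborSet v).ncard := by
    intro w
    by_contra hlt
    have hpos : 0 < (G.neighborSet w).ncard :=
      (Set.ncard_pos (Set.toFinite _)).mpr (hnb w)
    obtain ⟨a', b', c', h1, h2, h3, h4, h5, h6⟩ := hav w
    rcases Nat.lt_or_ge (G.neighborSet w).ncard 2 with h | h
    · have h1' : (G.neighborSet w).ncard = 1 := by omega
      obtain ⟨a, ha⟩ := Set.ncard_eq_one.mp h1'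
      refine hd1 w a ?_ ⟨a', b', h1, h4, h5⟩
      intro v
      rw [← SimpleGraph.mem_neighborSet, ha]; simp
    · have h2' : (G.neighborSet w).ncard = 2 := by omega
      obtain ⟨a, b, hab, hs⟩ := Set.ncard_eq_two.mp h2'
      have hmem : ∀ v, G.Adj w v ↔ v = a ∨ v = b := by
        intro v
        rw [← SimpleGraph.mem_neighborSet, hs]; simp
      refine hd2 w a b ?_ hmem ⟨a', b', c', h1, h2, h3, h4, h5, h6⟩
      have hwa : G.Adj w a := (hmem a).mpr (Or.inl rfl)
      have hwb : G.Adj w b := (hmem b).mpr (Or.inr rfl)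
      have hnt' : Nontrivial (G.neighborSet w) := ⟨⟨a, hwa⟩, ⟨b, hwb⟩, by
        intro h; exact hab (congrArg Subtype.val h)⟩
      have hcon := (htree w).1
      have hfin : Finite (G.neighborSet w) := Set.toFinite _
      have : Fintype (G.neighborSet w) := Fintype.ofFinite _
      have hdp := hcon.preconnected.degree_pos_of_nontrivial (⟨a, hwa⟩ : G.neighborSet w)
      rw [SimpleGraph.degree_pos_iff_exists_adj] at hdp
      obtain ⟨⟨u, hu⟩, hadj⟩ := hdp
      have hadj' : G.Adj a u := hadj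
      rcases (hmem u).mp hu with rfl | rfl
      · exact absurd hadj' (G.irrefl)
      · exact hadj'
  obtain ⟨hc1, hc2⟩ := hCNT2 V G htree hdeg hm ht
  have hreg := hSTA V G hc1 hc2
  have hcc : ∀ a b, G.Adj a b → 1 ≤ cc G a b := by
    intro a b hab
    rcases hc1 a b hab with h | h <;> omega
  have htc := hSTB V G hconn (fun v => (htree v).1) hcc
  have hft : Finite (Tri G) := by unfold Tri; infer_instance
  obtain ⟨T, hT1, hT2⟩ := hREG (Tri G) (triGraph G) (Fintype.card V)
    (by rw [card_tri, ht]) htc hreg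
  exact hSTC V G (Fintype.card V) (by omega) rfl hc1 (fun v => hnb v) hav T hT1 hT2

end Pool.Agent.P8H79.RC
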