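import Pool.Agent.P8H79.RC.Asm4

set_option autoImplicit false

namespace Pool.Agent.P8H79.RC

open Finset

/-- the last step of the comparison: exactly one non-pivot is impossible -/
lemma one_flip (hCCS : S_CCS) (hTRA : S_TRA) (hVCG : S_VCG) (hNZB : S_NZB) {V : Type} [Finite V]
    (G : SimpleGraph V) (n : ℕ) (hn : 10 ≤ n) (x z : ZMod n → V) (h : IsStrip G n x z)
    (hc : ∀ q : ℕ, 4 ≤ q →
      (cnt G q : ℤ) = (q : ℤ) * (q - 1) * (vec ((q : ℤ) - 2) (fun _ => true) n).a)
    (i0 : ZMod n) (hi0 : z (i0 + 1) ≠ x i0) (hi : ∀ i, i ≠ i0 → z (i + 1) = x i) : False := by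
  classical
  have : NeZero n := ⟨by omega⟩
  obtain ⟨-, h2⟩ := hCCS V G n (by omega) x z h
  let b : ℕ → Bool := fun k => decide (k ≠ n - 1)
  have hb : ∀ s : ℤ, vec s (fun k : ℕ => decide (z (i0 + 1 + (k : ZMod n) + 1)
      = x (i0 + 1 + (k : ZMod n)))) n = vec s b n := by
    intro s
    apply vec_congr
    intro k hk
    simp only [b, decide_eq_decide]
    constructor
    · intro h1 h2
      apply hi0
      have h3 : i0 + 1 + (k : ZMod n) = i0 := by
        have : ((k : ZMod n)) + 1 = 0 := by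
          have : ((k + 1 : ℕ) : ZMod n) = 0 := by
            rw [h2, show n - 1 + 1 = n by omega, ZMod.natCast_self]
          exact_mod_cast this
        calc i0 + 1 + (k : ZMod n) = i0 + ((k : ZMod n) + 1) := by ring
          _ = i0 := by rw [this, add_zero]
      rw [h3] at h1; exact h1
    · intro h1
      apply hi
      intro h3
      apply h1
      have h4 : ((k + 1 : ℕ) : ZMod n) = 0 := by
        have h5 : (1 : ZMod n) + (k : ZMod n) = 0 := by
          have : i0 + (1 + (k : ZMod n)) = i0 + 0 := by rw [add_zero, ← add_assoc]; exact h3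
          exact add_left_cancel this
        push_cast
        rw [add_comm]; exact h5
      rw [ZMod.natCast_eq_zero_iff] at h4
      have := Nat.le_of_dvd (by omega) h4
      omega
  have h3 : ∀ q : ℕ, 4 ≤ q → (vec ((q : ℤ) - 2) b n).a = (vec ((q : ℤ) - 2) (fun _ => true) n).a := by
    intro q hq
    have h4 := hTRA n q (by omega) hq (fun i => decide (z (i + 1) = x i)) (i0 + 1)
    rw [← h2 q, hc q hq, hb] at h4
    have h8 : (4 : ℤ) ≤ q := by exact_mod_cast hq
    have hq1 : (q : ℤ) * ((q : ℤ) - 1) ≠ 0 := by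
      have : (q : ℤ) - 1 ≠ 0 := by omega
      have : (q : ℤ) ≠ 0 := by omega
      positivity
    exact (mul_left_cancel₀ hq1 h4).symm
  have h5 : (vec (-1) b n).a - (vec (-1) (fun _ => true) n).a = 0 := by
    refine dvd_all_zero _ 1 ?_
    intro q hq
    have h6 := hVCG ((q : ℤ) - 2) (-1) b n
    have h7 := hVCG ((q : ℤ) - 2) (-1) (fun _ => true) n
    have e1 : ((q : ℤ) - 2 - (-1)) = q - ((1 : ℕ) : ℤ) := by push_cast; ring
    rw [e1] at h6 h7
    rw [h3 q (by omega)] at h6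
    have h8 := dvd_sub h7 h6
    have e2 : ((vec ((q : ℤ) - 2) (fun _ => true) n).a - (vec (-1) (fun _ => true) n).a) -
      ((vec ((q : ℤ) - 2) (fun _ => true) n).a - (vec (-1) b n).a) =
      (vec (-1) b n).a - (vec (-1) (fun _ => true) n).a := by ring
    rwa [e2] at h8
  obtain ⟨m, rfl⟩ : ∃ m, n = m + 1 := ⟨n - 1, by omega⟩
  have h9 : vec (-1) b m = vec (-1) (fun _ => true) m := by
    apply vec_congr
    intro k hk
    simp only [b, decide_eq_true_eq]; omega
  have h10 := (hNZB (m + 1) hn).2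
  apply h10
  simp only [vec, stepV] at h5
  rw [h9] at h5
  have hbm : b m = false := by simp [b]
  rw [hbm] at h5
  simp at h5
  simp only [Nat.add_sub_cancel]
  omega

/-- **Graphs without `K_4`.** -/
theorem k4free (hCOC : S_COC) (hSHORT : S_SHORT) (hHOLE : S_HOLE) (hCNTW : S_CNTW)
    (hLINK : S_LINK) (hAVOID : S_AVOID) (hCNT2 : S_CNT2) (hSTA : S_STA) (hSTB : S_STB)
    (hREG : S_REG) (hSTC : S_STC) (hDEG2 : S_DEG2) (hCCS : S_CCS) (hTRA : S_TRA) (hTRB : S_TRB)
    (hSQA : S_SQA) (hSQB : S_SQB) (hSQD : S_SQD) (hCMP : S_CMP) (hCARD : S_CARD)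
    (hVCG : S_VCG) (hNZA : S_NZA) (hNZB : S_NZB) (hCONG : S_CONG) (hDEGG : S_DEGG)
    (n : ℕ) (hn : 64 ≤ n) (V : Type) [Finite V] (G : SimpleGraph V) (hK : G.CliqueFree 4)
    (hGH : ∀ q, cnt G q = cnt (Csq n) q) : Nonempty (G ≃g Csq n) := by
  classical
  have : NeZero n := ⟨by omega⟩
  have : Fintype V := Fintype.ofFinite V
  have hV : Fintype.card V = n := by
    rw [hCARD V (ZMod n) G (Csq n) hGH, ZMod.card]
  have hne : Nonempty V := Fintype.card_pos_iff.mp (by omega)
  obtain ⟨hs1, hs2, hs3⟩ := hSQA n (by omega)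
  obtain ⟨hm, ht, hns⟩ := hCMP V (ZMod n) G (Csq n) hK hs1 (by rw [hV, ZMod.card]) hGH
  rw [hs2] at hm
  rw [hs3] at ht
  have hns' : NoShort G n := hns n (hSQB n (by omega))
  have hc : ∀ q : ℕ, 4 ≤ q →
      (cnt G q : ℤ) = (q : ℤ) * (q - 1) * (vec ((q : ℤ) - 2) (fun _ => true) n).a := by
    intro q hq
    rw [hGH q]
    exact sq_cnt hCCS hTRA hSQD n (by omega) q hq
  have hsq : ∀ q : ℕ, 4 ≤ q → ∃ M : ℤ,
      (cnt (Csq n) q : ℤ) = (q : ℤ) * (q - 1) * (((q : ℤ) - 2) * M) ∧
      ((q : ℤ) - 2) ∣ M - (-1) ^ (n - 1) * (((n : ℤ) - 1) / 2) := by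
    intro q hq
    obtain ⟨M, h1, h2⟩ := strip_cnt hCCS hTRA hTRB (Csq n) n (by omega) _ _
      (hSQD.1 n (by omega)) q hq
    rw [piv_sq] at h2
    exact ⟨M, h1, h2⟩
  have hconn : G.Connected := conn_of hCONG hVCG hNZA G n (by omega) hc
  have hd1 : ∀ w a : V, (∀ v, G.Adj w v ↔ v = a) → (∃ x y, G.Adj x y ∧ w ≠ x ∧ w ≠ y) → False :=
    fun w a h1 h2 => deg_one_of hDEGG hVCG hNZB G n (by omega) hc w a h1 h2
  have hd2 : ∀ w a b : V, G.Adj a b → (∀ v, G.Adj w v ↔ v = a ∨ v = b) →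
      (∃ x y z, G.Adj x y ∧ G.Adj y z ∧ G.Adj x z ∧ w ≠ x ∧ w ≠ y ∧ w ≠ z) → False := by
    intro w a b hab hw htri
    have hzero : ((n : ℤ) - 1) / 2 = 0 := by
      refine dvd_all_zero _ 2 ?_
      intro q hq
      obtain ⟨M, h1, h2⟩ := hsq q (by omega)
      rw [← hGH q] at h1
      have h0 := hDEG2 V G w a b hab hw htri q (by omega)
      have h00 : ((q * (q - 1) * (q - 2) ^ 2 : ℕ) : ℤ) ∣ (cnt G q : ℤ) := by exact_mod_cast h0
      have e : ((q * (q - 1) * (q - 2) ^ 2 : ℕ) : ℤ)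
          = ((q : ℤ) * ((q : ℤ) - 1) * ((q : ℤ) - 2)) * ((q : ℤ) - 2) := by
        push_cast [Nat.cast_sub (show 1 ≤ q by omega), Nat.cast_sub (show 2 ≤ q by omega)]; ring
      rw [e, h1] at h00
      have h8 : (6 : ℤ) ≤ q := by exact_mod_cast hq
      have hq1 : ((q : ℤ) * ((q : ℤ) - 1) * ((q : ℤ) - 2)) ≠ 0 := by
        have h81 : (q : ℤ) - 1 ≠ 0 := by omega
        have h82 : (q : ℤ) - 2 ≠ 0 := by omega
        have h83 : (q : ℤ) ≠ 0 := by omega
        exact mul_ne_zero (mul_ne_zero h83 h81) h82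
      have h3 : ((q : ℤ) - 2) ∣ M := by
        have e3 : (q : ℤ) * ((q : ℤ) - 1) * (((q : ℤ) - 2) * M)
          = ((q : ℤ) * ((q : ℤ) - 1) * ((q : ℤ) - 2)) * M := by ring
        rw [e3] at h00
        exact (mul_dvd_mul_iff_left hq1).mp h00
      have h4 := (dvd_sub_right h3).mp h2
      have hu : IsUnit ((-1 : ℤ) ^ (n - 1)) := IsUnit.pow _ (by norm_num)
      exact (hu.dvd_mul_left).mp h4
    omega
  obtain ⟨x, z, hxz⟩ := strip_of hCOC hSHORT hHOLE hCNTW hLINK hAVOID hCNT2 hSTA hSTB hREG hSTC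
    G n hn hV hK hm ht hns' hconn hd1 hd2
  have hcmp := cmp_floor n (((piv n x z : ℤ) - 1) / 2) (((n : ℤ) - 1) / 2) G (Csq n) hGH
    (fun q hq => strip_cnt hCCS hTRA hTRB G n (by omega) x z hxz q hq) hsq
  have hple : piv n x z ≤ n := by
    unfold piv
    calc _ ≤ (Finset.univ : Finset (ZMod n)).card := Finset.card_filter_le _ _
      _ = n := by rw [Finset.card_univ, ZMod.card]
  have hcount : ((Finset.univ.filter (fun i : ZMod n => ¬ z (i + 1) = x i)).card) + piv n x z = n := by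
    unfold piv
    have := Finset.card_filter_add_card_filter_not (s := (Finset.univ : Finset (ZMod n)))
      (fun i : ZMod n => z (i + 1) = x i)
    rw [Finset.card_univ, ZMod.card] at this
    have e : (Finset.univ.filter (fun i : ZMod n => z (i + 1) = x i)).card = 
      (@Finset.filter (ZMod n) (fun i : ZMod n => z (i + 1) = x i)
        (fun a => Classical.propDecidable _) Finset.univ).card := by congr!
    omega
  have hle1 : (Finset.univ.filter (fun i : ZMod n => ¬ z (i + 1) = x i)).card ≤ 1 := by omega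
  rcases Nat.lt_or_ge (Finset.univ.filter (fun i : ZMod n => ¬ z (i + 1) = x i)).card 1 with h | h
  · have h0 : Finset.univ.filter (fun i : ZMod n => ¬ z (i + 1) = x i) = ∅ := by
      rw [← Finset.card_eq_zero]; omega
    refine hSQD.2 V G n (by omega) x z hxz ?_
    intro i
    by_contra hi
    have : i ∈ Finset.univ.filter (fun i : ZMod n => ¬ z (i + 1) = x i) := by simp [hi]
    rw [h0] at this
    simp at this
  · have h1 : (Finset.univ.filter (fun i : ZMod n => ¬ z (i + 1) = x i)).card = 1 := by omega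
    obtain ⟨i0, hi0⟩ := Finset.card_eq_one.mp h1
    exfalso
    refine one_flip hCCS hTRA hVCG hNZB G n (by omega) x z hxz hc i0 ?_ ?_
    · have : i0 ∈ Finset.univ.filter (fun i : ZMod n => ¬ z (i + 1) = x i) := by rw [hi0]; simp
      simpa using this
    · intro i hi
      by_contra hne'
      have : i ∈ Finset.univ.filter (fun i : ZMod n => ¬ z (i + 1) = x i) := by simp [hne']
      rw [hi0] at this
      exact hi (by simpa using this)

end Pool.Agent.P8H79.RC
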