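import Pool.Agent.P8H79.RC.Stm4

/-!
# Project RC (problem MP_8cb124_co), second part, sharper versions (all `n >= 12`).

Same proofs as QF, ALPHA, BETA, FINW of `Stm4.lean`, with `l >= 6`, `N >= 12`, and the extra
information that for `N = 2 L` there are at most two induced cycles of length `L` (as in
the square of the cycle). Target: chromatic uniqueness for ALL `n` divisible by 3, and among graphs
without `K_4` for ALL `n >= 12`.
-/

set_option autoImplicit false

namespace Pool.Agent.P8H79.RC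

open Finset

/-- As `QGood`, but `cov4` only for `v` at distance at most 1 from the cycle. -/
structure QGood6 {V : Type} (G : SimpleGraph V) (l : ℕ) (q : ZMod l → V) : Prop where
  inj : Function.Injective q
  adj : ∀ i j, G.Adj (q i) (q j) ↔ j = i + 1 ∨ i = j + 1
  cov1 : ∀ w, w ∉ Set.range q → {i | G.Adj w (q i) ∧ G.Adj w (q (i + 1))}.ncard ≤ 2
  cov4 : ∀ v, (∃ i, q i = v ∨ G.Adj v (q i)) →
    {i | ∃ a, a ∉ Set.range q ∧ (a = v ∨ G.Adj v a) ∧
      G.Adj a (q i) ∧ G.Adj a (q (i + 1))}.ncard ≤ 4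
  ball1 : ∀ v, {i | q i = v ∨ G.Adj v (q i)}.ncard ≤ 3
  ball2 : ∀ u v, G.Adj u v →
    {i | (q i = v ∨ G.Adj v (q i)) ∨ (q i = u ∨ G.Adj u (q i))}.ncard ≤ 4

/-- **QF6** (replaces QF; same proof). Only `cov4` for `l = 6` needs care: `2 l >= 12`. The set `S` of
positions at distance at most 2 from `(v, 0)` is pairwise at distance at most 4 and contains a
position `p_0` at distance at most 1 from `(v, 0)`, so the others are at distance at most 3 from `p_0`, i.e.
in `[p_0 - 3, p_0 + 3]`, and two offsets differ by at most `6 ≤ 2 l - 6`, so by at most 4: `S` is in an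
interval of 5 consecutive positions. -/
def S_QF6 : Prop :=
  ∀ (V : Type) [Fintype V] (G : SimpleGraph V) (φ : V → V → ZMod 2), G.Connected →
    (∀ a b, φ a b = φ b a) →
    (∀ a b c, G.Adj a b → G.Adj b c → G.Adj a c → φ a b + φ b c + φ a c = 0) →
    (¬ ∃ f : V → ZMod 2, ∀ a b, G.Adj a b → φ a b = f a + f b) →
    ∃ l : ℕ, 4 ≤ l ∧ Nonempty (SimpleGraph.cycleGraph l ↪g G) ∧
      (6 ≤ l → ∃ q : ZMod l → V, QGood6 G l q)

/-- **ALPHA6** (replaces ALPHA). `N = |V| >= 12`, `L = ⌈N/2⌉ >= 6 `, `r, r', l >= L`. With the notation of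
ALPHA: `|N[v] ∩ Q| ≤ 3` gives `deg v ≤ N - l + 2`. Non-adjacent `u, v`: `r + r' ≤ N`, so `r = r' = L = N/2`
and `V = N[u] ∪ N[v]`, `l ≤ 6`: so `N = 12`, `l = 6`, and `Z, Z', Q` are three different induced 6-cycles
(`Z = Z'` would give 6 common neighbours; `Q = Z` contradicts `ball1`), but there are at most 2.
Adjacent: `|Z' ∩ N[v]| ≤ 3` (if `v ∉ Z'`: NB2 when `r' + 4 < N`; otherwise `l = 6`, `N = 12`, `r' = 8` and the
neighbours of `v` on `Z'` are pairwise at distance at least 3 on `Z'` (no `K_4`, no induced `C_4`), at most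
2), so `l ≤ 4 + N - r - r' + 2 ≤ 6`, hence `l = 6 = L`, `N = 12`, `r = r' = 6`, three induced 6-cycles again
(`Z = Z'` would give a `K_4`). -/
def S_ALPHA6 : Prop :=
  ∀ (V : Type) [Fintype V] (G : SimpleGraph V), 12 ≤ Fintype.card V → G.CliqueFree 4 →
    NoShort G (Fintype.card V) → (∀ L, Fintype.card V = 2 * L → holes G L ≤ 2) →
    ∀ l : ℕ, 6 ≤ l → Fintype.card V ≤ 2 * l →
    ∀ q : ZMod l → V, QGood6 G l q → ∀ u v : V, u ≠ v → ¬ (link G v).IsAcyclic →
    (link G u).IsAcyclic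

/-- **BETA6** (replaces BETA). `p = deg v - r ≤ N - l + 2 - r ≤ 2`. If `r + 4 < N`: as in BETA; the bad case
(`p = 2`, `o ~ o'` both attached, shorter arc `a ≤ r/2`, `2 (a + 3) >= N`, `r ≤ N - l`) forces `l = 6`,
`N = 12`, `r = 6`, `a = 3`, and then `Z` and the two induced 6-cycles `o, c_i, ..., c_j, o'` (both
arcs) are three: contradiction. If `r + 4 >= N` then, as `r ≤ N - l + 2`, `l = 6`, `N = 12`, `r = 8`, `p = 0` and
the link has `r = deg v` edges. -/
def S_BETA6 : Prop :=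
  ∀ (V : Type) [Fintype V] (G : SimpleGraph V), 12 ≤ Fintype.card V → G.CliqueFree 4 →
    NoShort G (Fintype.card V) → (∀ L, Fintype.card V = 2 * L → holes G L ≤ 2) →
    ∀ l : ℕ, 6 ≤ l → Fintype.card V ≤ 2 * l →
    ∀ q : ZMod l → V, QGood6 G l q → ∀ v : V, ¬ (link G v).IsAcyclic →
    (link G v).edgeSet.ncard ≤ (G.neighborSet v).ncard

/-- **FINW6** (replaces FINW; `theorem finw6 : S_ALPHA6 → S_BETA6 → S_FINW6`). As in FINW: at most one
`u ≠ v` has a disconnected link; `κ = |A ∩ Q| ≤ 3`, `δ = r + l - N >= 0`, `|O| = κ - 1 - δ` (so `κ >= 1` and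
`cov4` applies), `|T| ≤ 4 + 2 |O|`; `bad >= l - |T| + 1` if `0 < |T| < l`, and `bad = l` if `T = ∅`. One needs two
bad `i` with `q i ≠ v`.
(1) `δ >= 1` and `l >= 7` (in particular `N` odd, `N >= 13`): `|T| ≤ 2 + 2κ - 2δ ≤ 6`: at least `l - 5 >= 2` bad
`i`; if `q i = v` for a bad `i` then `κ ≤ 2` (see FINW) and `|T| ≤ 4`, at least 4 bad.
(2) `δ >= 1`, `l = 6`: `N = 12` (`N ≤ 2 l`), `r` even (3-colourable: the link of `v` is bipartite), so `r = 8`,
`δ = 2`, `κ = 3`, `|O| = 0`, `|T| ≤ 4`, at least 3 bad, and `v` is not bad.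
(3) `δ = 0`: `r = l = L = N/2`, so `Z` and `Q` (different by `ball1`) are all induced `L`-cycles. Hence no
`w ∉ Q` has three consecutive neighbours `q (i-1), q i, q (i+1)` (replacing `q i` by `w` would give a third
induced `L`-cycle, which has at most 3 vertices in common with `N(v)`... it differs from `Q`, and from
`Z`, since `|Z ∩ Q| ≤ 3 < L - 1`); also no `w ∉ Q` is adjacent to `q (i-1)` and `q (i+1)` but not to
`q i` (induced `C_4`). As the neighbours of `w` on `Q` are within three consecutive ones, every `w ∉ Q`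
covers at most one edge of `Q`. If `v = q i_0 ∈ Q`, every `a ∈ A \ Q` is adjacent to `q i_0`, so it can cover
only `(i_0 - 1, i_0)` or `(i_0, i_0 + 1)`: `|T| ≤ 2 + |O| ≤ 4`. If `v ∉ Q`, `κ ≤ 2` (three elements of `N(v) ∩ Q`
are consecutive) and `|T| ≤ 4 + |O| ≤ 5 < L`. In both cases `l - |T| + 1 >= 2`, and `>= 3` if `v ∈ Q`. -/
def S_FINW6 : Prop :=
  ∀ (V : Type) [Fintype V] (G : SimpleGraph V), 12 ≤ Fintype.card V → G.CliqueFree 4 →
    NoShort G (Fintype.card V) → (∀ L, Fintype.card V = 2 * L → holes G L ≤ 2) →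
    (Fintype.card V = 12 → G.Colorable 3) →
    (∀ v, (G.neighborSet v).Nonempty) →
    cl G Finset.univ 2 = 2 * Fintype.card V → cl G Finset.univ 3 = Fintype.card V →
    ∀ l : ℕ, 6 ≤ l → Fintype.card V ≤ 2 * l →
    ∀ q : ZMod l → V, QGood6 G l q → ∀ v : V, (link G v).IsAcyclic

/-- **CMPH** (60 lines; `theorem cmph : S_POL → S_HX → S_CMPH`, inside the proof of CMP). -/
def S_CMPH : Prop :=
  ∀ (V W : Type) [Fintype V] [Fintype W] (G : SimpleGraph V) (H : SimpleGraph W),
    G.CliqueFree 4 → H.CliqueFree 4 → Fintype.card V = Fintype.card W →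
    (∀ q, cnt G q = cnt H q) → ∀ l, 4 ≤ l →
    (∀ j, 4 ≤ j → j < l → IsEmpty (SimpleGraph.cycleGraph j ↪g G)) →
    (∀ j, 4 ≤ j → j < l → IsEmpty (SimpleGraph.cycleGraph j ↪g H)) → holes G l = holes H l

/-- **SQH** (150 lines). The square of the cycle of length `2 L` has at most two induced cycles of length
`L`: the even and the odd vertices. PROOF. Steps are `±1, ±2`; if the total (a multiple of `2 L` of
absolute value at most `2 L`) is 0 one concludes as in SQB; otherwise it is `±2 L` and all steps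
are `2` (or all are `-2`). -/
def S_SQH : Prop :=
  ∀ (L : ℕ) [NeZero (2 * L)], 5 ≤ L → holes (Csq (2 * L)) L ≤ 2

end Pool.Agent.P8H79.RC
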