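import Pool.Agent.P8H79.RC.Asm5
import Pool.Agent.P8H79.RC.Stm5

/-!
# Project RC: assembly for all `n >= 9` once the links are known to be acyclic.
-/

set_option autoImplicit false

namespace Pool.Agent.P8H79.RC

open Finset

/-- `S_NZA` and `S_NZB` for all `n >= 9`. -/
def NZall : Prop :=
  ∀ N : ℕ, 9 ≤ N → (vec (-2) (fun _ => true) N).a ≠ 0 ∧ (vec (-1) (fun _ => true) N).a ≠ 0 ∧
    (vec (-1) (fun _ => true) (N - 1)).c ≠ (vec (-1) (fun _ => true) (N - 1)).e

lemma nzall (hNZA : S_NZA) (hNZB : S_NZB) : NZall := by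
  intro N hN
  rcases Nat.lt_or_ge N 10 with h | h
  · have h9 : N = 9 := by omega
    subst h9
    refine ⟨?_, ?_, ?_⟩ <;> simp [vec, stepV]
  · exact ⟨hNZA N h, (hNZB N h).1, (hNZB N h).2⟩

/-- The square of the cycle is not divisible by `q ^ 2` for all `q`. -/
lemma conn_of9 (hCONG : S_CONG) (hVCG : S_VCG) (hNZ : NZall) {V : Type} [Finite V] [Nonempty V]
    (G : SimpleGraph V) (n : ℕ) (hn : 9 ≤ n)
    (hc : ∀ q : ℕ, 4 ≤ q →
      (cnt G q : ℤ) = (q : ℤ) * (q - 1) * (vec ((q : ℤ) - 2) (fun _ => true) n).a) :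
    G.Connected := by
  by_contra h
  refine (hNZ n hn).1 (dvd_all_zero _ 0 ?_)
  intro q hq
  have hq' : 4 ≤ q := by omega
  have h1 : ((q : ℤ) ^ 2) ∣ (cnt G q : ℤ) := by exact_mod_cast hCONG V G h q (by omega)
  rw [hc q hq'] at h1
  have hq0 : (q : ℤ) ≠ 0 := by
    have : 0 < q := by omega
    exact_mod_cast this.ne'
  have h2 : (q : ℤ) ∣ ((q : ℤ) - 1) * (vec ((q : ℤ) - 2) (fun _ => true) n).a := by
    have h3 : (q : ℤ) * q ∣ (q : ℤ) *
        (((q : ℤ) - 1) * (vec ((q : ℤ) - 2) (fun _ => true) n).a) := by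
      have e1 : (q : ℤ) * q = (q : ℤ) ^ 2 := by ring
      rw [e1, ← mul_assoc]; exact h1
    exact (mul_dvd_mul_iff_left hq0).mp h3
  have hcop : IsCoprime (q : ℤ) ((q : ℤ) - 1) := ⟨1, -1, by ring⟩
  have h4 := hcop.dvd_of_dvd_mul_left h2
  have h5 := hVCG ((q : ℤ) - 2) (-2) (fun _ => true) n
  have h6 : ((q : ℤ) - 2 - (-2)) = q := by ring
  rw [h6] at h5
  have h7 := (dvd_sub_right h4).mp h5
  simpa using h7

/-- No vertex has exactly one neighbour. -/
lemma deg_one_of9 (hDEGG : S_DEGG) (hVCG : S_VCG) (hNZ : NZall) {V : Type} [Finite V]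
    (G : SimpleGraph V) (n : ℕ) (hn : 9 ≤ n)
    (hc : ∀ q : ℕ, 4 ≤ q →
      (cnt G q : ℤ) = (q : ℤ) * (q - 1) * (vec ((q : ℤ) - 2) (fun _ => true) n).a)
    (w a : V) (hw : ∀ v, G.Adj w v ↔ v = a) (he : ∃ x y, G.Adj x y ∧ w ≠ x ∧ w ≠ y) : False := by
  refine (hNZ n hn).2.1 (dvd_all_zero _ 1 ?_)
  intro q hq
  have hq' : 4 ≤ q := by omega
  have h1 : ((q : ℤ) * ((q : ℤ) - 1) ^ 2) ∣ (cnt G q : ℤ) := by
    have h0 := hDEGG V G w a hw he q (by omega)
    have h00 : ((q * (q - 1) ^ 2 : ℕ) : ℤ) ∣ (cnt G q : ℤ) := by exact_mod_cast h0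
    have e : ((q * (q - 1) ^ 2 : ℕ) : ℤ) = (q : ℤ) * ((q : ℤ) - 1) ^ 2 := by
      push_cast [Nat.cast_sub (show 1 ≤ q by omega)]; ring
    rwa [e] at h00
  rw [hc q hq'] at h1
  have hq0 : (q : ℤ) * ((q : ℤ) - 1) ≠ 0 := by
    have h8 : (4 : ℤ) ≤ q := by exact_mod_cast hq'
    have : (q : ℤ) - 1 ≠ 0 := by omega
    have : (q : ℤ) ≠ 0 := by omega
    positivity
  have h2 : ((q : ℤ) - 1) ∣ (vec ((q : ℤ) - 2) (fun _ => true) n).a := by
    have h3 : ((q : ℤ) * ((q : ℤ) - 1)) * ((q : ℤ) - 1) ∣ ((q : ℤ) * ((q : ℤ) - 1)) *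
        (vec ((q : ℤ) - 2) (fun _ => true) n).a := by
      have e1 : ((q : ℤ) * ((q : ℤ) - 1)) * ((q : ℤ) - 1) = (q : ℤ) * ((q : ℤ) - 1) ^ 2 := by ring
      rw [e1]; exact h1
    exact (mul_dvd_mul_iff_left hq0).mp h3
  have h5 := hVCG ((q : ℤ) - 2) (-1) (fun _ => true) n
  have h6 : ((q : ℤ) - 2 - (-1)) = q - 1 := by ring
  rw [h6] at h5
  have h7 := (dvd_sub_right h2).mp h5
  simpa using h7

/-- the count of the square of the cycle -/
lemma sq_cnt9 (hCCS : S_CCS) (hTRA : S_TRA) (hSQ9 : S_SQ9) (n : ℕ) (hn : 7 ≤ n)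
    (q : ℕ) (hq : 4 ≤ q) :
    (cnt (Csq n) q : ℤ) = (q : ℤ) * (q - 1) * (vec ((q : ℤ) - 2) (fun _ => true) n).a := by
  classical
  have : NeZero n := ⟨by omega⟩
  obtain ⟨-, h2⟩ := hCCS (ZMod n) (Csq n) n (by omega) _ _ (hSQ9 n hn).2.2.2.1
  rw [h2 q, hTRA n q (by omega) hq _ 0]
  congr 2
  apply vec_congr
  intro k _
  simp

/-- the last step of the comparison: exactly one non-pivot is impossible -/
lemma one_flip9 (hCCS : S_CCS) (hTRA : S_TRA) (hVCG : S_VCG) (hNZ : NZall) {V : Type} [Finite V]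
    (G : SimpleGraph V) (n : ℕ) (hn : 9 ≤ n) (x z : ZMod n → V) (h : IsStrip G n x z)
    (hc : ∀ q : ℕ, 4 ≤ q →
      (cnt G q : ℤ) = (q : ℤ) * (q - 1) * (vec ((q : ℤ) - 2) (fun _ => true) n).a)
    (i0 : ZMod n) (hi0 : z (i0 + 1) ≠ x i0) (hi : ∀ i, i ≠ i0 → z (i + 1) = x i) : False := by
  classical
  have : NeZero n := ⟨by omega⟩
  obtain ⟨-, h2⟩ := hCCS V G n (by omega) x z h
  let b : ℕ → Bool := fun k => decide (k ≠ n - 1)
  have hb : ∀ s : ℤ, vec s (fun k : ℕ => decide (z (i0 + 1 + (k : ZMod n) + 1)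
      = x (i0 + 1 + (k : ZMod n)))) n = vec s b n := by
    intro s
    apply vec_congr
    intro k hk
    simp only [b, decide_eq_decide]
    constructor
    · intro h1 h2
      apply hi0
      have h3 : i0 + 1 + (k : ZMod n) = i0 := by
        have : ((k : ZMod n)) + 1 = 0 := by
          have : ((k + 1 : ℕ) : ZMod n) = 0 := by
            rw [h2, show n - 1 + 1 = n by omega, ZMod.natCast_self]
          exact_mod_cast this
        calc i0 + 1 + (k : ZMod n) = i0 + ((k : ZMod n) + 1) := by ring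
          _ = i0 := by rw [this, add_zero]
      rw [h3] at h1; exact h1
    · intro h1
      apply hi
      intro h3
      apply h1
      have h4 : ((k + 1 : ℕ) : ZMod n) = 0 := by
        have h5 : (1 : ZMod n) + (k : ZMod n) = 0 := by
          have : i0 + (1 + (k : ZMod n)) = i0 + 0 := by rw [add_zero, ← add_assoc]; exact h3
          exact add_left_cancel this
        push_cast
        rw [add_comm]; exact h5
      rw [ZMod.natCast_eq_zero_iff] at h4
      have := Nat.le_of_dvd (by omega) h4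
      omega
  have h3 : ∀ q : ℕ, 4 ≤ q → (vec ((q : ℤ) - 2) b n).a = (vec ((q : ℤ) - 2) (fun _ => true) n).a := by
    intro q hq
    have h4 := hTRA n q (by omega) hq (fun i => decide (z (i + 1) = x i)) (i0 + 1)
    rw [← h2 q, hc q hq, hb] at h4
    have h8 : (4 : ℤ) ≤ q := by exact_mod_cast hq
    have hq1 : (q : ℤ) * ((q : ℤ) - 1) ≠ 0 := by
      have : (q : ℤ) - 1 ≠ 0 := by omega
      have : (q : ℤ) ≠ 0 := by omega
      positivity
    exact (mul_left_cancel₀ hq1 h4).symm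
  have h5 : (vec (-1) b n).a - (vec (-1) (fun _ => true) n).a = 0 := by
    refine dvd_all_zero _ 1 ?_
    intro q hq
    have h6 := hVCG ((q : ℤ) - 2) (-1) b n
    have h7 := hVCG ((q : ℤ) - 2) (-1) (fun _ => true) n
    have e1 : ((q : ℤ) - 2 - (-1)) = q - ((1 : ℕ) : ℤ) := by push_cast; ring
    rw [e1] at h6 h7
    rw [h3 q (by omega)] at h6
    have h8 := dvd_sub h7 h6
    have e2 : ((vec ((q : ℤ) - 2) (fun _ => true) n).a - (vec (-1) (fun _ => true) n).a) -
      ((vec ((q : ℤ) - 2) (fun _ => true) n).a - (vec (-1) b n).a) =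
      (vec (-1) b n).a - (vec (-1) (fun _ => true) n).a := by ring
    rwa [e2] at h8
  obtain ⟨m, rfl⟩ : ∃ m, n = m + 1 := ⟨n - 1, by omega⟩
  have h9 : vec (-1) b m = vec (-1) (fun _ => true) m := by
    apply vec_congr
    intro k hk
    simp only [b, decide_eq_true_eq]; omega
  have h10 := (hNZ (m + 1) hn).2.2
  apply h10
  simp only [vec, stepV] at h5
  rw [h9] at h5
  have hbm : b m = false := by simp [b]
  rw [hbm] at h5
  simp at h5
  simp only [Nat.add_sub_cancel]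
  omega

/-- The structure theorem: a connected graph without `K_4`, with `2 n` edges, `n` triangles, no
short holes, no vertices of degree one or two is a strip. -/
lemma strip_of9
    (hLINK : S_LINK) (hAVOID : S_AVOID) (hCNT2 : S_CNT2) (hSTA : S_STA) (hSTB : S_STB)
    (hREG : S_REG) (hSTC : S_STC) {V : Type} [Fintype V] (G : SimpleGraph V) (n : ℕ)
    (hn : 9 ≤ n) (hV : Fintype.card V = n) 
    (hm : cl G Finset.univ 2 = 2 * n) (ht : cl G Finset.univ 3 = n) (hac : ∀ v, (link G v).IsAcyclic)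
    (hconn : G.Connected)
    (hd1 : ∀ w a : V, (∀ v, G.Adj w v ↔ v = a) → (∃ x y, G.Adj x y ∧ w ≠ x ∧ w ≠ y) → False)
    (hd2 : ∀ w a b : V, G.Adj a b → (∀ v, G.Adj w v ↔ v = a ∨ v = b) →
      (∃ x y z, G.Adj x y ∧ G.Adj y z ∧ G.Adj x z ∧ w ≠ x ∧ w ≠ y ∧ w ≠ z) → False) :
    ∃ x z : ZMod n → V, IsStrip G n x z := by
  classical
  subst hV
  have hne : Nonempty V := Fintype.card_pos_iff.mp (by omega)
  have hnt : Nontrivial V := Fintype.one_lt_card_iff_nontrivial.mp (by omega)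
  have hnb : ∀ v, (G.neighborSet v).Nonempty := by
    intro v
    have := hconn.preconnected.degree_pos_of_nontrivial v
    rw [SimpleGraph.degree_pos_iff_exists_adj] at this
    obtain ⟨w, hw⟩ := this
    exact ⟨w, hw⟩
  have htree := hLINK V G hac hnb hm ht
  have hav := hAVOID V G htree ht
  have hdeg : ∀ v, 3 ≤ (G.neighborSet v).ncard := by
    intro w
    by_contra hlt
    have hpos : 0 < (G.neighborSet w).ncard :=
      (Set.ncard_pos (Set.toFinite _)).mpr (hnb w)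
    obtain ⟨a', b', c', h1, h2, h3, h4, h5, h6⟩ := hav w
    rcases Nat.lt_or_ge (G.neighborSet w).ncard 2 with h | h
    · have h1' : (G.neighborSet w).ncard = 1 := by omega
      obtain ⟨a, ha⟩ := Set.ncard_eq_one.mp h1'
      refine hd1 w a ?_ ⟨a', b', h1, h4, h5⟩
      intro v
      rw [← SimpleGraph.mem_neighborSet, ha]; simp
    · have h2' : (G.neighborSet w).ncard = 2 := by omega
      obtain ⟨a, b, hab, hs⟩ := Set.ncard_eq_two.mp h2'
      have hmem : ∀ v, G.Adj w v ↔ v = a ∨ v = b := by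
        intro v
        rw [← SimpleGraph.mem_neighborSet, hs]; simp
      refine hd2 w a b ?_ hmem ⟨a', b', c', h1, h2, h3, h4, h5, h6⟩
      have hwa : G.Adj w a := (hmem a).mpr (Or.inl rfl)
      have hwb : G.Adj w b := (hmem b).mpr (Or.inr rfl)
      have hnt' : Nontrivial (G.neighborSet w) := ⟨⟨a, hwa⟩, ⟨b, hwb⟩, by
        intro h; exact hab (congrArg Subtype.val h)⟩
      have hcon := (htree w).1
      have hfin : Finite (G.neighborSet w) := Set.toFinite _
      have : Fintype (G.neighborSet w) := Fintype.ofFinite _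
      have hdp := hcon.preconnected.degree_pos_of_nontrivial (⟨a, hwa⟩ : G.neighborSet w)
      rw [SimpleGraph.degree_pos_iff_exists_adj] at hdp
      obtain ⟨⟨u, hu⟩, hadj⟩ := hdp
      have hadj' : G.Adj a u := hadj
      rcases (hmem u).mp hu with rfl | rfl
      · exact absurd hadj' (G.irrefl)
      · exact hadj'
  obtain ⟨hc1, hc2⟩ := hCNT2 V G htree hdeg hm ht
  have hreg := hSTA V G hc1 hc2
  have hcc : ∀ a b, G.Adj a b → 1 ≤ cc G a b := by
    intro a b hab
    rcases hc1 a b hab with h | h <;> omega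
  have htc := hSTB V G hconn (fun v => (htree v).1) hcc
  have hft : Finite (Tri G) := by unfold Tri; infer_instance
  obtain ⟨T, hT1, hT2⟩ := hREG (Tri G) (triGraph G) (Fintype.card V)
    (by rw [card_tri, ht]) htc hreg
  exact hSTC V G (Fintype.card V) (by omega) rfl hc1 (fun v => hnb v) hav T hT1 hT2

/-- **Graphs without `K_4`.** -/
theorem k4free9
    (hLINK : S_LINK) (hAVOID : S_AVOID) (hCNT2 : S_CNT2) (hSTA : S_STA) (hSTB : S_STB)
    (hREG : S_REG) (hSTC : S_STC) (hDEG2 : S_DEG2) (hCCS : S_CCS) (hTRA : S_TRA) (hTRB : S_TRB)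
    (hSQ9 : S_SQ9) (hCMP : S_CMP) (hCARD : S_CARD)
    (hVCG : S_VCG) (hNZ : NZall) (hCONG : S_CONG) (hDEGG : S_DEGG)
    (n : ℕ) (hn : 9 ≤ n) (V : Type) [Finite V] (G : SimpleGraph V) (hK : G.CliqueFree 4)
    (hGH : ∀ q, cnt G q = cnt (Csq n) q)
    (hac0 : ∀ (_ : Fintype V), Fintype.card V = n → G.Connected → cl G Finset.univ 2 = 2 * n →
      cl G Finset.univ 3 = n → NoShort G n → ∀ v, (link G v).IsAcyclic) : Nonempty (G ≃g Csq n) := by
  classical
  have : NeZero n := ⟨by omega⟩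
  have : Fintype V := Fintype.ofFinite V
  have hV : Fintype.card V = n := by
    rw [hCARD V (ZMod n) G (Csq n) hGH, ZMod.card]
  have hne : Nonempty V := Fintype.card_pos_iff.mp (by omega)
  obtain ⟨⟨hs1, hs2, hs3⟩, hs4, -, hs5, hs6⟩ := hSQ9 n (by omega)
  obtain ⟨hm, ht, hns⟩ := hCMP V (ZMod n) G (Csq n) hK hs1 (by rw [hV, ZMod.card]) hGH
  rw [hs2] at hm
  rw [hs3] at ht
  have hns' : NoShort G n := hns n hs4
  have hc : ∀ q : ℕ, 4 ≤ q →
      (cnt G q : ℤ) = (q : ℤ) * (q - 1) * (vec ((q : ℤ) - 2) (fun _ => true) n).a := by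
    intro q hq
    rw [hGH q]
    exact sq_cnt9 hCCS hTRA hSQ9 n (by omega) q hq
  have hsq : ∀ q : ℕ, 4 ≤ q → ∃ M : ℤ,
      (cnt (Csq n) q : ℤ) = (q : ℤ) * (q - 1) * (((q : ℤ) - 2) * M) ∧
      ((q : ℤ) - 2) ∣ M - (-1) ^ (n - 1) * (((n : ℤ) - 1) / 2) := by
    intro q hq
    obtain ⟨M, h1, h2⟩ := strip_cnt hCCS hTRA hTRB (Csq n) n (by omega) _ _
      hs5 q hq
    rw [piv_sq] at h2
    exact ⟨M, h1, h2⟩
  have hconn : G.Connected := conn_of9 hCONG hVCG hNZ G n (by omega) hc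
  have hd1 : ∀ w a : V, (∀ v, G.Adj w v ↔ v = a) → (∃ x y, G.Adj x y ∧ w ≠ x ∧ w ≠ y) → False :=
    fun w a h1 h2 => deg_one_of9 hDEGG hVCG hNZ G n (by omega) hc w a h1 h2
  have hd2 : ∀ w a b : V, G.Adj a b → (∀ v, G.Adj w v ↔ v = a ∨ v = b) →
      (∃ x y z, G.Adj x y ∧ G.Adj y z ∧ G.Adj x z ∧ w ≠ x ∧ w ≠ y ∧ w ≠ z) → False := by
    intro w a b hab hw htri
    have hzero : ((n : ℤ) - 1) / 2 = 0 := by
      refine dvd_all_zero _ 2 ?_
      intro q hq
      obtain ⟨M, h1, h2⟩ := hsq q (by omega)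
      rw [← hGH q] at h1
      have h0 := hDEG2 V G w a b hab hw htri q (by omega)
      have h00 : ((q * (q - 1) * (q - 2) ^ 2 : ℕ) : ℤ) ∣ (cnt G q : ℤ) := by exact_mod_cast h0
      have e : ((q * (q - 1) * (q - 2) ^ 2 : ℕ) : ℤ)
          = ((q : ℤ) * ((q : ℤ) - 1) * ((q : ℤ) - 2)) * ((q : ℤ) - 2) := by
        push_cast [Nat.cast_sub (show 1 ≤ q by omega), Nat.cast_sub (show 2 ≤ q by omega)]; ring
      rw [e, h1] at h00
      have h8 : (6 : ℤ) ≤ q := by exact_mod_cast hq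
      have hq1 : ((q : ℤ) * ((q : ℤ) - 1) * ((q : ℤ) - 2)) ≠ 0 := by
        have h81 : (q : ℤ) - 1 ≠ 0 := by omega
        have h82 : (q : ℤ) - 2 ≠ 0 := by omega
        have h83 : (q : ℤ) ≠ 0 := by omega
        exact mul_ne_zero (mul_ne_zero h83 h81) h82
      have h3 : ((q : ℤ) - 2) ∣ M := by
        have e3 : (q : ℤ) * ((q : ℤ) - 1) * (((q : ℤ) - 2) * M)
          = ((q : ℤ) * ((q : ℤ) - 1) * ((q : ℤ) - 2)) * M := by ring
        rw [e3] at h00
        exact (mul_dvd_mul_iff_left hq1).mp h00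
      have h4 := (dvd_sub_right h3).mp h2
      have hu : IsUnit ((-1 : ℤ) ^ (n - 1)) := IsUnit.pow _ (by norm_num)
      exact (hu.dvd_mul_left).mp h4
    omega
  obtain ⟨x, z, hxz⟩ := strip_of9 hLINK hAVOID hCNT2 hSTA hSTB hREG hSTC
    G n hn hV hm ht (hac0 _ hV hconn hm ht hns') hconn hd1 hd2
  have hcmp := cmp_floor n (((piv n x z : ℤ) - 1) / 2) (((n : ℤ) - 1) / 2) G (Csq n) hGH
    (fun q hq => strip_cnt hCCS hTRA hTRB G n (by omega) x z hxz q hq) hsq
  have hple : piv n x z ≤ n := by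
    unfold piv
    calc _ ≤ (Finset.univ : Finset (ZMod n)).card := Finset.card_filter_le _ _
      _ = n := by rw [Finset.card_univ, ZMod.card]
  have hcount : ((Finset.univ.filter (fun i : ZMod n => ¬ z (i + 1) = x i)).card) + piv n x z = n := by
    unfold piv
    have := Finset.card_filter_add_card_filter_not (s := (Finset.univ : Finset (ZMod n)))
      (fun i : ZMod n => z (i + 1) = x i)
    rw [Finset.card_univ, ZMod.card] at this
    have e : (Finset.univ.filter (fun i : ZMod n => z (i + 1) = x i)).card = 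
      (@Finset.filter (ZMod n) (fun i : ZMod n => z (i + 1) = x i)
        (fun a => Classical.propDecidable _) Finset.univ).card := by congr!
    omega
  have hle1 : (Finset.univ.filter (fun i : ZMod n => ¬ z (i + 1) = x i)).card ≤ 1 := by omega
  rcases Nat.lt_or_ge (Finset.univ.filter (fun i : ZMod n => ¬ z (i + 1) = x i)).card 1 with h | h
  · have h0 : Finset.univ.filter (fun i : ZMod n => ¬ z (i + 1) = x i) = ∅ := by
      rw [← Finset.card_eq_zero]; omega
    refine hs6 V G x z hxz ?_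
    intro i
    by_contra hi
    have : i ∈ Finset.univ.filter (fun i : ZMod n => ¬ z (i + 1) = x i) := by simp [hi]
    rw [h0] at this
    simp at this
  · have h1 : (Finset.univ.filter (fun i : ZMod n => ¬ z (i + 1) = x i)).card = 1 := by omega
    obtain ⟨i0, hi0⟩ := Finset.card_eq_one.mp h1
    exfalso
    refine one_flip9 hCCS hTRA hVCG hNZ G n (by omega) x z hxz hc i0 ?_ ?_
    · have : i0 ∈ Finset.univ.filter (fun i : ZMod n => ¬ z (i + 1) = x i) := by rw [hi0]; simp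
      simpa using this
    · intro i hi
      by_contra hne'
      have : i ∈ Finset.univ.filter (fun i : ZMod n => ¬ z (i + 1) = x i) := by simp [hne']
      rw [hi0] at this
      exact hi (by simpa using this)

end Pool.Agent.P8H79.RC
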