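import Pool.Agent.P8H79.RC.Asm6

/-!
# Project RC: final assembly.
-/

set_option autoImplicit false

namespace Pool.Agent.P8H79.RC

open Finset

lemma colorable_of_cnt {V : Type} (G : SimpleGraph V) (h : 0 < cnt G 3) : G.Colorable 3 := by
  unfold cnt at h
  obtain ⟨⟨c⟩, -⟩ := Nat.card_pos_iff.mp h
  exact ⟨c⟩

lemma k4free_of_cnt {V : Type} (G : SimpleGraph V) (h : 0 < cnt G 3) : G.CliqueFree 4 :=
  (colorable_of_cnt G h).cliqueFree (by norm_num)

/-- links are acyclic, `n >= 12` -/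
lemma acyclic12 (hCOC : S_COC) (hQF6 : S_QF6) (hFINW6 : S_FINW6) (hCMPH : S_CMPH) (hSQH : S_SQH)
    (hSQ9 : S_SQ9)
    (n : ℕ) (hn : 12 ≤ n) (V : Type) (G : SimpleGraph V) (hK : G.CliqueFree 4)
    (hGH : ∀ q, cnt G q = cnt (Csq n) q) (_ : Fintype V) (hV : Fintype.card V = n)
    (hconn : G.Connected) (hm : cl G Finset.univ 2 = 2 * n) (ht : cl G Finset.univ 3 = n)
    (hns : NoShort G n) : ∀ v, (link G v).IsAcyclic := by
  classical
  have hz : NeZero n := ⟨by omega⟩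
  have hne : Nonempty V := Fintype.card_pos_iff.mp (by omega)
  have hnt : Nontrivial V := Fintype.one_lt_card_iff_nontrivial.mp (by omega)
  obtain ⟨φ, hφ1, hφ2, hφ3⟩ := hCOC V G (by omega)
  obtain ⟨l, hl, ⟨e⟩, hq⟩ := hQF6 V G φ hconn hφ1 hφ2 hφ3
  have hnl : n ≤ 2 * l := by
    by_contra hlt
    exact (hns l hl (by omega)).false e
  obtain ⟨q, hq'⟩ := hq (by omega)
  have hnb : ∀ v, (G.neighborSet v).Nonempty := by
    intro v
    have := hconn.preconnected.degree_pos_of_nontrivial v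
    rw [SimpleGraph.degree_pos_iff_exists_adj] at this
    obtain ⟨w, hw⟩ := this
    exact ⟨w, hw⟩
  obtain ⟨⟨hs1, hs2, hs3⟩, hs4, hs7, -, -⟩ := hSQ9 n (by omega)
  have hhol : ∀ L, Fintype.card V = 2 * L → holes G L ≤ 2 := by
    intro L hL
    have h2L : n = 2 * L := by omega
    have h1 : holes G L = holes (Csq n) L := by
      refine hCMPH V (ZMod n) G (Csq n) hK hs1 (by rw [hV, ZMod.card]) hGH L (by omega) ?_ ?_
      · intro j hj1 hj2; exact hns j hj1 (by omega)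
      · intro j hj1 hj2; exact hs4 j hj1 (by omega)
    rw [h1]
    subst h2L
    exact hSQH L (by omega)
  refine hFINW6 V G (by omega) hK (by rw [hV]; exact hns) hhol ?_ hnb (by rw [hV]; exact hm)
    (by rw [hV]; exact ht) l (by omega) (by omega) q hq'
  intro h12
  have hn12 : n = 12 := by omega
  apply colorable_of_cnt
  rw [hGH 3, hs7 (by rw [hn12]; norm_num)]
  norm_num

/-- **All `n` divisible by 3.** -/
theorem three_dvd (hCOC : S_COC) (hQF6 : S_QF6) (hFINW6 : S_FINW6) (hCMPH : S_CMPH)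
    (hSQH : S_SQH) (hW9 : S_W9) (hN6 : S_N6) (hN3 : S_N3)
    (hLINK : S_LINK) (hAVOID : S_AVOID) (hCNT2 : S_CNT2) (hSTA : S_STA) (hSTB : S_STB)
    (hREG : S_REG) (hSTC : S_STC) (hDEG2 : S_DEG2) (hCCS : S_CCS) (hTRA : S_TRA) (hTRB : S_TRB)
    (hSQ9 : S_SQ9) (hCMP : S_CMP) (hCARD : S_CARD)
    (hVCG : S_VCG) (hNZ : NZall) (hCONG : S_CONG) (hDEGG : S_DEGG)
    (n : ℕ) (hn : 3 ≤ n) (h3 : 3 ∣ n) (V : Type) [Finite V] (G : SimpleGraph V)
    (hGH : ∀ q, cnt G q = cnt (Csq n) q) : Nonempty (G ≃g Csq n) := by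
  classical
  have hz : NeZero n := ⟨by omega⟩
  rcases Nat.lt_or_ge n 7 with h7 | h7
  · have : Fintype V := Fintype.ofFinite V
    have hV : Fintype.card V = n := by rw [hCARD V (ZMod n) G (Csq n) hGH, ZMod.card]
    have h36 : n = 3 ∨ n = 6 := by omega
    rcases h36 with rfl | rfl
    · -- three vertices
      have hK : G.CliqueFree 4 := SimpleGraph.cliqueFree_of_card_lt (by omega)
      have hK' : (Csq 3).CliqueFree 4 :=
        SimpleGraph.cliqueFree_of_card_lt (by rw [ZMod.card]; omega)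
      obtain ⟨hm, -, -⟩ := hCMP V (ZMod 3) G (Csq 3) hK hK' (by rw [hV, ZMod.card]) hGH
      exact hN3.1 V G hV (by rw [hm]; exact hN3.2)
    · obtain ⟨h1, h2, h4, h5⟩ := hN6
      have hK : G.CliqueFree 4 := k4free_of_cnt G (by rw [hGH 3]; exact h5)
      obtain ⟨hm, -, -⟩ := hCMP V (ZMod 6) G (Csq 6) hK h2 (by rw [hV, ZMod.card]) hGH
      exact h1 V G hV hK (by rw [hm]; exact h4)
  · have h6 : cnt (Csq n) 3 = 6 := (hSQ9 n h7).2.2.1 h3
    have hK : G.CliqueFree 4 := k4free_of_cnt G (by rw [hGH 3, h6]; norm_num)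
    refine k4free9 hLINK hAVOID hCNT2 hSTA hSTB hREG hSTC hDEG2 hCCS hTRA hTRB hSQ9 hCMP hCARD
      hVCG hNZ hCONG hDEGG n (by omega) V G hK hGH ?_
    intro hF hV hconn hm ht hns
    rcases Nat.lt_or_ge n 12 with h12 | h12
    · have h9 : n = 9 := by omega
      subst h9
      exact hW9 V G hV hK (colorable_of_cnt G (by rw [hGH 3, h6]; norm_num)) hns
        (by rw [hm]) ht
    · exact acyclic12 hCOC hQF6 hFINW6 hCMPH hSQH hSQ9 n h12 V G hK hGH hF hV hconn hm ht hns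

/-- **Graphs without `K_4`, all `n >= 12`.** -/
theorem k4free12 (hCOC : S_COC) (hQF6 : S_QF6) (hFINW6 : S_FINW6) (hCMPH : S_CMPH)
    (hSQH : S_SQH)
    (hLINK : S_LINK) (hAVOID : S_AVOID) (hCNT2 : S_CNT2) (hSTA : S_STA) (hSTB : S_STB)
    (hREG : S_REG) (hSTC : S_STC) (hDEG2 : S_DEG2) (hCCS : S_CCS) (hTRA : S_TRA) (hTRB : S_TRB)
    (hSQ9 : S_SQ9) (hCMP : S_CMP) (hCARD : S_CARD)
    (hVCG : S_VCG) (hNZ : NZall) (hCONG : S_CONG) (hDEGG : S_DEGG)
    (n : ℕ) (hn : 12 ≤ n) (V : Type) [Finite V] (G : SimpleGraph V) (hK : G.CliqueFree 4)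
    (hGH : ∀ q, cnt G q = cnt (Csq n) q) : Nonempty (G ≃g Csq n) := by
  classical
  refine k4free9 hLINK hAVOID hCNT2 hSTA hSTB hREG hSTC hDEG2 hCCS hTRA hTRB hSQ9 hCMP hCARD
      hVCG hNZ hCONG hDEGG n (by omega) V G hK hGH ?_
  intro hF hV hconn hm ht hns
  exact acyclic12 hCOC hQF6 hFINW6 hCMPH hSQH hSQ9 n hn V G hK hGH hF hV hconn hm ht hns

lemma cl_zero {V : Type} [Fintype V] (G : SimpleGraph V) (k : ℕ) (h : G.CliqueFree k) :
    cl G Finset.univ k = 0 := by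
  classical
  unfold cl
  rw [Finset.card_eq_zero, Finset.filter_eq_empty_iff]
  intro S hS hc
  rw [Finset.mem_powersetCard] at hS
  exact h S ⟨hc, hS.2⟩

lemma holes_zero {V : Type} [Fintype V] (G : SimpleGraph V) (k : ℕ)
    (h : IsEmpty (SimpleGraph.cycleGraph k ↪g G)) : holes G k = 0 := by
  classical
  unfold holes
  rw [Finset.card_eq_zero, Finset.filter_eq_empty_iff]
  rintro S - ⟨f⟩
  refine h.false ?_
  exact f.toEmbedding.trans (SimpleGraph.Embedding.induce _)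

/-- the number of induced 4-cycles is twice the number of `K_4` -/
theorem holes_k4 (hCMPQ : S_CMPQ) (hSQ9 : S_SQ9) (hCARD : S_CARD) (n : ℕ) (hn : 9 ≤ n) (V : Type)
    [Fintype V] (G : SimpleGraph V) (hGH : ∀ q, cnt G q = cnt (Csq n) q) :
    holes G 4 = 2 * cl G Finset.univ 4 := by
  classical
  have hz : NeZero n := ⟨by omega⟩
  have hV : Fintype.card V = n := by rw [hCARD V (ZMod n) G (Csq n) hGH, ZMod.card]
  obtain ⟨⟨hs1, hs2, hs3⟩, hs4, -, -, -⟩ := hSQ9 n (by omega)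
  obtain ⟨-, -, h⟩ := hCMPQ V (ZMod n) G (Csq n) (by rw [hV, ZMod.card]) hGH
  have h1 : holes (Csq n) 4 = 0 := holes_zero _ _ (hs4 4 le_rfl (by omega))
  have h2 : cl (Csq n) Finset.univ 4 = 0 := cl_zero _ _ hs1
  omega

end Pool.Agent.P8H79.RC
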