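import Pool.Agent.P8H79.RC.Asm7
import Pool.Agent.P8H52.RC.Coc
import Pool.Agent.P8H52.RC.Reg
import Pool.Agent.P8H1.RC.Link
import Pool.Agent.P8H55.RC.Cnt2
import Pool.Agent.P8H94.RC.Sta
import Pool.Agent.P8H94.RC.Stc
import Pool.Agent.P8H38.RC.Stb
import Pool.Agent.P8H38.RC.Nz
import Pool.Agent.P8H81.RC.Ccs
import Pool.Agent.P8H81.RC.Tra
import Pool.Agent.P8H81.RC.Trb
import Pool.Agent.P8H68.RC.Pol
import Pool.Agent.P8H66.RC.Kb
import Pool.Agent.P8H80.RC.Cho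
import Pool.Agent.P8H59.RC.Hx
import Pool.Agent.P8H59.RC.Card
import Pool.Agent.P8H59.RC.Cmp
import Pool.Agent.P8H20.RC.Cong
import Pool.Agent.P8H20.RC.Small
import Pool.Agent.P8H62.RC.Hq
import Pool.Agent.P8H62.RC.Cmpq
import Pool.Agent.P8H7.RC.Cmph
import Pool.Agent.P8H7.RC.Sq9
import Pool.Agent.P8H7.RC.W9
import Pool.Agent.P8H4.RC.Sqh

/-!
# Project RC: everything but QF6 and FINW6
-/

set_option autoImplicit false

namespace Pool.Agent.P8H79.RC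

open Finset

theorem hx_ok : S_HX := P8H59.RC.hx P8H66.RC.kb_direct P8H80.RC.cho P8H59.RC.cyc

theorem hq_ok : S_HQ := P8H62.RC.hq P8H66.RC.kb_direct P8H68.RC.pol P8H80.RC.cho P8H59.RC.cyc

theorem cmp_ok : S_CMP := P8H59.RC.cmp P8H68.RC.pol hx_ok

theorem cmpq_ok : S_CMPQ := P8H62.RC.cmpq P8H68.RC.pol hq_ok

theorem cmph_ok : S_CMPH := P8H7.RC9.cmph P8H68.RC.pol hx_ok

theorem nz_ok : NZall := nzall P8H38.RC.nza P8H38.RC.nzb

/-- **All `n` divisible by 3.** -/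
theorem three_ok (hQF6 : S_QF6) (hFINW6 : S_FINW6)
    (n : ℕ) (hn : 3 ≤ n) (h3 : 3 ∣ n) (V : Type) [Finite V] (G : SimpleGraph V)
    (hGH : ∀ q, cnt G q = cnt (Csq n) q) : Nonempty (G ≃g Csq n) :=
  three_dvd P8H52.RC.coc hQF6 hFINW6 cmph_ok P8H4.RC.sqh P8H7.RC9.w9 P8H20.RC.n6 P8H20.RC.n3
    P8H1.RC.t_link P8H1.RC.t_avoid P8H55.RC.cnt2 P8H94.RC.sta P8H38.RC.stb P8H52.RC.reg
    P8H94.RC.stc P8H20.RC.deg2 P8H81.RC.ccs P8H81.RC.tra P8H81.RC.trb P8H7.RC9.sq9 cmp_ok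
    P8H59.RC.card P8H20.RC.vcg nz_ok P8H20.RC.cong P8H20.RC.degg n hn h3 V G hGH

/-- **All `n >= 12`, graphs without `K_4` or without induced 4-cycles.** -/
theorem twelve_ok (hQF6 : S_QF6) (hFINW6 : S_FINW6)
    (n : ℕ) (hn : 12 ≤ n) (V : Type) [Finite V] (G : SimpleGraph V)
    (hK : G.CliqueFree 4 ∨ IsEmpty (SimpleGraph.cycleGraph 4 ↪g G))
    (hGH : ∀ q, cnt G q = cnt (Csq n) q) : Nonempty (G ≃g Csq n) := by
  classical
  have hK' : G.CliqueFree 4 := by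
    rcases hK with h | h
    · exact h
    · have : Fintype V := Fintype.ofFinite V
      have h1 := holes_k4 cmpq_ok P8H7.RC9.sq9 P8H59.RC.card n (by omega) V G hGH
      rw [holes_zero G 4 h] at h1
      intro S hS
      have h2 : cl G Finset.univ 4 = 0 := by omega
      unfold cl at h2
      rw [Finset.card_eq_zero, Finset.filter_eq_empty_iff] at h2
      exact h2 (Finset.mem_powersetCard.mpr ⟨Finset.subset_univ _, hS.card_eq⟩) hS.isClique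
  exact k4free12 P8H52.RC.coc hQF6 hFINW6 cmph_ok P8H4.RC.sqh
    P8H1.RC.t_link P8H1.RC.t_avoid P8H55.RC.cnt2 P8H94.RC.sta P8H38.RC.stb P8H52.RC.reg
    P8H94.RC.stc P8H20.RC.deg2 P8H81.RC.ccs P8H81.RC.tra P8H81.RC.trb P8H7.RC9.sq9 cmp_ok
    P8H59.RC.card P8H20.RC.vcg nz_ok P8H20.RC.cong P8H20.RC.degg n hn V G hK' hGH

end Pool.Agent.P8H79.RC
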