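import Pool.Agent.P8H79.RC.Fin
import Pool.Agent.P8H20.RC.Alpha6
import Pool.Agent.P8H22.RC.Qf6
import Pool.Agent.P8H22.RC.Beta6
import Pool.Agent.P8H7.RC.Fin6

/-!
# Project RC: the final theorems
-/

set_option autoImplicit false

namespace Pool.Agent.P8H79.RC

theorem finw6_ok : S_FINW6 := P8H7.RC6.finw6 P8H20.RC.alpha6 P8H22.RC.beta6

theorem fin_three (n : ℕ) (hn : 3 ≤ n) (h3 : 3 ∣ n) (V : Type) [Finite V] (G : SimpleGraph V)
    (hGH : ∀ q, cnt G q = cnt (Csq n) q) : Nonempty (G ≃g Csq n) :=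
  three_ok P8H22.RC.qf6 finw6_ok n hn h3 V G hGH

theorem fin_twelve (n : ℕ) (hn : 12 ≤ n) (V : Type) [Finite V] (G : SimpleGraph V)
    (hK : G.CliqueFree 4 ∨ IsEmpty (SimpleGraph.cycleGraph 4 ↪g G))
    (hGH : ∀ q, cnt G q = cnt (Csq n) q) : Nonempty (G ≃g Csq n) :=
  twelve_ok P8H22.RC.qf6 finw6_ok n hn V G hK hGH

end Pool.Agent.P8H79.RC
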