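import Pool.Agent.P8H79.RC.Stm6
import Pool.Agent.P8H68.RC.Pol
import Pool.Agent.P8H59.RC.Cmp

/-!
# Project RC, third part: the sign at 3 (package IND3)
-/

set_option autoImplicit false

namespace Pool.Agent.P8H79.RC

open Finset Polynomial

theorem exists_chrom (V : Type) [Finite V] (G : SimpleGraph V) :
    ∃ P : ℚ[X], ∀ q : ℕ, (cnt G q : ℚ) = P.eval (q : ℚ) := by
  classical
  cases nonempty_fintype V
  refine ⟨P8H68.RC.P G Finset.univ, fun q => ?_⟩
  rw [P8H68.RC.P_eval, P8H59.RC.cntOn_univ]

/-- no colourings of a triangle with fewer than three colours -/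
theorem cnt_small (V : Type) [Finite V] (G : SimpleGraph V) (e : Fin 3 → V)
    (he : ∀ i j, i ≠ j → G.Adj (e i) (e j)) (q : ℕ) (hq : q < 3) : cnt G q = 0 := by
  unfold cnt
  have : IsEmpty (G.Coloring (Fin q)) := ⟨fun C => by
    have hinj : Function.Injective (fun i => C (e i)) := fun i j h => by
      by_contra hne
      exact C.valid (he i j hne) h
    have := Fintype.card_le_of_injective _ hinj
    simp only [Fintype.card_fin] at this
    omega⟩
  exact Nat.card_of_isEmpty

theorem exists_quot (V : Type) [Finite V] (G : SimpleGraph V) (e : Fin 3 → V)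
    (he : ∀ i j, i ≠ j → G.Adj (e i) (e j)) :
    ∃ F : ℚ[X], 0 ≤ F.eval 3 ∧
      ∀ q : ℕ, (cnt G q : ℚ) = (q : ℚ) * (q - 1) * (q - 2) * F.eval (q : ℚ) := by
  obtain ⟨P, hP⟩ := exists_chrom V G
  have h0 : P.eval 0 = 0 := by
    have := hP 0
    rw [cnt_small V G e he 0 (by norm_num)] at this
    simpa using this.symm
  have h1 : P.eval 1 = 0 := by
    have := hP 1
    rw [cnt_small V G e he 1 (by norm_num)] at this
    simpa using this.symm
  have h2 : P.eval 2 = 0 := by
    have := hP 2
    rw [cnt_small V G e he 2 (by norm_num)] at this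
    simpa using this.symm
  obtain ⟨P1, hP1⟩ := (dvd_iff_isRoot (p := P) (a := 0)).2 h0
  have k1 : P1.eval 1 = 0 := by
    rw [hP1] at h1
    simpa using h1
  obtain ⟨P2, hP2⟩ := (dvd_iff_isRoot (p := P1) (a := 1)).2 k1
  have k2 : P2.eval 2 = 0 := by
    rw [hP1, hP2] at h2
    simp only [eval_mul, eval_sub, eval_X, eval_C] at h2
    norm_num at h2
    exact h2
  obtain ⟨F, hF⟩ := (dvd_iff_isRoot (p := P2) (a := 2)).2 k2
  have key : ∀ q : ℕ, (cnt G q : ℚ) = (q : ℚ) * (q - 1) * (q - 2) * F.eval (q : ℚ) := by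
    intro q
    rw [hP q, hP1, hP2, hF]
    simp only [eval_mul, eval_sub, eval_X, eval_C]
    ring
  refine ⟨F, ?_, key⟩
  have h3 := key 3
  have h4 : (0 : ℚ) ≤ (cnt G 3 : ℚ) := Nat.cast_nonneg _
  rw [h3] at h4
  push_cast at h4
  linarith

theorem cnt_base (V : Type) [Finite V] (G : SimpleGraph V) (K : Fin 4 → V)
    (hK : ∀ i j, i ≠ j → G.Adj (K i) (K j)) (hsur : Function.Surjective K) (q : ℕ) (hq : 4 ≤ q) :
    (cnt G q : ℚ) = (q : ℚ) * (q - 1) * (q - 2) * (q - 3) := by
  have hinj : Function.Injective K := fun i j h => by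
    by_contra hne
    exact (hK i j hne).ne h
  let φ : Fin 4 ≃ V := Equiv.ofBijective K ⟨hinj, hsur⟩
  have hφ : ∀ i, φ i = K i := fun _ => rfl
  let E : G.Coloring (Fin q) ≃ (Fin 4 ↪ Fin q) :=
    { toFun := fun C => ⟨fun i => C (K i), fun i j h => by
        by_contra hne
        exact C.valid (hK i j hne) h⟩
      invFun := fun f => SimpleGraph.Coloring.mk (fun v => f (φ.symm v)) (fun {v w} h e => by
        exact h.ne (φ.symm.injective (f.injective e)))
      left_inv := fun C => by
        apply DFunLike.ext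
        intro v
        change C (K (φ.symm v)) = C v
        rw [← hφ, Equiv.apply_symm_apply]
      right_inv := fun f => by
        apply DFunLike.ext
        intro i
        change f (φ.symm (K i)) = f i
        rw [← hφ, Equiv.symm_apply_apply] }
  have hc : cnt G q = q.descFactorial 4 := by
    unfold cnt
    rw [Nat.card_congr E, Nat.card_eq_fintype_card, Fintype.card_embedding_eq, Fintype.card_fin,
      Fintype.card_fin]
  rw [hc]
  obtain ⟨k, rfl⟩ := Nat.exists_eq_add_of_le hq
  have : (4 + k).descFactorial 4 = (k + 1) * ((k + 2) * ((k + 3) * (k + 4))) := by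
    simp only [Nat.descFactorial]
    have e1 : 4 + k - 3 = k + 1 := by omega
    have e2 : 4 + k - 2 = k + 2 := by omega
    have e3 : 4 + k - 1 = k + 3 := by omega
    have e4 : 4 + k - 0 = k + 4 := by omega
    rw [e1, e2, e3, e4]
    ring
  rw [this]
  push_cast
  ring

/-- the image of a connected set of a subgraph -/
theorem connected_image {V : Type} (G : SimpleGraph V) (B : Set V) (D : Set B)
    (hD : ((G.induce B).induce D).Connected) : (G.induce (Subtype.val '' D)).Connected := by
  let f : (G.induce B).induce D →g G.induce (Subtype.val '' D) :=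
    ⟨fun y => ⟨y.1.1, ⟨y.1, y.2, rfl⟩⟩, fun {a b} h => h⟩
  have hf : Function.Surjective f := by
    rintro ⟨v, ⟨y, hy, rfl⟩⟩
    exact ⟨⟨y, hy⟩, rfl⟩
  exact hD.map f hf

theorem ind3_aux (hS : S_SEP3) (N : ℕ) : ∀ (V : Type) [Finite V] (G : SimpleGraph V)
    (K : Fin 4 → V), Nat.card V = N → (∀ i j, i ≠ j → G.Adj (K i) (K j)) →
    (∀ C : Set V, (G.induce C).Connected → (∀ i, K i ∉ C) → ∃ i, ∀ u ∈ C, ¬ G.Adj (K i) u) →
    ∃ R : Polynomial ℚ, 0 ≤ R.eval 3 ∧
      ∀ q : ℕ, 4 ≤ q → (cnt G q : ℚ) = (q : ℚ) * (q - 1) * (q - 2) * (q - 3) * R.eval (q : ℚ) := by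
  induction N using Nat.strong_induction_on with
  | _ N ih =>
  intro V _ G K hN hK hC
  by_cases hsur : Function.Surjective K
  · refine ⟨1, by simp, fun q hq => ?_⟩
    rw [cnt_base V G K hK hsur q hq]
    simp
  · simp only [Function.Surjective, not_forall, not_exists] at hsur
    obtain ⟨x, hx⟩ := hsur
    have hx' : x ∈ (Set.range K)ᶜ := fun ⟨i, hi⟩ => hx i hi
    set H := G.induce (Set.range K)ᶜ with hH
    let c := H.connectedComponentMk ⟨x, hx'⟩
    have hconn : (G.induce (Subtype.val '' c.supp)).Connected :=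
      connected_image G _ _ c.connected_toSimpleGraph
    set C : Set V := Subtype.val '' c.supp with hCdef
    have hxC : x ∈ C := ⟨⟨x, hx'⟩, rfl, rfl⟩
    have hKC : ∀ i, K i ∉ C := by
      rintro i ⟨y, -, hy⟩
      exact y.2 ⟨i, hy.symm⟩
    have hclosed : ∀ u ∈ C, ∀ v, G.Adj u v → v ∉ C → ∃ j, v = K j := by
      rintro u ⟨y, hy, rfl⟩ v hv hvC
      by_contra hne
      simp only [not_exists] at hne
      have hv' : v ∈ (Set.range K)ᶜ := fun ⟨i, hi⟩ => hne i hi.symm
      apply hvC
      refine ⟨⟨v, hv'⟩, ?_, rfl⟩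
      have hadj : H.Adj y ⟨v, hv'⟩ := hv
      rw [SimpleGraph.ConnectedComponent.mem_supp_iff] at hy ⊢
      rw [← hy]
      exact (SimpleGraph.ConnectedComponent.sound hadj.reachable).symm
    obtain ⟨i, hi⟩ := hC C hconn hKC
    set e : Fin 3 → V := fun j => K (i.succAbove j) with he
    have hinj : Function.Injective K := fun i j h => by
      by_contra hne
      exact (hK i j hne).ne h
    have heK : ∀ j, j ≠ i → K j ∈ Set.range e := by
      intro j hj
      obtain ⟨l, hl⟩ := Fin.exists_succAbove_eq hj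
      exact ⟨l, by rw [he]; simp only [hl]⟩
    set A : Set V := C ∪ Set.range e with hA
    set B : Set V := Cᶜ with hB
    have headj : ∀ j l, j ≠ l → G.Adj (e j) (e l) := fun j l hjl =>
      hK _ _ (fun h => hjl (Fin.succAbove_right_injective h))
    have h1 : A ∪ B = Set.univ := by
      rw [hA, hB, Set.eq_univ_iff_forall]
      intro v
      by_cases hv : v ∈ C
      · exact Or.inl (Or.inl hv)
      · exact Or.inr hv
    have h2 : A ∩ B = Set.range e := by
      rw [hA, hB]
      ext v
      constructor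
      · rintro ⟨h | h, h'⟩
        · exact absurd h h'
        · exact h
      · rintro ⟨j, rfl⟩
        exact ⟨Or.inr ⟨j, rfl⟩, hKC _⟩
    have h3 : ∀ u v, G.Adj u v → (u ∈ A ∧ v ∈ A) ∨ (u ∈ B ∧ v ∈ B) := by
      intro u v huv
      by_cases hu : u ∈ C
      · by_cases hv : v ∈ C
        · exact Or.inl ⟨Or.inl hu, Or.inl hv⟩
        · obtain ⟨j, rfl⟩ := hclosed u hu v huv hv
          refine Or.inl ⟨Or.inl hu, Or.inr (heK j ?_)⟩
          rintro rfl
          exact hi u hu huv.symm
      · by_cases hv : v ∈ C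
        · obtain ⟨j, rfl⟩ := hclosed v hv u huv.symm hu
          refine Or.inl ⟨Or.inr (heK j ?_), Or.inl hv⟩
          rintro rfl
          exact hi v hv huv
        · exact Or.inr ⟨hu, hv⟩
    have hsep := hS V G A B e headj h1 h2 h3
    obtain ⟨F, hF0, hF⟩ := exists_quot A (G.induce A) (fun j => ⟨e j, Or.inr ⟨j, rfl⟩⟩)
      (fun j l hjl => headj j l hjl)
    have hcard : Nat.card B < N := by
      rw [← hN]
      have : (B : Set V) ⊂ Set.univ := by
        rw [Set.ssubset_univ_iff]
        intro h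
        have : x ∈ B := by rw [h]; trivial
        exact this hxC
      have h4 := Set.ncard_lt_ncard this (Set.toFinite _)
      rw [Set.ncard_univ] at h4
      exact h4
    obtain ⟨R, hR0, hR⟩ := ih (Nat.card B) hcard B (G.induce B) (fun j => ⟨K j, hKC j⟩) rfl
      (fun j l hjl => hK j l hjl) (by
        intro D hD hKD
        obtain ⟨j, hj⟩ := hC (Subtype.val '' D) (connected_image G B D hD) (by
          rintro j ⟨y, hy, hyj⟩
          apply hKD j
          have : y = ⟨K j, hKC j⟩ := Subtype.ext hyj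
          rw [← this]
          exact hy)
        exact ⟨j, fun u hu => hj u.1 ⟨u, hu, rfl⟩⟩)
    refine ⟨F * R, ?_, fun q hq => ?_⟩
    · rw [eval_mul]
      exact mul_nonneg hF0 hR0
    · have h5 := hsep q (by omega)
      have h6 : (cnt G q : ℚ) * ((q : ℚ) * (q - 1) * (q - 2)) =
          (cnt (G.induce A) q : ℚ) * (cnt (G.induce B) q : ℚ) := by
        have h7 : ((cnt G q * (q * (q - 1) * (q - 2)) : ℕ) : ℚ) =
          ((cnt (G.induce A) q * cnt (G.induce B) q : ℕ) : ℚ) := by rw [h5]
        rw [Nat.cast_mul, Nat.cast_mul, Nat.cast_mul, Nat.cast_mul,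
          Nat.cast_sub (show 1 ≤ q by omega), Nat.cast_sub (show 2 ≤ q by omega)] at h7
        exact_mod_cast h7
      rw [hF q, hR q hq] at h6
      have hq' : (4 : ℚ) ≤ q := by exact_mod_cast hq
      have h8 : (q : ℚ) * (q - 1) * (q - 2) ≠ 0 := by
        have : (0 : ℚ) < (q : ℚ) * (q - 1) * (q - 2) := by
          apply mul_pos
          · apply mul_pos <;> linarith
          · linarith
        exact this.ne'
      apply mul_right_cancel₀ h8
      rw [h6, eval_mul]
      ring

theorem ind3 (hS : S_SEP3) : S_IND3 := fun V _ G K hK hC =>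
  ind3_aux hS (Nat.card V) V G K rfl hK hC

end Pool.Agent.P8H79.RC
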