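import Pool.Agent.P8H79.RC.Stm6
import Pool.Agent.P8H79.RC.Asm1

/-!
# Project RC, third part: the derivative at 3 of the chromatic polynomial of `C_n ^ 2` (NEG3)
-/

set_option autoImplicit false

namespace Pool.Agent.P8H79.RC

open Finset Polynomial

/-- Vectors of polynomials. -/
structure W7 where
  a : ℚ[X]
  b : ℚ[X]
  c : ℚ[X]
  d : ℚ[X]
  e : ℚ[X]
  f : ℚ[X]
  g : ℚ[X]

/-- The recursion of the pivot steps with polynomials. -/
noncomputable def vp : ℕ → W7
  | 0 => { a := 1, b := 0, c := 0, d := 0, e := 0, f := 0, g := 0 }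
  | k + 1 =>
    { a := X * (vp k).e, b := X * (vp k).f, c := (vp k).b + (X - 1) * (vp k).e,
      d := (vp k).a + (X - 1) * (vp k).f, e := (vp k).d + (X - 1) * (vp k).g,
      f := (vp k).c + (X - 1) * (vp k).g, g := (vp k).c + (vp k).d + (X - C 2) * (vp k).g }

theorem vp_eval (s : ℤ) (k : ℕ) :
    (vp k).a.eval (s : ℚ) = ((vec s (fun _ => true) k).a : ℚ) ∧
    (vp k).b.eval (s : ℚ) = ((vec s (fun _ => true) k).b : ℚ) ∧
    (vp k).c.eval (s : ℚ) = ((vec s (fun _ => true) k).c : ℚ) ∧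
    (vp k).d.eval (s : ℚ) = ((vec s (fun _ => true) k).d : ℚ) ∧
    (vp k).e.eval (s : ℚ) = ((vec s (fun _ => true) k).e : ℚ) ∧
    (vp k).f.eval (s : ℚ) = ((vec s (fun _ => true) k).f : ℚ) ∧
    (vp k).g.eval (s : ℚ) = ((vec s (fun _ => true) k).g : ℚ) := by
  induction k with
  | zero => simp [vp, vec]
  | succ k ih =>
    obtain ⟨ha, hb, hc, hd, he, hf, hg⟩ := ih
    simp only [vp, vec, stepV, if_true, eval_mul, eval_add, eval_sub, eval_X, eval_one, eval_C,
      ha, hb, hc, hd, he, hf, hg]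
    push_cast
    refine ⟨rfl, rfl, rfl, rfl, rfl, rfl, rfl⟩

/-- Values and derivatives at 1. -/
structure S14 where
  a : ℚ
  b : ℚ
  c : ℚ
  d : ℚ
  e : ℚ
  f : ℚ
  g : ℚ
  A : ℚ
  B : ℚ
  C : ℚ
  D : ℚ
  E : ℚ
  F : ℚ
  G : ℚ

/-- One step. -/
def stS (v : S14) : S14 :=
  { a := v.e, b := v.f, c := v.b, d := v.a, e := v.d, f := v.c, g := v.c + v.d - v.g,
    A := v.e + v.E, B := v.f + v.F, C := v.B + v.e, D := v.A + v.f, E := v.D + v.g,
    F := v.C + v.g, G := v.C + v.D + v.g - v.G }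

/-- The sequence of values and derivatives. -/
def sq14 : ℕ → S14
  | 0 => { a := 1, b := 0, c := 0, d := 0, e := 0, f := 0, g := 0,
           A := 0, B := 0, C := 0, D := 0, E := 0, F := 0, G := 0 }
  | k + 1 => stS (sq14 k)

theorem sq14_eq (k : ℕ) :
    sq14 k =
      { a := (vp k).a.eval 1, b := (vp k).b.eval 1, c := (vp k).c.eval 1, d := (vp k).d.eval 1,
        e := (vp k).e.eval 1, f := (vp k).f.eval 1, g := (vp k).g.eval 1,
        A := (derivative (vp k).a).eval 1, B := (derivative (vp k).b).eval 1,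
        C := (derivative (vp k).c).eval 1, D := (derivative (vp k).d).eval 1,
        E := (derivative (vp k).e).eval 1, F := (derivative (vp k).f).eval 1,
        G := (derivative (vp k).g).eval 1 } := by
  induction k with
  | zero => simp [vp, sq14]
  | succ k ih =>
    simp only [sq14, ih, stS, vp, derivative_mul, derivative_add, derivative_sub, derivative_X,
      derivative_one, derivative_C, eval_mul, eval_add, eval_sub, eval_X, eval_one, eval_C,
      eval_zero, S14.mk.injEq]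
    refine ⟨?_, ?_, ?_, ?_, ?_, ?_, ?_, ?_, ?_, ?_, ?_, ?_, ?_, ?_⟩ <;> first | trivial | ring

theorem sq14_six (j : ℕ) :
    sq14 (6 * j) =
      { a := 1, b := 0, c := 0, d := 0, e := 0, f := 0, g := 0,
        A := 3 * j, B := j, C := j, D := -j, E := j, F := j, G := -j } := by
  induction j with
  | zero => simp [sq14]
  | succ j ih =>
    have h : 6 * (j + 1) = 6 * j + 1 + 1 + 1 + 1 + 1 + 1 := by ring
    rw [h]
    simp only [sq14, ih, stS, S14.mk.injEq]
    push_cast
    refine ⟨?_, ?_, ?_, ?_, ?_, ?_, ?_, ?_, ?_, ?_, ?_, ?_, ?_, ?_⟩ <;> first | trivial | ring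

theorem sq14_two (j : ℕ) : (sq14 (6 * j + 2)).A = -(j : ℚ) := by
  have h : 6 * j + 2 = 6 * j + 1 + 1 := by ring
  rw [h]
  simp only [sq14, sq14_six, stS]
  ring

theorem sq14_five (j : ℕ) : (sq14 (6 * j + 5)).A = -((j : ℚ) + 1) := by
  have h : 6 * j + 5 = 6 * j + 1 + 1 + 1 + 1 + 1 := by ring
  rw [h]
  simp only [sq14, sq14_six, stS]
  ring

theorem neg3 (hCCS : S_CCS) (hTRA : S_TRA) (hSQD : S_SQD) : S_NEG3 := by
  intro n hn hn3 R hR
  have hpoly : (X - C 2) * (X - C 3) * R = (vp n).a.comp (X - C 2) := by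
    refine Polynomial.eq_of_infinite_eval_eq _ _ ?_
    have hinj : Function.Injective (fun q : ℕ => ((q + 4 : ℕ) : ℚ)) := by
      intro x y hxy
      have := Nat.cast_injective (R := ℚ) hxy
      omega
    refine (Set.infinite_range_of_injective hinj).mono ?_
    rintro _ ⟨q', rfl⟩
    set q : ℕ := q' + 4 with hq
    have hq4 : 4 ≤ q := by omega
    have h1 := hR q hq4
    have h2 := sq_cnt hCCS hTRA hSQD n hn q hq4
    have h3 := (vp_eval ((q : ℤ) - 2) n).1
    have h4 : (cnt (Csq n) q : ℚ) = (q : ℚ) * (q - 1) * (vp n).a.eval ((q : ℚ) - 2) := by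
      have h5 : ((cnt (Csq n) q : ℤ) : ℚ) = ((q : ℤ) * (q - 1) *
        (vec ((q : ℤ) - 2) (fun _ => true) n).a : ℤ) := by rw [h2]
      push_cast at h5 h3
      rw [h5, ← h3]
    rw [h1] at h4
    have hq' : (4 : ℚ) ≤ q := by exact_mod_cast hq4
    have h8 : (q : ℚ) * (q - 1) ≠ 0 := by
      have : (0 : ℚ) < (q : ℚ) * (q - 1) := by
        apply mul_pos <;> linarith
      exact this.ne'
    change ((X - C 2) * (X - C 3) * R).eval (q : ℚ) = ((vp n).a.comp (X - C 2)).eval (q : ℚ)
    rw [eval_comp]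
    simp only [eval_mul, eval_sub, eval_X, eval_C]
    apply mul_left_cancel₀ h8
    rw [← h4]
    ring
  have hder : R.eval 3 = (derivative (vp n).a).eval 1 := by
    have h1 := congrArg (fun p : ℚ[X] => (derivative p).eval 3) hpoly
    simp only [derivative_mul, derivative_comp, derivative_sub, derivative_X, derivative_C,
      eval_mul, eval_add, eval_sub, eval_X, eval_C, eval_comp, eval_one, sub_zero,
      one_mul] at h1
    norm_num at h1
    exact h1
  have hA : (sq14 n).A = (derivative (vp n).a).eval 1 := by rw [sq14_eq]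
  rw [hder, ← hA]
  have h6 : n = 6 * (n / 6) + 2 ∨ n = 6 * (n / 6) + 5 := by omega
  rcases h6 with h | h
  · rw [h, sq14_two]
    have : 0 < n / 6 := by omega
    have : (0 : ℚ) < (n / 6 : ℕ) := by exact_mod_cast this
    linarith
  · rw [h, sq14_five]
    have : (0 : ℚ) ≤ (n / 6 : ℕ) := Nat.cast_nonneg _
    linarith

end Pool.Agent.P8H79.RC
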