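import Pool.Agent.P8H79.RC.Stm6

/-!
# Project RC, third part: clique sums along a triangle (package SEP3)

`clique_eq` is adapted from `Pool.Agent.P8H20.RC.Cong.clique_dvd` (helper20).
-/

set_option autoImplicit false

namespace Pool.Agent.P8H79.RC

/-- colourings of a graph with a clique -/
theorem clique_eq {W : Type} (H : SimpleGraph W) (k q : ℕ) (x : Fin k → W)
    (hx : ∀ i j, i ≠ j → H.Adj (x i) (x j)) (e₀ : Fin k ↪ Fin q) :
    Nat.card (H.Coloring (Fin q)) =
      q.descFactorial k * Nat.card {C : H.Coloring (Fin q) // ∀ i, C (x i) = e₀ i} := by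
  classical
  let r : H.Coloring (Fin q) → (Fin k ↪ Fin q) := fun C => ⟨fun i => C (x i), fun i j h => by
    by_contra hne
    exact C.valid (hx i j hne) h⟩
  have hr : ∀ C i, r C i = C (x i) := fun C i => rfl
  have hex : ∀ e : Fin k ↪ Fin q, ∃ σ : Equiv.Perm (Fin q), ∀ i, σ (e i) = e₀ i := by
    intro e
    let f : {y // y ∈ Set.range e} ≃ {y // y ∈ Set.range e₀} :=
      (Equiv.ofInjective e e.injective).symm.trans (Equiv.ofInjective e₀ e₀.injective)
    refine ⟨f.extendSubtype, fun i => ?_⟩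
    rw [Equiv.extendSubtype_apply_of_mem f (e i) ⟨i, rfl⟩]
    change ((Equiv.ofInjective e₀ e₀.injective)
      ((Equiv.ofInjective e e.injective).symm ⟨e i, _⟩) : Fin q) = e₀ i
    have : (Equiv.ofInjective e e.injective).symm ⟨e i, ⟨i, rfl⟩⟩ = i := by
      rw [Equiv.symm_apply_eq]
      rfl
    rw [this]
    rfl
  choose σ hσ using hex
  let act : Equiv.Perm (Fin q) → H.Coloring (Fin q) → H.Coloring (Fin q) := fun τ C =>
    SimpleGraph.Coloring.mk (fun v => τ (C v)) (fun {v w} h e => C.valid h (τ.injective e))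
  have hact : ∀ τ C v, act τ C v = τ (C v) := fun τ C v => rfl
  have hfib : ∀ e : Fin k ↪ Fin q, Nonempty ({C // r C = e} ≃ {C // r C = e₀}) := by
    intro e
    refine ⟨{ toFun := fun C => ⟨act (σ e) C.1, ?_⟩, invFun := fun C => ⟨act (σ e).symm C.1, ?_⟩,
              left_inv := fun C => ?_, right_inv := fun C => ?_ }⟩
    · apply DFunLike.ext
      intro i
      rw [hr, hact, ← hr, C.2, hσ]
    · apply DFunLike.ext
      intro i
      rw [hr, hact, ← hr, C.2, ← hσ e, Equiv.symm_apply_apply]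
    · apply Subtype.ext
      apply DFunLike.ext
      intro v
      change (σ e).symm (σ e (C.1 v)) = C.1 v
      rw [Equiv.symm_apply_apply]
    · apply Subtype.ext
      apply DFunLike.ext
      intro v
      change σ e ((σ e).symm (C.1 v)) = C.1 v
      rw [Equiv.apply_symm_apply]
  let E : H.Coloring (Fin q) ≃ (Fin k ↪ Fin q) × {C // r C = e₀} :=
    (Equiv.sigmaFiberEquiv r).symm.trans
      ((Equiv.sigmaCongrRight fun e => Classical.choice (hfib e)).trans (Equiv.sigmaEquivProd _ _))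
  have E2 : {C // r C = e₀} ≃ {C : H.Coloring (Fin q) // ∀ i, C (x i) = e₀ i} :=
    Equiv.subtypeEquivRight fun C => DFunLike.ext_iff
  rw [Nat.card_congr E, Nat.card_prod, Nat.card_eq_fintype_card (α := Fin k ↪ Fin q),
    Fintype.card_embedding_eq, Fintype.card_fin, Fintype.card_fin, Nat.card_congr E2]

/-- gluing of colourings -/
theorem glue_card {V : Type} (G : SimpleGraph V) (A B : Set V) (q : ℕ) (e : Fin 3 → V)
    (c : Fin 3 → Fin q) (h1 : A ∪ B = Set.univ) (h2 : A ∩ B = Set.range e)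
    (h3 : ∀ u v, G.Adj u v → (u ∈ A ∧ v ∈ A) ∨ (u ∈ B ∧ v ∈ B))
    (hA : ∀ i, e i ∈ A) (hB : ∀ i, e i ∈ B) :
    Nat.card {C : G.Coloring (Fin q) // ∀ i, C (e i) = c i} =
      Nat.card {C : (G.induce A).Coloring (Fin q) // ∀ i, C ⟨e i, hA i⟩ = c i} *
      Nat.card {C : (G.induce B).Coloring (Fin q) // ∀ i, C ⟨e i, hB i⟩ = c i} := by
  classical
  rw [← Nat.card_prod]
  have hBn : ∀ v, v ∉ A → v ∈ B := by
    intro v hv
    have : v ∈ A ∪ B := by rw [h1]; trivial
    exact this.resolve_left hv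
  let g : (G.induce A).Coloring (Fin q) → (G.induce B).Coloring (Fin q) → V → Fin q :=
    fun C1 C2 v => if h : v ∈ A then C1 ⟨v, h⟩ else C2 ⟨v, hBn v h⟩
  have gA : ∀ C1 C2 v (h : v ∈ A), g C1 C2 v = C1 ⟨v, h⟩ := fun C1 C2 v h => dif_pos h
  have gB : ∀ (C1 : {C : (G.induce A).Coloring (Fin q) // ∀ i, C ⟨e i, hA i⟩ = c i})
      (C2 : {C : (G.induce B).Coloring (Fin q) // ∀ i, C ⟨e i, hB i⟩ = c i}) v (h : v ∈ B),
      g C1.1 C2.1 v = C2.1 ⟨v, h⟩ := by
    intro C1 C2 v h
    by_cases hv : v ∈ A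
    · rw [gA _ _ v hv]
      have : v ∈ Set.range e := by rw [← h2]; exact ⟨hv, h⟩
      obtain ⟨i, rfl⟩ := this
      rw [C1.2 i, C2.2 i]
    · exact dif_neg hv
  refine Nat.card_congr
    { toFun := fun C => ⟨⟨SimpleGraph.Coloring.mk (fun v : A => C.1 v.1) (fun {v w} h => C.1.valid h),
          fun i => C.2 i⟩,
        ⟨SimpleGraph.Coloring.mk (fun v : B => C.1 v.1) (fun {v w} h => C.1.valid h), fun i => C.2 i⟩⟩
      invFun := fun D => ⟨SimpleGraph.Coloring.mk (g D.1.1 D.2.1) (fun {v w} h => by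
          rcases h3 v w h with ⟨hv, hw⟩ | ⟨hv, hw⟩
          · rw [gA _ _ v hv, gA _ _ w hw]
            exact D.1.1.valid (show (G.induce A).Adj ⟨v, hv⟩ ⟨w, hw⟩ from h)
          · rw [gB D.1 D.2 v hv, gB D.1 D.2 w hw]
            exact D.2.1.valid (show (G.induce B).Adj ⟨v, hv⟩ ⟨w, hw⟩ from h)), fun i => by
          change g D.1.1 D.2.1 (e i) = c i
          rw [gA _ _ _ (hA i)]
          exact D.1.2 i⟩
      left_inv := fun C => by
        apply Subtype.ext
        apply DFunLike.ext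
        intro v
        change g _ _ v = C.1 v
        by_cases hv : v ∈ A
        · rw [gA _ _ v hv]
          rfl
        · exact dif_neg hv
      right_inv := fun D => by
        refine Prod.ext ?_ ?_
        · apply Subtype.ext
          apply DFunLike.ext
          intro v
          change g D.1.1 D.2.1 v.1 = D.1.1 v
          rw [gA _ _ v.1 v.2]
        · apply Subtype.ext
          apply DFunLike.ext
          intro v
          change g D.1.1 D.2.1 v.1 = D.2.1 v
          rw [gB D.1 D.2 v.1 v.2] }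

theorem sep3 : S_SEP3 := by
  intro V _ G A B e he h1 h2 h3 q hq
  have hmem : ∀ i, e i ∈ A ∩ B := fun i => by
    rw [h2]
    exact ⟨i, rfl⟩
  have hA : ∀ i, e i ∈ A := fun i => (hmem i).1
  have hB : ∀ i, e i ∈ B := fun i => (hmem i).2
  let e₀ : Fin 3 ↪ Fin q := Fin.castLEEmb hq
  have hd : q.descFactorial 3 = q * (q - 1) * (q - 2) := by
    simp only [Nat.descFactorial]
    have : q - 0 = q := by omega
    rw [this]
    ring
  have c0 := clique_eq G 3 q e he e₀
  have c1 := clique_eq (G.induce A) 3 q (fun i => ⟨e i, hA i⟩) (fun i j h => he i j h) e₀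
  have c2 := clique_eq (G.induce B) 3 q (fun i => ⟨e i, hB i⟩) (fun i j h => he i j h) e₀
  have c3 := glue_card G A B q e e₀ h1 h2 h3 hA hB
  unfold cnt
  rw [c0, c1, c2, c3, ← hd]
  ring

end Pool.Agent.P8H79.RC
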