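import Pool.Agent.P8H79.RC.Fin2
import Pool.Agent.P8H79.RC.Ind3
import Pool.Agent.P8H79.RC.Sep3
import Pool.Agent.P8H79.RC.Neg3

/-!
# Project RC, third part: `n = 2` modulo 3
-/

set_option autoImplicit false

namespace Pool.Agent.P8H79.RC

theorem neg3_ok : S_NEG3 := neg3 P8H81.RC.ccs P8H81.RC.tra P8H7.RC.sqd

/-- Every `K_4` is adjacent to a connected set of other vertices. -/
theorem every_k4 (n : ℕ) (hn : 10 ≤ n) (h3 : n % 3 = 2) (V : Type) [Finite V] (G : SimpleGraph V)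
    (hGH : ∀ q, cnt G q = cnt (Csq n) q) (K : Fin 4 → V)
    (hK : ∀ i j, i ≠ j → G.Adj (K i) (K j)) :
    ∃ C : Set V, (G.induce C).Connected ∧ ∀ i, K i ∉ C ∧ ∃ u ∈ C, G.Adj (K i) u := by
  by_contra hcon
  have h : ∀ C : Set V, (G.induce C).Connected → (∀ i, K i ∉ C) →
      ∃ i, ∀ u ∈ C, ¬ G.Adj (K i) u := by
    intro C hC hKC
    by_contra h1
    apply hcon
    refine ⟨C, hC, fun i => ⟨hKC i, ?_⟩⟩
    by_contra h2
    exact h1 ⟨i, fun u hu huK => h2 ⟨u, hu, huK⟩⟩
  obtain ⟨R, hR0, hR⟩ := ind3 sep3 V G K hK h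
  have h4 := neg3_ok n hn h3 R (fun q hq => by rw [← hGH q]; exact hR q hq)
  linarith

/-- Graphs without `K_5` minor. -/
theorem fin_minor (n : ℕ) (hn : 12 ≤ n) (h3 : n % 3 = 2) (V : Type) [Finite V] (G : SimpleGraph V)
    (hM : ¬ ∃ f : Fin 5 → Set V, (∀ i, (G.induce (f i)).Connected) ∧
      ∀ i j, i ≠ j → Disjoint (f i) (f j) ∧ ∃ u ∈ f i, ∃ v ∈ f j, G.Adj u v)
    (hGH : ∀ q, cnt G q = cnt (Csq n) q) : Nonempty (G ≃g Csq n) := by
  by_cases hK : G.CliqueFree 4
  · exact fin_twelve n hn V G (Or.inl hK) hGH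
  · exfalso
    let K := SimpleGraph.topEmbeddingOfNotCliqueFree hK
    have hadj : ∀ i j, i ≠ j → G.Adj (K i) (K j) := fun i j hij => K.map_rel_iff.2 hij
    have hinj : Function.Injective K := K.injective
    obtain ⟨C, hC, hKC⟩ := every_k4 n (by omega) h3 V G hGH K hadj
    apply hM
    refine ⟨Fin.cases C (fun i => {K i}), ?_, ?_⟩
    · intro i
      refine Fin.cases ?_ (fun i => ?_) i
      · exact hC
      · change (G.induce ({K i} : Set V)).Connected
        have : Nonempty ({K i} : Set V) := ⟨⟨K i, rfl⟩⟩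
        refine ⟨fun a b => ?_⟩
        rw [Subsingleton.elim a b]
    · intro i j
      refine Fin.cases ?_ (fun i => ?_) i
      · refine Fin.cases ?_ (fun j => ?_) j
        · exact fun h => absurd rfl h
        · intro _
          change Disjoint C {K j} ∧ ∃ u ∈ C, ∃ v ∈ ({K j} : Set V), G.Adj u v
          obtain ⟨h1, u, hu, huK⟩ := hKC j
          exact ⟨Set.disjoint_singleton_right.2 h1, u, hu, K j, rfl, huK.symm⟩
      · refine Fin.cases ?_ (fun j => ?_) j
        · intro _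
          change Disjoint {K i} C ∧ ∃ u ∈ ({K i} : Set V), ∃ v ∈ C, G.Adj u v
          obtain ⟨h1, u, hu, huK⟩ := hKC i
          exact ⟨Set.disjoint_singleton_left.2 h1, K i, rfl, u, hu, huK⟩
        · intro hij
          have hij' : i ≠ j := fun h => hij (by rw [h])
          change Disjoint ({K i} : Set V) {K j} ∧
            ∃ u ∈ ({K i} : Set V), ∃ v ∈ ({K j} : Set V), G.Adj u v
          exact ⟨Set.disjoint_singleton.2 (fun h => hij' (hinj h)), K i, rfl, K j, rfl,
            hadj i j hij'⟩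

end Pool.Agent.P8H79.RC
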