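import Pool.Agent.P8H79.RC.Fin3

/-!
# Project RC, third part: `n = 1` modulo 3, graphs without `K_5` minor have at most one `K_4`
-/

set_option autoImplicit false

namespace Pool.Agent.P8H79.RC

open Finset Polynomial

theorem sq14_one (j : ℕ) : (sq14 (6 * j + 1)).A = (j : ℚ) := by
  simp only [sq14, sq14_six, stS]
  ring

theorem sq14_four (j : ℕ) : (sq14 (6 * j + 4)).A = (j : ℚ) + 1 := by
  have h : 6 * j + 4 = 6 * j + 1 + 1 + 1 + 1 := by ring
  rw [h]
  simp only [sq14, sq14_six, stS]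
  ring

theorem eval_three (n : ℕ) (hn : 10 ≤ n) (R : ℚ[X])
    (hR : ∀ q : ℕ, 4 ≤ q →
      (cnt (Csq n) q : ℚ) = (q : ℚ) * (q - 1) * (q - 2) * (q - 3) * R.eval (q : ℚ)) :
    R.eval 3 = (sq14 n).A := by
  have hpoly : (X - C 2) * (X - C 3) * R = (vp n).a.comp (X - C 2) := by
    refine Polynomial.eq_of_infinite_eval_eq _ _ ?_
    have hinj : Function.Injective (fun q : ℕ => ((q + 4 : ℕ) : ℚ)) := by
      intro x y hxy
      have := Nat.cast_injective (R := ℚ) hxy
      omega
    refine (Set.infinite_range_of_injective hinj).mono ?_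
    rintro _ ⟨q', rfl⟩
    set q : ℕ := q' + 4 with hq
    have hq4 : 4 ≤ q := by omega
    have h1 := hR q hq4
    have h2 := sq_cnt P8H81.RC.ccs P8H81.RC.tra P8H7.RC.sqd n hn q hq4
    have h3 := (vp_eval ((q : ℤ) - 2) n).1
    have h4 : (cnt (Csq n) q : ℚ) = (q : ℚ) * (q - 1) * (vp n).a.eval ((q : ℚ) - 2) := by
      have h5 : ((cnt (Csq n) q : ℤ) : ℚ) = ((q : ℤ) * (q - 1) *
        (vec ((q : ℤ) - 2) (fun _ => true) n).a : ℤ) := by rw [h2]
      push_cast at h5 h3
      rw [h5, ← h3]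
    rw [h1] at h4
    have hq' : (4 : ℚ) ≤ q := by exact_mod_cast hq4
    have h8 : (q : ℚ) * (q - 1) ≠ 0 := by
      have : (0 : ℚ) < (q : ℚ) * (q - 1) := by
        apply mul_pos <;> linarith
      exact this.ne'
    change ((X - C 2) * (X - C 3) * R).eval (q : ℚ) = ((vp n).a.comp (X - C 2)).eval (q : ℚ)
    rw [eval_comp]
    simp only [eval_mul, eval_sub, eval_X, eval_C]
    apply mul_left_cancel₀ h8
    rw [← h4]
    ring
  have hder : R.eval 3 = (derivative (vp n).a).eval 1 := by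
    have h1 := congrArg (fun p : ℚ[X] => (derivative p).eval 3) hpoly
    simp only [derivative_mul, derivative_comp, derivative_sub, derivative_X, derivative_C,
      eval_mul, eval_add, eval_sub, eval_X, eval_C, eval_comp, eval_one, sub_zero,
      one_mul] at h1
    norm_num at h1
    exact h1
  rw [hder, sq14_eq]

theorem pos_three (n : ℕ) (hn : 10 ≤ n) (hn3 : n % 3 = 1) (R : ℚ[X])
    (hR : ∀ q : ℕ, 4 ≤ q →
      (cnt (Csq n) q : ℚ) = (q : ℚ) * (q - 1) * (q - 2) * (q - 3) * R.eval (q : ℚ)) :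
    0 < R.eval 3 := by
  rw [eval_three n hn R hR]
  have h6 : n = 6 * (n / 6) + 1 ∨ n = 6 * (n / 6) + 4 := by omega
  rcases h6 with h | h
  · rw [h, sq14_one]
    have : 0 < n / 6 := by omega
    exact_mod_cast this
  · rw [h, sq14_four]
    have : (0 : ℚ) ≤ (n / 6 : ℕ) := Nat.cast_nonneg _
    linarith

/-- no 3-colourings with a `K_4` -/
theorem cnt_k4 (V : Type) [Finite V] (G : SimpleGraph V) (e : Fin 4 → V)
    (he : ∀ i j, i ≠ j → G.Adj (e i) (e j)) : cnt G 3 = 0 := by
  unfold cnt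
  have : IsEmpty (G.Coloring (Fin 3)) := ⟨fun C => by
    have hinj : Function.Injective (fun i => C (e i)) := fun i j h => by
      by_contra hne
      exact C.valid (he i j hne) h
    have := Fintype.card_le_of_injective _ hinj
    simp at this⟩
  exact Nat.card_of_isEmpty

/-- Two `K_4`, the first of which is separated by its triangles. -/
theorem two_k4 (V : Type) [Finite V] (G : SimpleGraph V) (K K' : Fin 4 → V)
    (hK : ∀ i j, i ≠ j → G.Adj (K i) (K j)) (hK' : ∀ i j, i ≠ j → G.Adj (K' i) (K' j))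
    (hC : ∀ C : Set V, (G.induce C).Connected → (∀ i, K i ∉ C) → ∃ i, ∀ u ∈ C, ¬ G.Adj (K i) u)
    (x : V) (hxK : x ∉ Set.range K) (hxK' : x ∈ Set.range K') :
    ∃ R : ℚ[X], R.eval 3 = 0 ∧
      ∀ q : ℕ, 4 ≤ q → (cnt G q : ℚ) = (q : ℚ) * (q - 1) * (q - 2) * (q - 3) * R.eval (q : ℚ) := by
  have hx' : x ∈ (Set.range K)ᶜ := hxK
  set H := G.induce (Set.range K)ᶜ with hH
  let c := H.connectedComponentMk ⟨x, hx'⟩
  have hconn : (G.induce (Subtype.val '' c.supp)).Connected :=
    connected_image G _ _ c.connected_toSimpleGraph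
  set C : Set V := Subtype.val '' c.supp with hCdef
  have hxC : x ∈ C := ⟨⟨x, hx'⟩, rfl, rfl⟩
  have hKC : ∀ i, K i ∉ C := by
    rintro i ⟨y, -, hy⟩
    exact y.2 ⟨i, hy.symm⟩
  have hclosed : ∀ u ∈ C, ∀ v, G.Adj u v → v ∉ C → ∃ j, v = K j := by
    rintro u ⟨y, hy, rfl⟩ v hv hvC
    by_contra hne
    simp only [not_exists] at hne
    have hv' : v ∈ (Set.range K)ᶜ := fun ⟨i, hi⟩ => hne i hi.symm
    apply hvC
    refine ⟨⟨v, hv'⟩, ?_, rfl⟩
    have hadj : H.Adj y ⟨v, hv'⟩ := hv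
    rw [SimpleGraph.ConnectedComponent.mem_supp_iff] at hy ⊢
    rw [← hy]
    exact (SimpleGraph.ConnectedComponent.sound hadj.reachable).symm
  obtain ⟨i, hi⟩ := hC C hconn hKC
  set e : Fin 3 → V := fun j => K (i.succAbove j) with he
  have heK : ∀ j, j ≠ i → K j ∈ Set.range e := by
    intro j hj
    obtain ⟨l, hl⟩ := Fin.exists_succAbove_eq hj
    exact ⟨l, by rw [he]; simp only [hl]⟩
  set A : Set V := C ∪ Set.range e with hA
  set B : Set V := Cᶜ with hB
  have headj : ∀ j l, j ≠ l → G.Adj (e j) (e l) := fun j l hjl =>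
    hK _ _ (fun h => hjl (Fin.succAbove_right_injective h))
  have h1 : A ∪ B = Set.univ := by
    rw [hA, hB, Set.eq_univ_iff_forall]
    intro v
    by_cases hv : v ∈ C
    · exact Or.inl (Or.inl hv)
    · exact Or.inr hv
  have h2 : A ∩ B = Set.range e := by
    rw [hA, hB]
    ext v
    constructor
    · rintro ⟨h | h, h'⟩
      · exact absurd h h'
      · exact h
    · rintro ⟨j, rfl⟩
      exact ⟨Or.inr ⟨j, rfl⟩, hKC _⟩
  have h3 : ∀ u v, G.Adj u v → (u ∈ A ∧ v ∈ A) ∨ (u ∈ B ∧ v ∈ B) := by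
    intro u v huv
    by_cases hu : u ∈ C
    · by_cases hv : v ∈ C
      · exact Or.inl ⟨Or.inl hu, Or.inl hv⟩
      · obtain ⟨j, rfl⟩ := hclosed u hu v huv hv
        refine Or.inl ⟨Or.inl hu, Or.inr (heK j ?_)⟩
        rintro rfl
        exact hi u hu huv.symm
    · by_cases hv : v ∈ C
      · obtain ⟨j, rfl⟩ := hclosed v hv u huv.symm hu
        refine Or.inl ⟨Or.inr (heK j ?_), Or.inl hv⟩
        rintro rfl
        exact hi v hv huv
      · exact Or.inr ⟨hu, hv⟩
  have hsep := sep3 V G A B e headj h1 h2 h3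
  obtain ⟨F, -, hF⟩ := exists_quot A (G.induce A) (fun j => ⟨e j, Or.inr ⟨j, rfl⟩⟩)
    (fun j l hjl => headj j l hjl)
  have hK'A : ∀ j, K' j ∈ A := by
    intro j
    obtain ⟨j0, hj0⟩ := hxK'
    by_cases hj : j = j0
    · rw [hj, hj0]
      exact Or.inl hxC
    · have hadj : G.Adj x (K' j) := by
        rw [← hj0]
        exact hK' j0 j (Ne.symm hj)
      by_cases hv : K' j ∈ C
      · exact Or.inl hv
      · obtain ⟨l, hl⟩ := hclosed x hxC (K' j) hadj hv
        rw [hl] at hadj ⊢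
        refine Or.inr (heK l ?_)
        rintro rfl
        exact hi x hxC hadj.symm
  have hA3 : cnt (G.induce A) 3 = 0 :=
    cnt_k4 A (G.induce A) (fun j => ⟨K' j, hK'A j⟩) (fun j l hjl => hK' j l hjl)
  have hF3 : F.eval 3 = 0 := by
    have h9 := hF 3
    rw [hA3] at h9
    push_cast at h9
    linarith
  obtain ⟨R, -, hR⟩ := ind3 sep3 B (G.induce B) (fun j => ⟨K j, hKC j⟩)
    (fun j l hjl => hK j l hjl) (by
      intro D hD hKD
      obtain ⟨j, hj⟩ := hC (Subtype.val '' D) (connected_image G B D hD) (by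
        rintro j ⟨y, hy, hyj⟩
        apply hKD j
        have : y = ⟨K j, hKC j⟩ := Subtype.ext hyj
        rw [← this]
        exact hy)
      exact ⟨j, fun u hu => hj u.1 ⟨u, hu, rfl⟩⟩)
  refine ⟨F * R, ?_, fun q hq => ?_⟩
  · rw [eval_mul, hF3, zero_mul]
  · have h5 := hsep q (by omega)
    have h6 : (cnt G q : ℚ) * ((q : ℚ) * (q - 1) * (q - 2)) =
        (cnt (G.induce A) q : ℚ) * (cnt (G.induce B) q : ℚ) := by
      have h7 : ((cnt G q * (q * (q - 1) * (q - 2)) : ℕ) : ℚ) =
        ((cnt (G.induce A) q * cnt (G.induce B) q : ℕ) : ℚ) := by rw [h5]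
      rw [Nat.cast_mul, Nat.cast_mul, Nat.cast_mul, Nat.cast_mul,
        Nat.cast_sub (show 1 ≤ q by omega), Nat.cast_sub (show 2 ≤ q by omega)] at h7
      exact_mod_cast h7
    rw [hF q, hR q hq] at h6
    have hq' : (4 : ℚ) ≤ q := by exact_mod_cast hq
    have h8 : (q : ℚ) * (q - 1) * (q - 2) ≠ 0 := by
      have : (0 : ℚ) < (q : ℚ) * (q - 1) * (q - 2) := by
        apply mul_pos
        · apply mul_pos <;> linarith
        · linarith
      exact this.ne'
    apply mul_right_cancel₀ h8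
    rw [h6, eval_mul]
    ring

/-- no `K_5` minor: no connected set is adjacent to all vertices of a `K_4` -/
theorem sep_of_minor {V : Type} (G : SimpleGraph V)
    (hM : ¬ ∃ f : Fin 5 → Set V, (∀ i, (G.induce (f i)).Connected) ∧
      ∀ i j, i ≠ j → Disjoint (f i) (f j) ∧ ∃ u ∈ f i, ∃ v ∈ f j, G.Adj u v)
    (K : Fin 4 → V) (hadj : ∀ i j, i ≠ j → G.Adj (K i) (K j)) :
    ∀ C : Set V, (G.induce C).Connected → (∀ i, K i ∉ C) → ∃ i, ∀ u ∈ C, ¬ G.Adj (K i) u := by
  intro C hC hKC'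
  by_contra hcon
  have hKC : ∀ i, K i ∉ C ∧ ∃ u ∈ C, G.Adj (K i) u := by
    intro i
    refine ⟨hKC' i, ?_⟩
    by_contra h2
    exact hcon ⟨i, fun u hu huK => h2 ⟨u, hu, huK⟩⟩
  have hinj : Function.Injective K := fun i j h => by
    by_contra hne
    exact (hadj i j hne).ne h
  apply hM
  refine ⟨Fin.cases C (fun i => {K i}), ?_, ?_⟩
  · intro i
    refine Fin.cases ?_ (fun i => ?_) i
    · exact hC
    · change (G.induce ({K i} : Set V)).Connected
      have : Nonempty ({K i} : Set V) := ⟨⟨K i, rfl⟩⟩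
      refine ⟨fun a b => ?_⟩
      rw [Subsingleton.elim a b]
  · intro i j
    refine Fin.cases ?_ (fun i => ?_) i
    · refine Fin.cases ?_ (fun j => ?_) j
      · exact fun h => absurd rfl h
      · intro _
        change Disjoint C {K j} ∧ ∃ u ∈ C, ∃ v ∈ ({K j} : Set V), G.Adj u v
        obtain ⟨h1, u, hu, huK⟩ := hKC j
        exact ⟨Set.disjoint_singleton_right.2 h1, u, hu, K j, rfl, huK.symm⟩
    · refine Fin.cases ?_ (fun j => ?_) j
      · intro _
        change Disjoint {K i} C ∧ ∃ u ∈ ({K i} : Set V), ∃ v ∈ C, G.Adj u v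
        obtain ⟨h1, u, hu, huK⟩ := hKC i
        exact ⟨Set.disjoint_singleton_left.2 h1, K i, rfl, u, hu, huK⟩
      · intro hij
        have hij' : i ≠ j := fun h => hij (by rw [h])
        change Disjoint ({K i} : Set V) {K j} ∧
          ∃ u ∈ ({K i} : Set V), ∃ v ∈ ({K j} : Set V), G.Adj u v
        exact ⟨Set.disjoint_singleton.2 (fun h => hij' (hinj h)), K i, rfl, K j, rfl,
          hadj i j hij'⟩

theorem enum_clique {V : Type} (G : SimpleGraph V) (S : Finset V) (hS : G.IsNClique 4 S) :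
    ∃ K : Fin 4 → V, (∀ i j, i ≠ j → G.Adj (K i) (K j)) ∧ ∀ v, v ∈ Set.range K ↔ v ∈ S := by
  classical
  let φ := S.equivFinOfCardEq hS.card_eq
  refine ⟨fun i => (φ.symm i : V), fun i j hij => ?_, fun v => ?_⟩
  · refine hS.isClique (φ.symm i).2 (φ.symm j).2 ?_
    intro h
    exact hij (φ.symm.injective (Subtype.ext h))
  · constructor
    · rintro ⟨i, rfl⟩
      exact (φ.symm i).2
    · intro hv
      exact ⟨φ ⟨v, hv⟩, by simp⟩

/-- `n = 1` modulo 3: a graph without `K_5` minor is `C_n ^ 2` or has exactly one `K_4` and exactly two induced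
4-cycles. -/
theorem fin_one (n : ℕ) (hn : 12 ≤ n) (h1 : n % 3 = 1) (V : Type) [Finite V] (G : SimpleGraph V)
    (hM : ¬ ∃ f : Fin 5 → Set V, (∀ i, (G.induce (f i)).Connected) ∧
      ∀ i j, i ≠ j → Disjoint (f i) (f j) ∧ ∃ u ∈ f i, ∃ v ∈ f j, G.Adj u v)
    (hGH : ∀ q, cnt G q = cnt (Csq n) q) :
    Nonempty (G ≃g Csq n) ∨ ((∃! S : Finset V, G.IsNClique 4 S) ∧
      {S : Finset V | Nonempty (SimpleGraph.cycleGraph 4 ≃g G.induce (S : Set V))}.ncard = 2) := by
  classical
  by_cases hK : G.CliqueFree 4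
  · exact Or.inl (fin_twelve n hn V G (Or.inl hK) hGH)
  · right
    have hex : ∃! S : Finset V, G.IsNClique 4 S := by
      unfold SimpleGraph.CliqueFree at hK
      push Not at hK
      obtain ⟨S, hS⟩ := hK
      refine ⟨S, hS, fun S' hS' => ?_⟩
      by_contra hne
      have hx : ∃ x ∈ S', x ∉ S := by
        by_contra h
        push Not at h
        exact hne (Finset.eq_of_subset_of_card_le h (by rw [hS.card_eq, hS'.card_eq]))
      obtain ⟨x, hx', hxS⟩ := hx
      obtain ⟨K, hKa, hKS⟩ := enum_clique G S hS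
      obtain ⟨K', hKa', hKS'⟩ := enum_clique G S' hS'
      obtain ⟨R, hR0, hR⟩ := two_k4 V G K K' hKa hKa' (sep_of_minor G hM K hKa) x
        (fun h => hxS ((hKS x).1 h)) ((hKS' x).2 hx')
      have h4 := pos_three n (by omega) h1 R (fun q hq => by rw [← hGH q]; exact hR q hq)
      rw [hR0] at h4
      exact lt_irrefl _ h4
    refine ⟨hex, ?_⟩
    have : Fintype V := Fintype.ofFinite V
    have h5 := holes_k4 cmpq_ok P8H7.RC9.sq9 P8H59.RC.card n (by omega) V G hGH
    have h6 : cl G Finset.univ 4 = 1 := by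
      unfold cl
      rw [Finset.card_eq_one]
      obtain ⟨S, hS, hu⟩ := hex
      refine ⟨S, ?_⟩
      ext S'
      simp only [Finset.mem_filter, Finset.mem_powersetCard, Finset.mem_singleton]
      constructor
      · rintro ⟨⟨-, h7⟩, h8⟩
        exact hu S' ⟨h8, h7⟩
      · rintro rfl
        exact ⟨⟨Finset.subset_univ _, hS.card_eq⟩, hS.isClique⟩
    rw [h6] at h5
    have h7 : {S : Finset V | Nonempty (SimpleGraph.cycleGraph 4 ≃g G.induce (S : Set V))} =
        ((((Finset.univ : Finset V).powersetCard 4).filter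
          (fun S : Finset V => Nonempty (SimpleGraph.cycleGraph 4 ≃g G.induce (S : Set V))) :
          Finset (Finset V)) : Set (Finset V)) := by
      ext S
      simp only [Set.mem_setOf_eq, Finset.coe_filter, Finset.mem_powersetCard]
      constructor
      · rintro ⟨f⟩
        refine ⟨⟨Finset.subset_univ _, ?_⟩, ⟨f⟩⟩
        have h8 := Nat.card_congr f.toEquiv
        rw [Nat.card_eq_fintype_card, Fintype.card_fin] at h8
        have h9 : Nat.card ((S : Set V) : Type) = S.card := by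
          simp
        omega
      · exact fun h => h.2
    rw [h7, Set.ncard_coe_finset]
    unfold holes at h5
    omega

end Pool.Agent.P8H79.RC
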