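import Pool.Agent.P8H79.RC.Stm

/-!
# Project RC (problem MP_8cb124_co): further packages.

They give: for EVERY `n >= 64` every graph without `K_4` which is chromatically equivalent to the
square of the `n`-cycle is isomorphic to it (and every graph if `3 ∣ n`).
-/

set_option autoImplicit false

namespace Pool.Agent.P8H79.RC

open Finset

/-- **VCG** (30 lines). The vectors are polynomials in `s`: induction on `N` for all seven components. -/
def S_VCG : Prop :=
  ∀ (s t : ℤ) (b : ℕ → Bool) (N : ℕ), (s - t) ∣ (vec s b N).a - (vec t b N).a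

/-- **NZA** (80 lines). At `s = -2`, pivot steps only. PROOF: signs alternate:
`(-1)^k (a,b,c,d,e,f,g)` at `k = 4, 5, 6, ...` is `(6,6,9,7,12,9,13)`, `(24,18,30,21,32,30,36)`,
`(64,60,78,66,87,78,93)`, `(174,156,201,170,213,201,228)`, ...; find an invariant set of linear
inequalities (the entries grow by a factor tending to 2, e.g. `0 < a ≤ c, d ≤ e, f ≤ g ≤ (6/5) ...`), or
exact closed formulas (the characteristic polynomial divides `x^a (x+1)^b (x+2) (x^2-x+2)`-like
small factors; `f = c`; the numbers near `k = 20` are `k 2^k`-free, ratio -2). -/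
def S_NZA : Prop :=
  ∀ N : ℕ, 10 ≤ N → (vec (-2) (fun _ => true) N).a ≠ 0

/-- **NZB** (80 lines). At `s = -1`, pivot steps only. Closed forms: `(-1)^k a_k = L_k - k` for odd `k`
and `L_k - k - 1` for even `k >= 4` (`L` Lucas numbers: 2, 1, 3, 4, 7, ...), and
`c_k - e_k = -(F_{k-2} + 1)` for even `k`, `F_{k-2} - 1` for odd `k >= 5` (`F` Fibonacci numbers); all
components are combinations of Fibonacci numbers, `k (-1)^k` and constants (values at
`k = 10, 11, 12`: `(112,100,166,133,188,166,221)`, `(-188,-166,-276,-220,-309,-276,-364)`,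
`(309,276,452,364,508,452,596)`). -/
def S_NZB : Prop :=
  ∀ N : ℕ, 10 ≤ N → (vec (-1) (fun _ => true) N).a ≠ 0 ∧
    (vec (-1) (fun _ => true) (N - 1)).c ≠ (vec (-1) (fun _ => true) (N - 1)).e

/-- **CONG** (120 lines). The number of `q`-colourings of a disconnected graph is divisible by `q^2`.
PROOF. Let `A` be the vertices reachable from one vertex, `B` the others (both non-empty):
`Z/q x Z/q` acts freely on the colourings, by adding one constant to the colours of `A` and another
one to those of `B` (colours in `ZMod q`, `q >= 1`). -/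
def S_CONG : Prop :=
  ∀ (V : Type) [Finite V] [Nonempty V] (G : SimpleGraph V), ¬ G.Connected →
    ∀ q : ℕ, 1 ≤ q → q ^ 2 ∣ cnt G q

/-- **DEGG** (120 lines). If `w` has exactly one neighbour and there is an edge not through `w`, then
`q (q-1)^2` divides the number of `q`-colourings. PROOF: the number is `(q-1)` times the number of
colourings of `G - w`, which is `q (q-1)` times the number of colourings of `G - w` with prescribed
different colours at the ends of the edge. -/
def S_DEGG : Prop :=
  ∀ (V : Type) [Finite V] (G : SimpleGraph V) (w a : V), (∀ v, G.Adj w v ↔ v = a) →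
    (∃ x y, G.Adj x y ∧ w ≠ x ∧ w ≠ y) →
    ∀ q : ℕ, 2 ≤ q → (q * (q - 1) ^ 2) ∣ cnt G q

end Pool.Agent.P8H79.RC
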