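import Pool.Agent.P8H79.RC.Stm2

/-!
# Project RC (problem MP_8cb124_co): the relation between induced 4-cycles and `K_4`.
-/

set_option autoImplicit false

namespace Pool.Agent.P8H79.RC

open Finset Polynomial

/-- **HQ** (150 lines; `theorem hq : S_KB → S_HQ`, or with `S_CHO` too). For EVERY graph, modulo `X^4`.
PROOF. As for HX with `l = 4`: `Z univ = prod over T of Λ(T)`, `Λ(T) = 1` mod `X^(|T|-1)` (KB), so only
`|T| ≤ 4` matters modulo `X^4`; `Λ = 1 - X` for an edge, `(1 - 2X)/(1 - X)^2` for a triangle,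
`1 + X^3` for an induced 4-cycle, `(1-X)^3 (1-3X) / (1-2X)^3 = 1 - 2 X^3` modulo `X^4` for `K_4`, and
`1` for all other sets of at most 4 vertices (chordal). -/
def S_HQ : Prop :=
  ∀ (V : Type) [Fintype V] [DecidableEq V] (G : SimpleGraph V) (w : Finset V → ℚ)
    (Z : Finset V → Polynomial ℚ), ZFam G w Z →
    (X : Polynomial ℚ) ^ 4 ∣
      Z Finset.univ * (1 - X) ^ (2 * cl G Finset.univ 3) -
      (1 - X) ^ (cl G Finset.univ 2) * (1 - C 2 * X) ^ (cl G Finset.univ 3) *
        (1 + X ^ 3) ^ (holes G 4) * (1 - C 2 * X ^ 3) ^ (cl G Finset.univ 4)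

/-- **CMPQ** (80 lines; `theorem cmpq : S_POL → S_HQ → S_CMPQ`). Chromatically equivalent graphs have
the same number of edges, of triangles, and of (induced 4-cycles) - 2 (`K_4`). -/
def S_CMPQ : Prop :=
  ∀ (V W : Type) [Fintype V] [Fintype W] (G : SimpleGraph V) (H : SimpleGraph W),
    Fintype.card V = Fintype.card W → (∀ q, cnt G q = cnt H q) →
    cl G Finset.univ 2 = cl H Finset.univ 2 ∧ cl G Finset.univ 3 = cl H Finset.univ 3 ∧
    holes G 4 + 2 * cl H Finset.univ 4 = holes H 4 + 2 * cl G Finset.univ 4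

end Pool.Agent.P8H79.RC
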