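import Pool.Agent.P8H79.RC.Stm3

/-!
# Project RC (problem MP_8cb124_co), second part: small `n`.

Target now: chromatic uniqueness for ALL `n` divisible by 3 (except possibly 12), and among graphs
without `K_4` for all odd `n >= 13` and all `n >= 18`. The only place where `n >= 64` was used is the
acyclicity of the links.
-/

set_option autoImplicit false

namespace Pool.Agent.P8H79.RC

open Finset

/-- An induced cycle `q` of length `l` with the bounds coming from the double cover. -/
structure QGood {V : Type} (G : SimpleGraph V) (l : ℕ) (q : ZMod l → V) : Prop where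
  inj : Function.Injective q
  adj : ∀ i j, G.Adj (q i) (q j) ↔ j = i + 1 ∨ i = j + 1
  cov1 : ∀ w, w ∉ Set.range q → {i | G.Adj w (q i) ∧ G.Adj w (q (i + 1))}.ncard ≤ 2
  cov4 : ∀ v, {i | ∃ a, a ∉ Set.range q ∧ (a = v ∨ G.Adj v a) ∧
    G.Adj a (q i) ∧ G.Adj a (q (i + 1))}.ncard ≤ 4
  ball1 : ∀ v, {i | q i = v ∨ G.Adj v (q i)}.ncard ≤ 3
  ball2 : ∀ u v, G.Adj u v →
    {i | (q i = v ∨ G.Adj v (q i)) ∨ (q i = u ∨ G.Adj u (q i))}.ncard ≤ 4

/-- **QF** (250 lines; improvement of SHORT, see `Pool.Agent.P8H52.RC.Short`). If `φ` is symmetric, zero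
on triangles and not a coboundary (`G` connected), there is an induced cycle of length `l >= 4`
which has the properties `QGood` when `l >= 7`.
PROOF. `Q = q_0 ... q_{l-1}` a shortest odd closed walk. DOUBLE COVER `D` on `V × ZMod 2`:
`(a, s) ~ (b, s + φ a b)` for `a ~ b`. `Q` lifts to a closed walk `E_0, E_1, ..., E_{2l-1}` of `D` of
length `2 l` (`E_{p+l} = E_p` with the sheet changed). CLAIM: it is isometric in `D`: every walk of `D`
from `E_p` to `E_p'` has length at least the distance of `p, p'` on the `2l`-cycle: a walk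
of length `k` from `E_p` to `E_p'`, `d <= l` the distance of `p` and `p'`, followed by the arc of length
`l - d` from `E_p'` to `E_p` with the sheet changed, projects to an odd closed walk of `G`, so
`k + l - d >= l`. Now use WIN (`Pool.Agent.P8H1.RC.Win`) in the `2l`-cycle (`2 l >= 14 > 12`).
`ball1`: the vertices of `Q` in the closed ball of radius 1 around `v` have lifts at distance at
most 1 from `(v, 0)`, at positions pairwise at distance at most 2: at most 3 of them. `ball2`: the same
with 3 and 4 (lift the edge `u v`). `cov1`: let `S` be the positions `p` with `E_p ~ (w, 0)`: pairwise at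
distance at most 2, so `|S| ≤ 3`; if `w ~ q_i, q_{i+1}` then, the triangle having sum 0, there is `p ∈ S`
over `i` with `p + 1 ∈ S`; and the number of `p ∈ S` with `p + 1 ∈ S` is at most `|S| - 1` as `S` is not
everything. `cov4`: let `S` be the positions `p` such that `E_p` is adjacent to `(v, 0)` or to a
neighbour of `(v, 0)` or to ... (all at distance at most 2 from `(v, 0)`): pairwise at distance at
most 4, `|S| ≤ 5`, and the covered edges give different `p ∈ S` with `p + 1 ∈ S`. -/
def S_QF : Prop :=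
  ∀ (V : Type) [Fintype V] (G : SimpleGraph V) (φ : V → V → ZMod 2), G.Connected →
    (∀ a b, φ a b = φ b a) →
    (∀ a b c, G.Adj a b → G.Adj b c → G.Adj a c → φ a b + φ b c + φ a c = 0) →
    (¬ ∃ f : V → ZMod 2, ∀ a b, G.Adj a b → φ a b = f a + f b) →
    ∃ l : ℕ, 4 ≤ l ∧ Nonempty (SimpleGraph.cycleGraph l ↪g G) ∧
      (7 ≤ l → ∃ q : ZMod l → V, QGood G l q)

/-- **ALPHA** (200 lines; use HOLE, NB1, NB2 of `Pool.Agent.P8H1.RC`). At most one link has a cycle.
PROOF. `N = |V|`. If the link of `v` is not acyclic, it contains (HOLE, no `K_4`) an induced cycle `Z` of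
length `r >= 4`, `2 r >= N`; and `{v} ∪ Z` has at most 3 vertices on `Q` (`ball1`), so
`r + 1 + l - 3 ≤ N`, `r ≤ N - l + 2` and `r + 4 < N` (`l >= 7`). Suppose `u ≠ v` has also an induced cycle
`Z'` in its link, of length `r'`. (1) `u` not adjacent to `v`: at most 2 elements of `Z'` are in `N(v)` (NB1),
so at most `N - (r + 1) - (r' - 2 + 1) ≤ 0` vertices are outside `N[u] ∪ N[v]`: so all `l` vertices of `Q` are in
`N[u] ∪ N[v]`, at most `3 + 3`: contradiction. (2) `u ~ v`: if `v ∈ Z'`, exactly 3 elements of `Z'` are in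
`N[v]`; if not, at most one (NB2 for `Z'` in `N(u)` and `o = v`). So at most
`N - (r + 1) - (r' - 3) ≤ 2` vertices are outside `N[u] ∪ N[v]`, and at most 4 vertices of `Q` inside
(`ball2`): `l ≤ 6`, contradiction. -/
def S_ALPHA : Prop :=
  ∀ (V : Type) [Fintype V] (G : SimpleGraph V), 13 ≤ Fintype.card V → G.CliqueFree 4 →
    NoShort G (Fintype.card V) → ∀ l : ℕ, 7 ≤ l → Fintype.card V ≤ 2 * l →
    ∀ q : ZMod l → V, QGood G l q → ∀ u v : V, u ≠ v → ¬ (link G v).IsAcyclic →
    (link G u).IsAcyclic

/-- **BETA** (200 lines). A link which is not acyclic has at most as many edges as vertices.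
PROOF. `Z` as in ALPHA, `r + 4 < N`. `N[v]` has at most 3 vertices on `Q`, so `deg v + 1 + l - 3 ≤ N`; with
`p = |N(v) \ Z| = deg v - r` and `2 r >= N`, `2 l >= N`: `p ≤ N - l + 2 - r ≤ 2`. Each `o ∈ N(v) \ Z` has at
most one neighbour on `Z` (NB2). Edges of the link: `r` inside `Z`, at most `p` between, at most one
(if `p = 2`) inside `N(v) \ Z`. So at most `r + p` unless `p = 2`, `N(v) \ Z = {o, o'}`, `o ~ o'`,
`o ~ c_i`, `o' ~ c_j`. Then `i ≠ j` (no `K_4` with `v`), and with the shorter arc from `c_i` to `c_j`, of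
length `1 ≤ a ≤ r / 2`, `o, c_i, ..., c_j, o'` is an induced cycle of length `a + 3 >= 4`, so
`2 (a + 3) >= N`, `r >= N - 6`; but `p = 2` gives `r ≤ N - l`, so `l ≤ 6`: contradiction. -/
def S_BETA : Prop :=
  ∀ (V : Type) [Fintype V] (G : SimpleGraph V), 13 ≤ Fintype.card V → G.CliqueFree 4 →
    NoShort G (Fintype.card V) → ∀ l : ℕ, 7 ≤ l → Fintype.card V ≤ 2 * l →
    ∀ q : ZMod l → V, QGood G l q → ∀ v : V, ¬ (link G v).IsAcyclic →
    (link G v).edgeSet.ncard ≤ (G.neighborSet v).ncard

/-- **FINW** (250 lines; `theorem finw : S_ALPHA → S_BETA → S_FINW`, use HOLE etc. of helper1).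
All links are acyclic. PROOF. Suppose `v` has an induced cycle `Z` of length `r` in its link. For a
vertex `u` let `x_u = deg u - (number of edges of the link of u) - 1`, an integer. The sum of all `x_u` is
`2 * 2N - 3 N - N = 0`. For `u ≠ v` the link is a nonempty forest (ALPHA), so `x_u >= 0`, and `x_u >= 1` if
the link is not connected. `x_v >= -1` (BETA). So at most one `u ≠ v` has a disconnected link. Let `T` be
the set of `i` such that some vertex (outside `Q`, as `Q` is induced and `l >= 4`) is adjacent to `q i` and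
`q (i+1)`. If `i ∉ T` or `i - 1 ∉ T`, call `i` bad: then, if `q i ≠ v`, the link of `q i` is disconnected
(the neighbour `q (i+1)`, or `q (i-1)`, is isolated in it, and there are two neighbours at least): so at
most one bad `i` has `q i ≠ v`. Let `A = {v} ∪ Z`, `κ = |A ∩ Q| ≤ 3`, `O` the vertices not in `A ∪ Q`:
`|O| = N - (r + 1 + l - κ)`. By `cov4` (for `A`) and `cov1` (for `O`), `|T| ≤ 4 + 2 |O|`
`= 2 + 2 κ - 2 (r + l - N)`. If `T` is not everything, at most `|T| - 1` (or 0) `i` are not bad.
`N` odd: `2 r, 2 l >= N + 1`, so `|T| ≤ 6 < 7 ≤ l`; there are at least `l - 5 >= 2` bad `i`. `N >= 18`: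
`l >= 9`, `|T| ≤ 8 < l`, at least `l - 7 >= 2` bad `i`. If `q i = v` for a bad `i`, then `κ ≤ 2` (if
`κ = 3`, then `q (i±1)` are on `Z`, and the neighbours of `q (i+1)` on `Z` are adjacent to `v` and outside
`Q`, so `i, i-1 ∈ T`), so `|T| ≤ 4` resp. `≤ 6` and there are at least 3 bad `i` more. Contradiction. -/
def S_FINW : Prop :=
  ∀ (V : Type) [Fintype V] (G : SimpleGraph V),
    ((13 ≤ Fintype.card V ∧ Odd (Fintype.card V)) ∨ 18 ≤ Fintype.card V) → G.CliqueFree 4 →
    NoShort G (Fintype.card V) → (∀ v, (G.neighborSet v).Nonempty) →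
    cl G Finset.univ 2 = 2 * Fintype.card V → cl G Finset.univ 3 = Fintype.card V →
    ∀ l : ℕ, 7 ≤ l → Fintype.card V ≤ 2 * l →
    ∀ q : ZMod l → V, QGood G l q → ∀ v : V, (link G v).IsAcyclic

/-- **W9** (200 lines). Nine vertices. PROOF. Let `Z` be an induced cycle of length `r >= 4` in the link of
`v`. No induced 4-cycle, so `r >= 5`; `G` is 3-colourable, so the link of `v` is 2-colourable and `r` is
even: `r = 6` or `8`. `r = 8`: `V = {v} ∪ Z` and there are 16 edges, not 18. `r = 6`: two more vertices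
`u, u'`. A neighbour `o` of `v` not on `Z` has at most 2 neighbours on `Z`: two of them are neither
adjacent (`K_4`) nor at distance 2 on `Z` (induced `C_4`), so they are opposite. A non-neighbour of
`v` has at most 2 neighbours in `N(v)` (NB1). Both `u, u'` not adjacent to `v`: at most
`12 + 2 + 2 + 1 = 17` edges. Exactly one: at most `12 + (1 + 2) + 2 = 17`. Both adjacent to `v`: then `v` is
adjacent to all and all triangles contain `v` (no `K_4`): their number is `18 - 8 = 10`, not 9. -/
def S_W9 : Prop :=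
  ∀ (V : Type) [Fintype V] (G : SimpleGraph V), Fintype.card V = 9 → G.CliqueFree 4 →
    G.Colorable 3 → NoShort G 9 → cl G Finset.univ 2 = 18 → cl G Finset.univ 3 = 9 →
    ∀ v : V, (link G v).IsAcyclic

/-- **N6** (120 lines). Six vertices (octahedron). PROOF: Turan's theorem
(`SimpleGraph.isTuranMaximal_iff_nonempty_iso_turanGraph`): 12 is the maximal number of edges of a graph
without `K_4` on 6 vertices; or: the complement has three edges; if two of them had a common vertex there
would be an independent set of size 4 in the complement. -/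
def S_N6 : Prop :=
  (∀ (V : Type) [Fintype V] (G : SimpleGraph V), Fintype.card V = 6 → G.CliqueFree 4 →
    cl G Finset.univ 2 = 12 → Nonempty (G ≃g Csq 6)) ∧
  (Csq 6).CliqueFree 4 ∧ cl (Csq 6) Finset.univ 2 = 12 ∧ 0 < cnt (Csq 6) 3

/-- **N3** (60 lines). Three vertices. -/
def S_N3 : Prop :=
  (∀ (V : Type) [Fintype V] (G : SimpleGraph V), Fintype.card V = 3 →
    cl G Finset.univ 2 = 3 → Nonempty (G ≃g Csq 3)) ∧ cl (Csq 3) Finset.univ 2 = 3

/-- **SQ9** (SQA, SQB, SQC, SQD of `Pool.Agent.P8H7.RC` for all `n >= 7`). -/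
def S_SQ9 : Prop :=
  ∀ (n : ℕ) [NeZero n], 7 ≤ n →
    ((Csq n).CliqueFree 4 ∧ cl (Csq n) Finset.univ 2 = 2 * n ∧ cl (Csq n) Finset.univ 3 = n) ∧
    NoShort (Csq n) n ∧ (3 ∣ n → cnt (Csq n) 3 = 6) ∧
    IsStrip (Csq n) n (fun i => i) (fun i => i - 1) ∧
    ∀ (V : Type) (G : SimpleGraph V), ∀ x z : ZMod n → V, IsStrip G n x z →
      (∀ i, z (i + 1) = x i) → Nonempty (G ≃g Csq n)

end Pool.Agent.P8H79.RC
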