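import Pool.Agent.P8H79.RC.Stm5

/-!
# Project RC (problem MP_8cb124_co), third part: graphs without `K_5` minor, `n = 2` modulo 3.

The derivative at 3 of the chromatic polynomial of `C_n ^ 2` is negative for `n = 2` modulo 3, but
it is not negative for a graph with a `K_4` such that no component of its complement is adjacent to
all its four vertices.
-/

set_option autoImplicit false

namespace Pool.Agent.P8H79.RC

open Finset Polynomial

/-- **SEP3** (120 lines). Clique sums along a triangle.
PROOF. Both sides are zero or not only through colourings; for `q >= 3` the number of `q`-colourings of a graph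
with a triangle `e 0, e 1, e 2` is `q (q-1) (q-2)` times the number `f` of those with the colours `0, 1, 2`
on `e 0, e 1, e 2` (permutations of the colours; see `clique_dvd` and the equivalences in
`Pool.Agent.P8H20.RC.Cong`). And `f G = f (G.induce A) * f (G.induce B)`: restrict, resp. glue (two colourings
which agree on `A ∩ B = range e`; every edge is inside `A` or inside `B`). -/
def S_SEP3 : Prop :=
  ∀ (V : Type) [Finite V] (G : SimpleGraph V) (A B : Set V) (e : Fin 3 → V),
    (∀ i j, i ≠ j → G.Adj (e i) (e j)) → A ∪ B = Set.univ → A ∩ B = Set.range e →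
    (∀ u v, G.Adj u v → (u ∈ A ∧ v ∈ A) ∨ (u ∈ B ∧ v ∈ B)) →
    ∀ q : ℕ, 3 ≤ q →
      cnt G q * (q * (q - 1) * (q - 2)) = cnt (G.induce A) q * cnt (G.induce B) q

/-- **IND3** (`theorem ind3 : S_SEP3 → S_IND3`, 150 lines).
PROOF. Induction on the number of vertices. If `K` is surjective, `R = 1`. Otherwise let `C` be the component
of a vertex in the complement of `range K`, `K i` not adjacent to `C`; SEP3 with `A = C ∪ range (K ∘ i.succAbove)`,
`B` the complement of `C`. The polynomial of `G.induce A` is `X (X-1) (X-2) F` with `F 3 = cnt 3 / 6 >= 0`. -/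
def S_IND3 : Prop :=
  ∀ (V : Type) [Finite V] (G : SimpleGraph V) (K : Fin 4 → V),
    (∀ i j, i ≠ j → G.Adj (K i) (K j)) →
    (∀ C : Set V, (G.induce C).Connected → (∀ i, K i ∉ C) → ∃ i, ∀ u ∈ C, ¬ G.Adj (K i) u) →
    ∃ R : Polynomial ℚ, 0 ≤ R.eval 3 ∧
      ∀ q : ℕ, 4 ≤ q → (cnt G q : ℚ) = (q : ℚ) * (q - 1) * (q - 2) * (q - 3) * R.eval (q : ℚ)

/-- **NEG3** (120 lines; uses the proved packages CCS, TRA `Pool.Agent.P8H81.RC.Tra.tra`, and SQD).
PROOF. `Csq n` is the strip with pivot steps only, so `cnt (Csq n) q = q (q-1) (vec (q-2) (fun _ => true) n).a`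
for `q >= 4`. Define the same recursion in `ℤ[X]` (or `ℚ[X]`), `s = X`, pivot steps only: `a' = s e`, `b' = s f`,
`c' = b + (s-1) e`, `d' = a + (s-1) f`, `e' = d + (s-1) g`, `f' = c + (s-1) g`, `g' = c + d + (s-2) g`, from `a = 1`, the
others 0; `vec` is its evaluation at `q - 2`. Let `a_n` be its first component. Then
`(X - 2) (X - 3) R = a_n (X - 2)`, so `R 3 = a_n' 1` (derivative). The values `v` at `1` and the derivatives `w` at
`1` satisfy: values: `(a,b,c,d,e,f,g) ↦ (e, f, b, a, d, c, c + d - g)`; derivatives: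
`(a,..,g) ↦ (e + E, f + F, b + E, a + F, d + G, c + G, c + d + G - g)` with `E, F, G` the values. After `6 j` steps
the values are `(1,0,0,0,0,0,0)` and the derivatives `j (3, 1, 1, -1, 1, 1, -1)` (induction). After 2 more steps the
derivative of `a` is `-j`, after 5 more steps it is `-(j + 1)`. For `n = 2` modulo 3, `n >= 10`, both are negative
(`n = 6 j + 2` with `j >= 2`, or `n = 6 j + 5`). -/
def S_NEG3 : Prop :=
  ∀ n : ℕ, 10 ≤ n → n % 3 = 2 → ∀ R : Polynomial ℚ,
    (∀ q : ℕ, 4 ≤ q →
      (cnt (Csq n) q : ℚ) = (q : ℚ) * (q - 1) * (q - 2) * (q - 3) * R.eval (q : ℚ)) →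
    R.eval 3 < 0

end Pool.Agent.P8H79.RC
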